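import Pool.Agent.ETG.Iface
import Pool.Agent.DSC.Defs

/-!
GTW: towers of quadratic extensions with bounded ranks (all `Iⁿ`, `-1` a square), abstract part
(problem MP_d26ff6_al, general theorem).  Recipes: /team-store/MP_d26ff6_GTW.md
-/

set_option autoImplicit false

namespace Pool.Agent.GTW

open Module CommonSlot Pool.Agent.ETG
open scoped BigOperators

section
variable {V B : Type} [AddCommGroup V] [Module (ZMod 2) V] [AddCommGroup B] [Module (ZMod 2) B]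

/-- the rank `dim q(y, V)` -/
noncomputable def rk (q : V →ₗ[ZMod 2] V →ₗ[ZMod 2] B) (y : V) : ℕ :=
  finrank (ZMod 2) (LinearMap.range (q y))

/-- `x` is regular: `Q_w ⊆ Q_x` for all `w` with `q(x, w) = 0` -/
def Rg (q : V →ₗ[ZMod 2] V →ₗ[ZMod 2] B) (x : V) : Prop :=
  ∀ w v, q x w = 0 → ∃ z, q x z = q w v

/-- nondegenerate -/
def Nd (q : V →ₗ[ZMod 2] V →ₗ[ZMod 2] B) : Prop := ∀ v, (∀ w, q v w = 0) → v = 0

/-- there are elements `p, p'` of rank one with `q(p, p') = e` -/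
def HP (q : V →ₗ[ZMod 2] V →ₗ[ZMod 2] B) (e : B) : Prop :=
  e ≠ 0 ∧ ∃ p p', (∀ v, q p v = 0 ∨ q p v = e) ∧ (∀ v, q p' v = 0 ∨ q p' v = e) ∧ q p p' = e

/-- `q(V_x, V_x)` is contained in the span of the values of noncommuting rank one pairs -/
def SPAN (q : V →ₗ[ZMod 2] V →ₗ[ZMod 2] B) (x : V) : Prop :=
  ∀ u w, q x u = 0 → q x w = 0 → q u w ∈ Submodule.span (ZMod 2) {e | HP q e}

/-- `V_x` is totally isotropic -/
def Iso (q : V →ₗ[ZMod 2] V →ₗ[ZMod 2] B) (x : V) : Prop :=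
  ∀ u w, q x u = 0 → q x w = 0 → q u w = 0

/-- the rank of a bilinear form restricted to `P × P` -/
noncomputable def frk {B' : Type} [AddCommGroup B'] [Module (ZMod 2) B']
    (h : V →ₗ[ZMod 2] V →ₗ[ZMod 2] B') (P : Submodule (ZMod 2) V) : ℕ :=
  finrank (ZMod 2) (LinearMap.range (h.domRestrict₁₂ P P))

/-- The structure has a decomposition into local components and components with a rigid
element. -/
def HasOS (q : V →ₗ[ZMod 2] V →ₗ[ZMod 2] B) : Prop :=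
  ∃ (k : ℕ) (C : ZDec (fun v w => q v w = 0) k), C.OS

/-- Decomposition of `V / V_x` by the characters of `V_x` (for `x` regular and `V_x` totally
isotropic): `P i` are projections onto lifts of the eigenspaces, `χ i` the characters. -/
structure CD (q : V →ₗ[ZMod 2] V →ₗ[ZMod 2] B) (x : V) (k : ℕ) where
  P : Fin k → (V →ₗ[ZMod 2] V)
  χ : Fin k → (V →ₗ[ZMod 2] ZMod 2)
  PP : ∀ i v, P i (P i v) = P i v
  orth : ∀ i j, i ≠ j → ∀ v, P i (P j v) = 0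
  sumU : ∀ v, q x (v + ∑ i, P i v) = 0
  PU : ∀ i u, q x u = 0 → P i u = 0
  χP : ∀ i j v, χ i (P j v) = 0
  eig : ∀ i u v, q x u = 0 → q u (P i v) = χ i u • q x (P i v)
  sep : ∀ i j, i ≠ j → ∃ u, q x u = 0 ∧ χ i u = 1 ∧ χ j u = 0
  ne : ∀ i, ∃ v, P i v ≠ 0

end

/-- A tower `K_{n+1} = K_n(√x_n)` with `N x_{n+1} = x_n` and bounded ranks: square classes `V`,
symbols `q`, scalar extension `res`, norm `N`, transfer `cor`. -/
structure Tow where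
  V : ℕ → Type
  B : ℕ → Type
  [vA : ∀ n, AddCommGroup (V n)]
  [vM : ∀ n, Module (ZMod 2) (V n)]
  [bA : ∀ n, AddCommGroup (B n)]
  [bM : ∀ n, Module (ZMod 2) (B n)]
  fin : ∀ n, Finite (V n)
  q : ∀ n, V n →ₗ[ZMod 2] V n →ₗ[ZMod 2] B n
  x : ∀ n, V n
  res : ∀ n, V n →ₗ[ZMod 2] V (n + 1)
  N : ∀ n, V (n + 1) →ₗ[ZMod 2] V n
  cor : ∀ n, B (n + 1) →ₗ[ZMod 2] B n
  D : ℕ
  /-- symmetric, alternating, linked -/
  link : ∀ n, IsLinked (q n) 0
  Nx : ∀ n, N n (x (n + 1)) = x n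
  Nres : ∀ n v, N n (res n v) = 0
  rN : ∀ n v, q n (x n) v = 0 ↔ ∃ w, N n w = v
  proj : ∀ n w v, cor n (q (n + 1) w (res n v)) = q n (N n w) v
  ker3 : ∀ n v u, q (n + 1) (res n v) (res n u) = 0 ↔ ∃ z, q n (x n) z = q n v u
  /-- all ranks are bounded -/
  bd : ∀ n v, rk (q n) v ≤ D

attribute [instance] Tow.vA Tow.vM Tow.bA Tow.bM

namespace Tow

/-- `V_{x_n}` -/
noncomputable def U (T : Tow) (n : ℕ) : Submodule (ZMod 2) (T.V n) := LinearMap.ker (T.q n (T.x n))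

/-- the span of `q(V_{x_n}, V_{x_n})` -/
def Om (T : Tow) (n : ℕ) : Submodule (ZMod 2) (T.B n) :=
  Submodule.span (ZMod 2) {b | ∃ a c, T.q n (T.x n) a = 0 ∧ T.q n (T.x n) c = 0 ∧ T.q n a c = b}

/-- the rank of the form `κ ∘ q` on `V_{x_n}` -/
noncomputable def ur (T : Tow) (n : ℕ) (κ : T.B n →ₗ[ZMod 2] ZMod 2) : ℕ :=
  frk ((T.q n).compr₂ κ) (T.U n)

/-- stability of the ranks `dim Q_{x_n}` -/
structure Lvl0 (T : Tow) (n : ℕ) : Prop where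
  inj : ∀ w, T.cor n (T.q (n + 1) (T.x (n + 1)) w) = 0 → T.q (n + 1) (T.x (n + 1)) w = 0
  onto : ∀ w, ∃ v, T.q (n + 1) (T.x (n + 1)) w = T.q (n + 1) (T.x (n + 1)) (T.res n v)

/-- consequences of the stability of the ranks `dim Q_{x_n}` -/
structure Lvl (T : Tow) (n : ℕ) : Prop where
  inj : ∀ w, T.cor n (T.q (n + 1) (T.x (n + 1)) w) = 0 → T.q (n + 1) (T.x (n + 1)) w = 0
  onto : ∀ w, ∃ v, T.q (n + 1) (T.x (n + 1)) w = T.q (n + 1) (T.x (n + 1)) (T.res n v)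
  dec : ∀ w, ∃ v u, T.q (n + 1) (T.x (n + 1)) u = 0 ∧ w = T.res n v + u
  lift : ∀ u, T.q n (T.x n) u = 0 → ∃ w, T.q (n + 1) (T.x (n + 1)) w = 0 ∧ T.N n w = u
  resU : ∀ u, T.q n (T.x n) u = 0 → T.q (n + 1) (T.x (n + 1)) (T.res n u) = 0
  r1 : ∀ a b z, T.q (n + 1) (T.res n a) (T.res n b) = T.q (n + 1) (T.x (n + 1)) z →
    T.q (n + 1) (T.res n a) (T.res n b) = 0
  corx : ∀ w, ∃ v, T.cor n (T.q (n + 1) (T.x (n + 1)) w) = T.q n (T.x n) v

/-- the level `n` with `x_n`, `x_{n+1}` regular -/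
structure Lvr (T : Tow) (n : ℕ) : Prop extends Lvl T n where
  rg : Rg (T.q n) (T.x n)
  rg' : Rg (T.q (n + 1)) (T.x (n + 1))
  uq : ∀ u w, T.q n (T.x n) u = 0 →
    ∃ z, T.q (n + 1) (T.x (n + 1)) z = T.q (n + 1) (T.res n u) w
  cq : ∀ u w, T.cor n (T.q (n + 1) (T.res n u) w) = T.q n u (T.N n w)
  q0 : ∀ u v, T.q n (T.x n) u = 0 → T.q (n + 1) (T.res n u) (T.res n v) = 0

/-- stability of `Om` -/
structure Lvo (T : Tow) (n : ℕ) : Prop where
  mp : (T.Om (n + 1)).map (T.cor n) = T.Om n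
  ki : ∀ b ∈ T.Om (n + 1), T.cor n b = 0 → b = 0

end Tow

end Pool.Agent.GTW
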