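import Pool.Agent.GTW.Defs

/-!
GTW: statements of the modules.  Recipes: /team-store/MP_d26ff6_GTW.md
-/

set_option autoImplicit false

namespace Pool.Agent.GTW

open Module CommonSlot Pool.Agent.ETG
open scoped BigOperators

/-! ## A. The tower -/

/-- STB: the ranks `dim Q_{x_n}` are nondecreasing and bounded. Uses nothing. -/
def Stmt_STB : Prop := ∀ T : Tow, ∃ n0, ∀ n, n0 ≤ n → T.Lvl0 n

/-- DCM: consequences. Uses nothing. -/
def Stmt_DCM : Prop := ∀ (T : Tow) (n : ℕ), T.Lvl0 n → T.Lvl n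

/-- REG: regularity. Uses nothing. -/
def Stmt_REG : Prop := ∀ (T : Tow) (n0 : ℕ), (∀ n, n0 ≤ n → T.Lvl n) →
  ∀ n, n0 ≤ n → Rg (T.q n) (T.x n)

/-- PRJ. Uses nothing. -/
def Stmt_PRJ : Prop := ∀ (T : Tow) (n : ℕ), T.Lvl n → Rg (T.q n) (T.x n) →
  Rg (T.q (n + 1)) (T.x (n + 1)) → T.Lvr n

/-- LNK: `V_{x_n}` is linked. Uses nothing. -/
def Stmt_LNK : Prop := ∀ (T : Tow) (n : ℕ), T.Lvr n → ∀ a b c d,
  T.q n (T.x n) a = 0 → T.q n (T.x n) b = 0 → T.q n (T.x n) c = 0 → T.q n (T.x n) d = 0 →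
  T.q n a b = T.q n c d →
    ∃ s, T.q n (T.x n) s = 0 ∧ T.q n a s = T.q n a b ∧ T.q n c s = T.q n a b

/-- OMS: stability of `Om`. Uses nothing. -/
def Stmt_OMS : Prop := ∀ (T : Tow) (n0 : ℕ), (∀ n, n0 ≤ n → T.Lvr n) →
  ∃ n1, n0 ≤ n1 ∧ ∀ n, n1 ≤ n → T.Lvo n

/-- DBL: the ranks double. Uses nothing. -/
def Stmt_DBL : Prop := ∀ (T : Tow) (n : ℕ), T.Lvr n → ∀ κ : T.B n →ₗ[ZMod 2] ZMod 2,
  2 * T.ur n κ ≤ T.ur (n + 1) (κ.comp (T.cor n))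

/-- GRW: the ranks are arbitrarily large. Uses DBL. -/
def Stmt_GRW : Prop := ∀ (T : Tow) (n1 : ℕ), (∀ n, n1 ≤ n → T.Lvr n) →
  (∀ n, n1 ≤ n → T.Lvo n) → ∀ M : ℕ, ∃ n2, n1 ≤ n2 ∧ ∀ n, n2 ≤ n →
    ∀ κ : T.B n →ₗ[ZMod 2] ZMod 2, (∃ b ∈ T.Om n, κ b ≠ 0) → M ≤ T.ur n κ

/-- FUL: existence of a full element by counting (linear algebra). Uses nothing. -/
def Stmt_FUL : Prop := ∀ (U B : Type) [AddCommGroup U] [Module (ZMod 2) U] [Finite U]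
  [AddCommGroup B] [Module (ZMod 2) B] [Finite B] (h : U →ₗ[ZMod 2] U →ₗ[ZMod 2] B),
  (∀ κ : B →ₗ[ZMod 2] ZMod 2, κ ≠ 0 →
    finrank (ZMod 2) B ≤ finrank (ZMod 2) (LinearMap.range (h.compr₂ κ))) →
  ∃ y, Full h y

/-- GEN: a linked structure with large ranks is a product of local components (modulo its
radical). Uses FUL, DEC (DSC). -/
def Stmt_GEN : Prop := ∀ (U B : Type) [AddCommGroup U] [Module (ZMod 2) U] [Finite U]
  [AddCommGroup B] [Module (ZMod 2) B] [Finite B] (h : U →ₗ[ZMod 2] U →ₗ[ZMod 2] B) (M : ℕ),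
  IsLinked h 0 → 3 ≤ M → finrank (ZMod 2) B ≤ M →
  (∀ κ : B →ₗ[ZMod 2] ZMod 2, κ ≠ 0 →
    M ≤ finrank (ZMod 2) (LinearMap.range (h.compr₂ κ))) →
  ∃ (k : ℕ) (c : Fin k → B) (P : Fin k → Submodule (ZMod 2) U),
    (∀ b, b ∈ Submodule.span (ZMod 2) (Set.range c)) ∧
    ∀ j, c j ≠ 0 ∧ (∀ y ∈ P j, ∀ v, h y v = 0 ∨ h y v = c j) ∧ M ≤ frk h (P j)

/-- CNT: noncommuting rank one pairs by counting (linear algebra). Uses nothing. -/
def Stmt_CNT : Prop := ∀ (V B : Type) [AddCommGroup V] [Module (ZMod 2) V] [Finite V]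
  [AddCommGroup B] [Module (ZMod 2) B] (q : V →ₗ[ZMod 2] V →ₗ[ZMod 2] B) (x : V) (D : ℕ)
  (e : B) (P : Submodule (ZMod 2) V), (∀ a b, q a b = q b a) → Rg q x → rk q x ≤ D → e ≠ 0 →
  (∀ y ∈ P, q x y = 0) → (∀ y ∈ P, ∀ u, q x u = 0 → q y u = 0 ∨ q y u = e) →
  2 * D ^ 2 + 1 ≤ frk q P → HP q e

/-- SPN: result of the tower. Uses STB, DCM, REG, PRJ, LNK, OMS, GRW, GEN, CNT. -/
def Stmt_SPN : Prop := ∀ T : Tow, ∃ n, Rg (T.q n) (T.x n) ∧ SPAN (T.q n) (T.x n)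

/-! ## B. Splitting off a local component (helper19, note 1602) -/

/-- LOC: a noncommuting rank one pair splits off a local component. Uses nothing. -/
def Stmt_LOC : Prop := ∀ (V B : Type) [AddCommGroup V] [Module (ZMod 2) V] [Finite V]
  [AddCommGroup B] [Module (ZMod 2) B] (q : V →ₗ[ZMod 2] V →ₗ[ZMod 2] B), IsLinked q 0 →
  Nd q → ∀ c, HP q c → ∃ π : V →ₗ[ZMod 2] V, (∀ v, π (π v) = π v) ∧
    (∀ v w, q (π v) w = 0 ∨ q (π v) w = c) ∧ (∀ v w, q (π v) (w + π w) = 0) ∧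
    (∀ v w, q (v + π v) (w + π w) ≠ c) ∧
    (∀ y, (∀ v, q y v = 0 ∨ q y v = c) → π y = y) ∧
    ∀ a b a' b', (q a b = q a' b' ∨ q a b = q a' b' + c) →
      ∃ s, (q a s = q a b ∨ q a s = q a b + c) ∧ (q a' s = q a b ∨ q a' s = q a b + c)

/-! ## C. Regular elements with totally isotropic `V_x` (note 1587 B) -/

/-- STR: the fundamental consequence of linkage. Uses nothing. -/
def Stmt_STR : Prop := ∀ (V B : Type) [AddCommGroup V] [Module (ZMod 2) V]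
  [AddCommGroup B] [Module (ZMod 2) B] (q : V →ₗ[ZMod 2] V →ₗ[ZMod 2] B), IsLinked q 0 →
  ∀ x v y s v', q x v = q y s → q y v' = 0 →
    ∃ a g, q x a = 0 ∧ q x g = 0 ∧ q (v' + a) (v + g) = 0

/-- CHD: decomposition of `V / V_x` by characters. Uses nothing. -/
def Stmt_CHD : Prop := ∀ (V B : Type) [AddCommGroup V] [Module (ZMod 2) V] [Finite V]
  [AddCommGroup B] [Module (ZMod 2) B] (q : V →ₗ[ZMod 2] V →ₗ[ZMod 2] B) (x : V),
  IsLinked q 0 → Rg q x → Iso q x → ∃ k, Nonempty (CD q x k)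

/-- SCA: cross terms are scalar. Uses STR. -/
def Stmt_SCA : Prop := ∀ (V B : Type) [AddCommGroup V] [Module (ZMod 2) V] [Finite V]
  [AddCommGroup B] [Module (ZMod 2) B] (q : V →ₗ[ZMod 2] V →ₗ[ZMod 2] B) (x : V) (k : ℕ),
  IsLinked q 0 → Rg q x → Iso q x → ∀ C : CD q x k,
  ∃ α : Fin k → Fin k → (V →ₗ[ZMod 2] ZMod 2), (∀ i j v, α i j (C.P j v) = α i j v) ∧
    ∀ i j v z, i ≠ j →
      q (C.P i v) (C.P j z) = α i j z • q x (C.P i v) + α j i v • q x (C.P j z)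

/-- CMP: values inside one component. Uses nothing. -/
def Stmt_CMP : Prop := ∀ (V B : Type) [AddCommGroup V] [Module (ZMod 2) V] [Finite V]
  [AddCommGroup B] [Module (ZMod 2) B] (q : V →ₗ[ZMod 2] V →ₗ[ZMod 2] B) (x : V) (k : ℕ),
  IsLinked q 0 → Rg q x → Iso q x → ∀ (C : CD q x k) (i : Fin k) (y y' z : V),
  q x z = q (C.P i y) (C.P i y') → ∃ z', q x (C.P i z') = q (C.P i y) (C.P i y')

/-- IND: independence of the components. Uses STR. -/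
def Stmt_IND : Prop := ∀ (V B : Type) [AddCommGroup V] [Module (ZMod 2) V] [Finite V]
  [AddCommGroup B] [Module (ZMod 2) B] (q : V →ₗ[ZMod 2] V →ₗ[ZMod 2] B) (x : V) (k : ℕ),
  IsLinked q 0 → Rg q x → Iso q x → ∀ (C : CD q x k) (v z w : V), q x w = q v z →
  ∀ i, ∃ w', q x w' = q (C.P i v) (C.P i z)

/-- CLO: the set of the vectors `(χ_i(u))_i` is closed under products. Uses SCA. -/
def Stmt_CLO : Prop := ∀ (V B : Type) [AddCommGroup V] [Module (ZMod 2) V] [Finite V]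
  [AddCommGroup B] [Module (ZMod 2) B] (q : V →ₗ[ZMod 2] V →ₗ[ZMod 2] B) (x : V) (k : ℕ),
  IsLinked q 0 → Rg q x → Iso q x → ∀ (C : CD q x k) (u w : V), q x u = 0 → q x w = 0 →
  ∃ u', q x u' = 0 ∧ ∀ i, C.χ i u' = C.χ i u * C.χ i w

/-- ALL: every vector is a `(χ_i(u))_i`. Uses CLO. -/
def Stmt_ALL : Prop := ∀ (V B : Type) [AddCommGroup V] [Module (ZMod 2) V] [Finite V]
  [AddCommGroup B] [Module (ZMod 2) B] (q : V →ₗ[ZMod 2] V →ₗ[ZMod 2] B) (x : V) (k : ℕ),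
  IsLinked q 0 → Rg q x → Iso q x → ∀ (C : CD q x k) (ε : Fin k → ZMod 2),
  ∃ u, q x u = 0 ∧ ∀ i, C.χ i u = ε i

/-- RFF: the decomposition. Uses SCA, CMP, IND, ALL. -/
def Stmt_RFF : Prop := ∀ (V B : Type) [AddCommGroup V] [Module (ZMod 2) V] [Finite V]
  [AddCommGroup B] [Module (ZMod 2) B] (q : V →ₗ[ZMod 2] V →ₗ[ZMod 2] B) (x : V) (k : ℕ),
  IsLinked q 0 → Nd q → Rg q x → Iso q x → CD q x k → HasOS q

/-! ## D. The abstract theorem -/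

/-- RFT: `x` regular, `V_x` totally isotropic. Uses CHD, RFF. -/
def Stmt_RFT : Prop := ∀ (V B : Type) [AddCommGroup V] [Module (ZMod 2) V] [Finite V]
  [AddCommGroup B] [Module (ZMod 2) B] (q : V →ₗ[ZMod 2] V →ₗ[ZMod 2] B) (x : V),
  IsLinked q 0 → Nd q → Rg q x → Iso q x → HasOS q

/-- ZQT: the complement of a local component, with values modulo `c`. Uses nothing. -/
def Stmt_ZQT : Prop := ∀ (V B : Type) [AddCommGroup V] [Module (ZMod 2) V] [Finite V]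
  [AddCommGroup B] [Module (ZMod 2) B] (q : V →ₗ[ZMod 2] V →ₗ[ZMod 2] B) (x : V) (c : B)
  (π : V →ₗ[ZMod 2] V), IsLinked q 0 → Nd q → Rg q x → SPAN q x → HP q c →
  (∀ v, π (π v) = π v) → (∀ v w, q (π v) w = 0 ∨ q (π v) w = c) →
  (∀ v w, q (π v) (w + π w) = 0) → (∀ v w, q (v + π v) (w + π w) ≠ c) →
  (∀ y, (∀ v, q y v = 0 ∨ q y v = c) → π y = y) →
  (∀ a b a' b', (q a b = q a' b' ∨ q a b = q a' b' + c) →
    ∃ s, (q a s = q a b ∨ q a s = q a b + c) ∧ (q a' s = q a b ∨ q a' s = q a b + c)) →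
  ∃ (W B' : Type) (_ : AddCommGroup W) (_ : Module (ZMod 2) W) (_ : Finite W)
    (_ : AddCommGroup B') (_ : Module (ZMod 2) B') (q' : W →ₗ[ZMod 2] W →ₗ[ZMod 2] B') (x' : W)
    (ι : W →ₗ[ZMod 2] V), Nat.card W < Nat.card V ∧ Function.Injective ι ∧
    (∀ w, π (ι w) = 0) ∧ (∀ v, ∃ w, ι w = v + π v) ∧ (∀ v w, q' v w = 0 ↔ q (ι v) (ι w) = 0) ∧
    IsLinked q' 0 ∧ Nd q' ∧ Rg q' x' ∧ SPAN q' x'

/-- CMB: decomposition of `V` from one of the complement. Uses nothing. -/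
def Stmt_CMB : Prop := ∀ (V B : Type) [AddCommGroup V] [Module (ZMod 2) V]
  [AddCommGroup B] [Module (ZMod 2) B] (q : V →ₗ[ZMod 2] V →ₗ[ZMod 2] B) (c : B)
  (π : V →ₗ[ZMod 2] V), IsLinked q 0 → Nd q → HP q c →
  (∀ v, π (π v) = π v) → (∀ v w, q (π v) w = 0 ∨ q (π v) w = c) →
  (∀ v w, q (π v) (w + π w) = 0) → (∀ v w, q (v + π v) (w + π w) ≠ c) →
  (∀ y, (∀ v, q y v = 0 ∨ q y v = c) → π y = y) →
  ∀ (W B' : Type) [AddCommGroup W] [Module (ZMod 2) W] [AddCommGroup B'] [Module (ZMod 2) B']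
    (q' : W →ₗ[ZMod 2] W →ₗ[ZMod 2] B') (ι : W →ₗ[ZMod 2] V), Function.Injective ι →
    (∀ w, π (ι w) = 0) → (∀ v, ∃ w, ι w = v + π v) →
    (∀ v w, q' v w = 0 ↔ q (ι v) (ι w) = 0) → HasOS q' → HasOS q

/-- OSL: the loop, nondegenerate case. Uses LOC, RFT, ZQT, CMB. -/
def Stmt_OSL : Prop := ∀ (V B : Type) [AddCommGroup V] [Module (ZMod 2) V] [Finite V]
  [AddCommGroup B] [Module (ZMod 2) B] (q : V →ₗ[ZMod 2] V →ₗ[ZMod 2] B) (x : V),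
  IsLinked q 0 → Nd q → Rg q x → SPAN q x → HasOS q

/-- OSX: **the abstract theorem**: a regular element with the property `SPAN`. Uses OSL. -/
def Stmt_OSX : Prop := ∀ (V B : Type) [AddCommGroup V] [Module (ZMod 2) V] [Finite V]
  [AddCommGroup B] [Module (ZMod 2) B] (q : V →ₗ[ZMod 2] V →ₗ[ZMod 2] B) (x : V),
  IsLinked q 0 → Rg q x → SPAN q x → HasOS q

/-- TWR: **the tower theorem**. Uses SPN, OSX. -/
def Stmt_TWR : Prop := ∀ T : Tow, ∃ n, HasOS (T.q n)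

end Pool.Agent.GTW
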