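import Pool.Agent.GTW.Stmts

/-!
# GTW, ALL: every vector is a `(χ_i(u))_i`
-/

set_option autoImplicit false

namespace Pool.Agent.GTW

open Module CommonSlot Pool.Agent.ETG
open scoped BigOperators

namespace ALL_

section
variable {V B : Type} [AddCommGroup V] [Module (ZMod 2) V] [AddCommGroup B] [Module (ZMod 2) B]
  {q : V →ₗ[ZMod 2] V →ₗ[ZMod 2] B} {x : V} {k : ℕ}

theorem chi_x (hl : IsLinked q 0) (C : CD q x k) (i : Fin k) : C.χ i x = 1 := by
  have hxx : q x x = 0 := by rw [hl.diag, map_zero]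
  obtain ⟨v, hv⟩ := C.ne i
  have h1 : q x (C.P i v) ≠ 0 := by
    intro h
    apply hv
    have h2 := C.PU i _ h
    rwa [C.PP] at h2
  have h2 := C.eig i x v hxx
  rcases zm (C.χ i x) with h | h
  · exfalso
    rw [h, zero_smul] at h2
    exact h1 h2
  · exact h

/-- the vectors of the values of the characters -/
noncomputable def S (C : CD q x k) : Submodule (ZMod 2) (Fin k → ZMod 2) :=
  (LinearMap.ker (q x)).map (LinearMap.pi C.χ)

theorem mem_S (C : CD q x k) (ε : Fin k → ZMod 2) :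
    ε ∈ S C ↔ ∃ u, q x u = 0 ∧ ∀ i, C.χ i u = ε i := by
  constructor
  · rintro ⟨u, hu, rfl⟩
    exact ⟨u, hu, fun i => rfl⟩
  · rintro ⟨u, hu, h⟩
    exact ⟨u, hu, funext h⟩

end

end ALL_

open ALL_ in
theorem all_proof (hCLO : Stmt_CLO) : Stmt_ALL := by
  intro V B _ _ _ _ _ q x k hl hR hI C ε
  have hmul : ∀ a b, a ∈ S C → b ∈ S C → a * b ∈ S C := by
    intro a b ha hb
    rw [mem_S] at ha hb ⊢
    obtain ⟨u, hu, h⟩ := ha
    obtain ⟨w, hw, h'⟩ := hb
    obtain ⟨u', hu', h''⟩ := hCLO V B q x k hl hR hI C u w hu hw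
    refine ⟨u', hu', fun i => ?_⟩
    rw [h'', h, h', Pi.mul_apply]
  have hone : ∃ a ∈ S C, ∀ i, a i = 1 := by
    refine ⟨fun _ => 1, (mem_S C _).2 ⟨x, ?_, fun i => chi_x hl C i⟩, fun i => rfl⟩
    rw [hl.diag, map_zero]
  have hpart : ∀ (i : Fin k) (J : Finset (Fin k)), i ∉ J →
      ∃ a ∈ S C, a i = 1 ∧ ∀ j ∈ J, a j = 0 := by
    intro i J
    induction J using Finset.induction_on with
    | empty =>
      intro _
      obtain ⟨a, ha, h1⟩ := hone
      exact ⟨a, ha, h1 i, fun j hj => absurd hj (Finset.notMem_empty j)⟩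
    | insert j J hj ih =>
      intro hi
      rw [Finset.mem_insert, not_or] at hi
      obtain ⟨a, ha, h1, h2⟩ := ih hi.2
      obtain ⟨u, hu, h3, h4⟩ := C.sep i j hi.1
      refine ⟨a * (fun l => C.χ l u), hmul _ _ ha ((mem_S C _).2 ⟨u, hu, fun _ => rfl⟩), ?_, ?_⟩
      · rw [Pi.mul_apply, h1, h3, one_mul]
      · intro l hl'
        rw [Pi.mul_apply]
        rcases Finset.mem_insert.1 hl' with rfl | hl'
        · rw [h4, mul_zero]
        · rw [h2 l hl', zero_mul]
  have hunit : ∀ i : Fin k, Pi.single i (1 : ZMod 2) ∈ S C := by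
    intro i
    obtain ⟨a, ha, h1, h2⟩ := hpart i (Finset.univ.erase i) (Finset.notMem_erase i _)
    have : Pi.single i (1 : ZMod 2) = a := by
      funext j
      by_cases hj : j = i
      · subst hj
        rw [Pi.single_eq_same, h1]
      · rw [Pi.single_eq_of_ne hj, h2 j (Finset.mem_erase.2 ⟨hj, Finset.mem_univ j⟩)]
    rw [this]
    exact ha
  have hε : ε ∈ S C := by
    have h1 : ε = ∑ i, ε i • Pi.single i (1 : ZMod 2) := by
      funext j
      rw [Finset.sum_apply, Finset.sum_eq_single_of_mem j (Finset.mem_univ j)]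
      · simp
      · intro i _ hij
        rw [Pi.smul_apply, Pi.single_eq_of_ne hij.symm, smul_zero]
    rw [h1]
    exact Submodule.sum_mem _ fun i _ => Submodule.smul_mem _ _ (hunit i)
  exact (mem_S C ε).1 hε

end Pool.Agent.GTW
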