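import Pool.Agent.GTW.Stmts

/-! CHD: decomposition of `V / V_x` by characters. -/

set_option autoImplicit false

namespace Pool.Agent.GTW

open Module CommonSlot Pool.Agent.ETG
open scoped BigOperators

namespace CHD_

theorem zz (a : ZMod 2) : a + a = 0 := by revert a; decide

section ring
variable {R ι : Type} [CommRing R] [Algebra (ZMod 2) R] [Fintype ι] [DecidableEq ι]

/-- the idempotents -/
noncomputable def Pr (e : ι → R) (χ : ι → ZMod 2) : R :=
  ∏ i, (e i + algebraMap (ZMod 2) R (χ i) + 1)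

theorem two0 (r : R) : r + r = 0 := by
  have h1 : r + r = algebraMap (ZMod 2) R 2 * r := by rw [map_ofNat]; ring
  rw [h1, show (2 : ZMod 2) = 0 from rfl, map_zero, zero_mul]

theorem Pr_sum (e : ι → R) : ∑ χ, Pr e χ = 1 := by
  unfold Pr
  have h1 := Finset.prod_univ_sum (fun _ : ι => (Finset.univ : Finset (ZMod 2)))
    (fun i b => e i + algebraMap (ZMod 2) R b + 1)
  rw [Fintype.piFinset_univ] at h1
  rw [← h1]
  apply Finset.prod_eq_one
  intro i _
  have h2 : (Finset.univ : Finset (ZMod 2)) = {0, 1} := by decide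
  rw [h2, Finset.sum_pair (by decide), map_zero, map_one, add_zero]
  have h3 : e i + 1 + (e i + 1 + 1) = (e i + e i) + (1 + 1) + 1 := by ring
  rw [h3, two0, two0, zero_add, zero_add]

theorem Pr_mul (e : ι → R) (he : ∀ i, e i * e i = e i) (χ : ι → ZMod 2) (i : ι) :
    e i * Pr e χ = algebraMap (ZMod 2) R (χ i) * Pr e χ := by
  unfold Pr
  rw [← Finset.mul_prod_erase Finset.univ _ (Finset.mem_univ i), ← mul_assoc, ← mul_assoc]
  congr 1
  rcases zm (χ i) with h | h
  · rw [h, map_zero, add_zero, zero_mul, mul_add, he, mul_one, two0]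
  · rw [h, map_one, one_mul]
    have h3 : e i * (e i + 1 + 1) = e i * e i + (e i + e i) := by ring
    rw [h3, he, two0, add_assoc, two0]

theorem Pr_ne (e : ι → R) (he : ∀ i, e i * e i = e i) (χ χ' : ι → ZMod 2) (h : χ ≠ χ') :
    Pr e χ * Pr e χ' = 0 := by
  obtain ⟨i, hi⟩ := Function.ne_iff.1 h
  have h1 : e i * (Pr e χ * Pr e χ') = algebraMap (ZMod 2) R (χ i) * (Pr e χ * Pr e χ') := by
    rw [← mul_assoc, Pr_mul e he, mul_assoc]
  have h2 : e i * (Pr e χ * Pr e χ') = algebraMap (ZMod 2) R (χ' i) * (Pr e χ * Pr e χ') := by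
    rw [mul_left_comm, Pr_mul e he, mul_left_comm]
  rw [h2] at h1
  rcases zm (χ i) with a | a <;> rcases zm (χ' i) with b | b
  · exact absurd (a.trans b.symm) hi
  · rw [a, b, map_zero, map_one, one_mul, zero_mul] at h1; exact h1
  · rw [a, b, map_zero, map_one, one_mul, zero_mul] at h1; exact h1.symm
  · exact absurd (a.trans b.symm) hi

theorem Pr_sq (e : ι → R) (he : ∀ i, e i * e i = e i) (χ : ι → ZMod 2) :
    Pr e χ * Pr e χ = Pr e χ := by
  have h1 : Pr e χ * ∑ χ', Pr e χ' = Pr e χ := by rw [Pr_sum, mul_one]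
  rw [Finset.mul_sum, Finset.sum_eq_single χ] at h1
  · exact h1
  · intro χ' _ h
    exact Pr_ne e he χ χ' (Ne.symm h)
  · intro h
    exact absurd (Finset.mem_univ χ) h

end ring

end CHD_

open CHD_ in
theorem chd_proof : Stmt_CHD := by
  intro V B _ _ _ _ _ q x hL hR hI
  classical
  set U := LinearMap.ker (q x) with hU
  let T := V ⧸ U
  let mk : V →ₗ[ZMod 2] T := U.mkQ
  have mk0 : ∀ v, mk v = 0 ↔ q x v = 0 := fun v => by
    rw [← LinearMap.mem_ker, Submodule.ker_mkQ, LinearMap.mem_ker]
  -- `τ`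
  let τ : T →ₗ[ZMod 2] B := U.liftQ (q x) le_rfl
  have hτ : ∀ v, τ (mk v) = q x v := fun v => U.liftQ_apply (q x) v
  have τinj : Function.Injective τ := by
    rw [← LinearMap.ker_eq_bot]
    exact Submodule.ker_liftQ_eq_bot _ _ _ le_rfl
  have mksurj : Function.Surjective mk := U.mkQ_surjective
  -- the operators
  have hE : ∀ u : U, ∃ E : T →ₗ[ZMod 2] T, ∀ v, τ (E (mk v)) = q u v := by
    intro u
    have hu : q x u = 0 := u.2
    have h1 : ∀ v, q u v ∈ LinearMap.range τ := by
      intro v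
      obtain ⟨z, hz⟩ := hR u v hu
      exact ⟨mk z, by rw [hτ, hz]⟩
    let f : V →ₗ[ZMod 2] LinearMap.range τ := (q u).codRestrict _ h1
    have hf : U ≤ LinearMap.ker f := by
      intro w hw
      rw [LinearMap.mem_ker]
      apply Subtype.ext
      exact hI _ _ hu hw
    let g : T →ₗ[ZMod 2] LinearMap.range τ := U.liftQ f hf
    refine ⟨(LinearEquiv.ofInjective τ τinj).symm.toLinearMap.comp g, ?_⟩
    intro v
    have h2 : ∀ y : LinearMap.range τ, τ ((LinearEquiv.ofInjective τ τinj).symm y) = y := by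
      intro y
      have := (LinearEquiv.ofInjective τ τinj).apply_symm_apply y
      exact congrArg Subtype.val this
    rw [LinearMap.comp_apply]
    exact (h2 _).trans rfl
  choose E hE using hE
  have ext : ∀ F G : T →ₗ[ZMod 2] T, (∀ v, τ (F (mk v)) = τ (G (mk v))) → F = G := by
    intro F G h
    ext v
    exact τinj (h v)
  have Eadd : ∀ u u', E (u + u') = E u + E u' := by
    intro u u'
    apply ext
    intro v
    rw [hE, LinearMap.add_apply, map_add, hE, hE]
    show q ((u : V) + u') v = _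
    rw [map_add, LinearMap.add_apply]
  have Eidem : ∀ u, E u * E u = E u := by
    intro u
    apply ext
    intro v
    obtain ⟨z, hz⟩ := hR u v u.2
    obtain ⟨s, hs1, hs2⟩ := hL.link (u : V) v x z hz.symm
    have h1 : E u (mk v) = mk s := by
      apply τinj
      rw [hE, hτ, hs2]
    rw [Module.End.mul_apply, h1, hE, hτ, hs1, hs2]
  have Ecomm : ∀ u u', E u * E u' = E u' * E u := by
    intro u u'
    have h1 := Eidem (u + u')
    rw [Eadd] at h1
    have h2 : (E u + E u') * (E u + E u') = E u + E u' + (E u * E u' + E u' * E u) := by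
      rw [mul_add, add_mul, add_mul, Eidem, Eidem]
      abel
    rw [h2] at h1
    have h3 : E u * E u' + E u' * E u = 0 := by
      have := add_left_cancel (h1.trans (add_zero (E u + E u')).symm)
      exact this
    have h4 : ∀ A A' : T →ₗ[ZMod 2] T, A + A' = 0 → A = A' := by
      intro A A' h
      ext t
      have := congrArg (fun F => F (mk t)) h
      exact eq_of_add_eq_zero' this
    exact h4 _ _ h3
  -- the commutative ring
  let xU : U := ⟨x, by rw [hU, LinearMap.mem_ker, hL.diag, map_zero]⟩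
  let A := Algebra.adjoin (ZMod 2) (Set.range E)
  have hcomm : ∀ a ∈ Set.range E, ∀ b ∈ Set.range E, a * b = b * a := by
    rintro _ ⟨u, rfl⟩ _ ⟨u', rfl⟩
    exact Ecomm u u'
  let _ : CommRing A := Algebra.adjoinCommRingOfComm (ZMod 2) hcomm
  let e : U → A := fun u => ⟨E u, Algebra.subset_adjoin ⟨u, rfl⟩⟩
  have he : ∀ u, e u * e u = e u := fun u => Subtype.ext (Eidem u)
  let _ : Fintype U := Fintype.ofFinite U
  let Q : (U → ZMod 2) → (T →ₗ[ZMod 2] T) := fun χ => (Pr e χ : A)
  have Qmul : ∀ χ u t, E u (Q χ t) = χ u • Q χ t := by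
    intro χ u t
    have h1 := congrArg (fun a : A => (a : T →ₗ[ZMod 2] T) t) (Pr_mul e he χ u)
    have h2 : ((e u * Pr e χ : A) : T →ₗ[ZMod 2] T) t = E u (Q χ t) := rfl
    have h3 : ((algebraMap (ZMod 2) A (χ u) * Pr e χ : A) : T →ₗ[ZMod 2] T) t =
        χ u • Q χ t := by
      rcases zm (χ u) with h | h
      · rw [h, map_zero, zero_mul, zero_smul]; rfl
      · rw [h, map_one, one_mul, one_smul]
    rw [← h2, ← h3]
    exact h1
  have Qne : ∀ χ χ', χ ≠ χ' → ∀ t, Q χ (Q χ' t) = 0 := by
    intro χ χ' h t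
    have h1 := congrArg (fun a : A => (a : T →ₗ[ZMod 2] T) t) (Pr_ne e he χ χ' h)
    exact h1
  have Qsq : ∀ χ t, Q χ (Q χ t) = Q χ t := by
    intro χ t
    have h1 := congrArg (fun a : A => (a : T →ₗ[ZMod 2] T) t) (Pr_sq e he χ)
    exact h1
  have Qsum : ∀ t, ∑ χ, Q χ t = t := by
    intro t
    have h1 := congrArg (fun a : A => (a : T →ₗ[ZMod 2] T) t) (Pr_sum e)
    have h2 : ((∑ χ, Pr e χ : A) : T →ₗ[ZMod 2] T) t = ∑ χ, Q χ t := by
      rw [AddSubmonoidClass.coe_finsetSum, LinearMap.sum_apply]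
    rw [← h2]
    exact h1
  -- the index set
  let I : Type := {χ : U → ZMod 2 // Q χ ≠ 0}
  let eq : Fin (Fintype.card I) ≃ I := (Fintype.equivFin I).symm
  have chadd : ∀ χ : I, ∀ u u', χ.1 (u + u') = χ.1 u + χ.1 u' := by
    rintro ⟨χ, hχ⟩ u u'
    obtain ⟨t, ht⟩ : ∃ t, Q χ t ≠ 0 := by
      by_contra h
      push Not at h
      exact hχ (LinearMap.ext h)
    have h1 : (χ (u + u') + (χ u + χ u')) • Q χ t = 0 := by
      rw [add_smul, add_smul, ← Qmul, ← Qmul, ← Qmul, Eadd, LinearMap.add_apply]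
      exact ZModModule.add_self _
    rcases zm (χ (u + u') + (χ u + χ u')) with h | h
    · exact eq_of_add_eq_zero' h
    · rw [h, one_smul] at h1
      exact absurd h1 ht
  have chx : ∀ χ : I, χ.1 xU = 1 := by
    rintro ⟨χ, hχ⟩
    obtain ⟨t, ht⟩ : ∃ t, Q χ t ≠ 0 := by
      by_contra h
      push Not at h
      exact hχ (LinearMap.ext h)
    have h1 : ∀ t, E xU t = t := by
      intro t
      obtain ⟨v, rfl⟩ := mksurj t
      apply τinj
      rw [hE, hτ]
    have h2 := Qmul χ xU t
    rw [h1] at h2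
    rcases zm (χ xU) with h | h
    · rw [h, zero_smul] at h2
      exact absurd h2 ht
    · exact h
  -- section
  obtain ⟨s, hs⟩ := LinearMap.exists_rightInverse_of_surjective mk
    (LinearMap.range_eq_top.2 mksurj)
  have hs' : ∀ t, mk (s t) = t := fun t => congrArg (fun F => F t) hs
  let pU : V →ₗ[ZMod 2] U := (LinearMap.id + s.comp mk).codRestrict U (by
    intro v
    have h0 : q x ((LinearMap.id + s.comp mk : V →ₗ[ZMod 2] V) v) = 0 := by
      rw [← mk0, LinearMap.add_apply, map_add, LinearMap.comp_apply, hs', LinearMap.id_apply]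
      exact ZModModule.add_self _
    exact h0)
  have pUs : ∀ t, pU (s t) = 0 := by
    intro t
    apply Subtype.ext
    show s t + s (mk (s t)) = 0
    rw [hs', ZModModule.add_self]
  have pUu : ∀ u (hu : q x u = 0), pU u = ⟨u, hu⟩ := by
    intro u hu
    apply Subtype.ext
    show u + s (mk u) = u
    rw [(mk0 u).2 hu, map_zero, add_zero]
  let ch : I → (U →ₗ[ZMod 2] ZMod 2) := fun χ =>
    { toFun := χ.1
      map_add' := chadd χ
      map_smul' := by
        intro c u
        rcases zm c with h | h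
        · rw [h, zero_smul, RingHom.id_apply, zero_smul]
          have := chadd χ 0 0
          rw [add_zero, zz] at this
          exact this
        · rw [h, one_smul, RingHom.id_apply, one_smul] }
  refine ⟨Fintype.card I, ⟨{
    P := fun i => s.comp ((Q (eq i).1).comp mk)
    χ := fun i => (ch (eq i)).comp pU
    PP := ?_
    orth := ?_
    sumU := ?_
    PU := ?_
    χP := ?_
    eig := ?_
    sep := ?_
    ne := ?_ }⟩⟩
  · intro i v
    simp only [LinearMap.comp_apply]
    rw [hs', Qsq]
  · intro i j h v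
    simp only [LinearMap.comp_apply]
    rw [hs', Qne _ _ (fun h' => h (eq.injective (Subtype.ext h'))), map_zero]
  · intro v
    rw [← mk0, map_add, map_sum]
    simp only [LinearMap.comp_apply, hs']
    have h1 : ∑ i, Q (eq i).1 (mk v) = mk v := by
      rw [Equiv.sum_comp eq (fun χ : I => Q χ.1 (mk v))]
      have h2 : ∑ χ : I, Q χ.1 (mk v) = ∑ χ ∈ Finset.univ.filter (fun χ => Q χ ≠ 0),
          Q χ (mk v) := by
        symm
        exact Finset.sum_subtype _ (by intro χ; simp) (fun χ => Q χ (mk v))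
      rw [h2, Finset.sum_filter_of_ne]
      · exact Qsum _
      · intro χ _ h h'
        rw [h'] at h
        exact h rfl
    rw [h1]
    exact ZModModule.add_self _
  · intro i u hu
    simp only [LinearMap.comp_apply]
    rw [(mk0 u).2 hu, map_zero, map_zero]
  · intro i j v
    simp only [LinearMap.comp_apply]
    rw [pUs, map_zero]
  · intro i u v hu
    simp only [LinearMap.comp_apply]
    rw [pUu u hu, ← hτ (s _), hs', ← hE ⟨u, hu⟩, hs', Qmul, map_smul]
    rfl
  · intro i j hij
    have h1 : (eq i).1 ≠ (eq j).1 := fun h' => hij (eq.injective (Subtype.ext h'))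
    obtain ⟨u, hu⟩ := Function.ne_iff.1 h1
    have key : ∃ u : U, (eq i).1 u = 1 ∧ (eq j).1 u = 0 := by
      rcases zm ((eq i).1 u) with a | a <;> rcases zm ((eq j).1 u) with b | b
      · exact absurd (a.trans b.symm) hu
      · refine ⟨u + xU, ?_, ?_⟩
        · rw [chadd, a, chx]; decide
        · rw [chadd, b, chx]; decide
      · exact ⟨u, a, b⟩
      · exact absurd (a.trans b.symm) hu
    obtain ⟨u, hu1, hu2⟩ := key
    refine ⟨u, u.2, ?_, ?_⟩
    · rw [LinearMap.comp_apply, pUu u u.2]
      exact hu1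
    · rw [LinearMap.comp_apply, pUu u u.2]
      exact hu2
  · intro i
    have hne := (eq i).2
    obtain ⟨t, ht⟩ : ∃ t, Q (eq i).1 t ≠ 0 := by
      by_contra h
      push Not at h
      exact hne (LinearMap.ext h)
    obtain ⟨v, rfl⟩ := mksurj t
    refine ⟨v, ?_⟩
    intro h
    apply ht
    have h1 : s (Q (eq i).1 (mk v)) = 0 := h
    rw [← hs' (Q (eq i).1 (mk v)), h1, map_zero]

end Pool.Agent.GTW
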