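import Pool.Agent.GTW.Stmts

/-!
GTW CLO: the set of the vectors `(χ_i(u))_i` is closed under products.
-/

set_option autoImplicit false

namespace Pool.Agent.GTW

open Module CommonSlot Pool.Agent.ETG
open scoped BigOperators

namespace CLO_

variable {V B : Type} [AddCommGroup V] [Module (ZMod 2) V] [AddCommGroup B] [Module (ZMod 2) B]
  {q : V →ₗ[ZMod 2] V →ₗ[ZMod 2] B} {x : V} {k : ℕ}

/-- `q u v = Σ χ_i(u) τ(P_i v)` for `u ∈ V_x` -/
theorem q_u (hiso : Iso q x) (C : CD q x k) {u : V} (hu : q x u = 0) (v : V) :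
    q u v = ∑ i, C.χ i u • q x (C.P i v) := by
  have h1 : q u (v + ∑ i, C.P i v) = 0 := hiso _ _ hu (C.sumU v)
  rw [map_add, map_sum] at h1
  have h2 := eq_of_add_eq_zero' h1
  rw [h2]
  exact Finset.sum_congr rfl fun i _ => C.eig i u v hu

theorem P_sum (C : CD q x k) (c : Fin k → ZMod 2) (v : V) (j : Fin k) :
    C.P j (∑ l, c l • C.P l v) = c j • C.P j v := by
  rw [map_sum, Finset.sum_eq_single j]
  · rw [map_smul, C.PP]
  · intro i _ hij
    rw [map_smul, C.orth j i (Ne.symm hij), smul_zero]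
  · intro hj
    exact absurd (Finset.mem_univ j) hj

/-- a vector with all components different from zero -/
theorem exists_full (C : CD q x k) : ∃ v, ∀ i, C.P i v ≠ 0 := by
  choose v hv using C.ne
  refine ⟨∑ i, C.P i (v i), fun j h => hv j ?_⟩
  rw [map_sum, Finset.sum_eq_single j] at h
  · rw [C.PP] at h
    exact h
  · intro i _ hij
    rw [C.orth j i (Ne.symm hij)]
  · intro hj
    exact absurd (Finset.mem_univ j) hj

theorem indep (C : CD q x k) {v : V} (hv : ∀ i, C.P i v ≠ 0) (a b : Fin k → ZMod 2)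
    (h : ∑ i, a i • q x (C.P i v) = ∑ i, b i • q x (C.P i v)) (j : Fin k) : a j = b j := by
  have h1 : q x (∑ i, (a i + b i) • C.P i v) = 0 := by
    rw [map_sum]
    have : ∑ i, q x ((a i + b i) • C.P i v) =
        ∑ i, a i • q x (C.P i v) + ∑ i, b i • q x (C.P i v) := by
      rw [← Finset.sum_add_distrib]
      exact Finset.sum_congr rfl fun i _ => by rw [map_smul, add_smul]
    rw [this, h, ZModModule.add_self]
  have h2 := C.PU j _ h1
  rw [P_sum C (fun i => a i + b i)] at h2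
  rcases smul_eq_zero.1 h2 with h3 | h3
  · exact eq_of_add_eq_zero' h3
  · exact absurd h3 (hv j)

/-- the basic construction -/
theorem basic (hq : IsLinked q 0) (hiso : Iso q x) (C : CD q x k) {v u : V} (hu : q x u = 0) :
    ∃ u₁, q x u₁ = 0 ∧ ∑ i, C.χ i u₁ • q x (C.P i v) =
      q v (∑ i, C.χ i u • C.P i v) + q x (∑ i, C.χ i u • C.P i v) := by
  set z₀ := ∑ i, C.χ i u • C.P i v with hz₀
  have hc : q v u = q x z₀ := by
    rw [hq.symm, q_u hiso C hu, hz₀, map_sum]
    exact Finset.sum_congr rfl fun i _ => by rw [map_smul]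
  obtain ⟨s, hs1, hs2⟩ := hq.link _ _ _ _ hc
  have hU : q x (s + z₀) = 0 := by rw [map_add, hs2, hc, ZModModule.add_self]
  refine ⟨s + z₀, hU, ?_⟩
  rw [← q_u hiso C hU v, hq.symm, map_add, hs1, hc, add_comm]

end CLO_

open CLO_ in
theorem clo_proof (_hSCA : Stmt_SCA) : Stmt_CLO := by
  intro V B _ _ _ _ _ q x k hq hrg hiso C u w hu hw
  obtain ⟨v, hv⟩ := exists_full C
  obtain ⟨u₁, hu₁, h1⟩ := basic hq hiso C (v := v) hu
  obtain ⟨u₂, hu₂, h2⟩ := basic hq hiso C (v := v + w) hu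
  have hP : ∀ i, C.P i (v + w) = C.P i v := fun i => by
    rw [map_add, C.PU i w hw, add_zero]
  simp only [hP] at h2
  refine ⟨u₁ + u₂, by rw [map_add, hu₁, hu₂, add_zero], ?_⟩
  apply indep C hv (fun i => C.χ i (u₁ + u₂)) (fun i => C.χ i u * C.χ i w)
  have h3 : ∑ i, C.χ i (u₁ + u₂) • q x (C.P i v) =
      ∑ i, C.χ i u₁ • q x (C.P i v) + ∑ i, C.χ i u₂ • q x (C.P i v) := by
    rw [← Finset.sum_add_distrib]
    exact Finset.sum_congr rfl fun i _ => by rw [map_add, add_smul]
  rw [h3, h1, h2, map_add q, LinearMap.add_apply, q_u hiso C hw]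
  have h4 : ∑ i, C.χ i w • q x (C.P i (∑ l, C.χ l u • C.P l v)) =
      ∑ i, (C.χ i u * C.χ i w) • q x (C.P i v) :=
    Finset.sum_congr rfl fun i _ => by
      rw [P_sum C (fun l => C.χ l u), map_smul, smul_smul, mul_comm]
  rw [h4]
  generalize q v (∑ i, C.χ i u • C.P i v) = A
  generalize q x (∑ i, C.χ i u • C.P i v) = D
  generalize ∑ i, (C.χ i u * C.χ i w) • q x (C.P i v) = E
  have hA := ZModModule.add_self A
  have hD := ZModModule.add_self D
  calc A + D + (A + E + D) = (A + A) + (D + D) + E := by abel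
    _ = E := by rw [hA, hD, zero_add, zero_add]

end Pool.Agent.GTW
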