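import Pool.Agent.GTW.Stmts

/-!
# GTW, CMB: decomposition of `V` from one of the complement of a local component
-/

set_option autoImplicit false

namespace Pool.Agent.GTW

open Module CommonSlot Pool.Agent.ETG
open scoped BigOperators

namespace CMB_

theorem aa {V : Type} [AddCommGroup V] [Module (ZMod 2) V] (v : V) : v + v = 0 := by
  have h : ((1 : ZMod 2) + 1) • v = v + v := by rw [add_smul, one_smul]
  rw [← h, show (1 : ZMod 2) + 1 = 0 from by decide, zero_smul]

section
variable {V B W B' : Type} [AddCommGroup V] [Module (ZMod 2) V] [AddCommGroup B]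
  [Module (ZMod 2) B] [AddCommGroup W] [Module (ZMod 2) W] [AddCommGroup B'] [Module (ZMod 2) B']
  {q : V →ₗ[ZMod 2] V →ₗ[ZMod 2] B} {c : B} {π : V →ₗ[ZMod 2] V}
  {q' : W →ₗ[ZMod 2] W →ₗ[ZMod 2] B'} {ι : W →ₗ[ZMod 2] V}

theorem exists_rho (hι : Function.Injective ι) (hs : ∀ v, ∃ w, ι w = v + π v) :
    ∃ ρ : V →ₗ[ZMod 2] W, ∀ v, ι (ρ v) = v + π v := by
  choose f hf using hs
  refine ⟨{ toFun := f, map_add' := fun a b => ?_, map_smul' := fun r a => ?_ }, hf⟩
  · apply hι
    rw [map_add, hf, hf, hf, map_add]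
    abel
  · apply hι
    rw [map_smul, hf, hf, map_smul, RingHom.id_apply, smul_add]

theorem main (hl : IsLinked q 0) (hnd : Nd q) (hHP : HP q c) (h1 : ∀ v, π (π v) = π v)
    (h2 : ∀ v w, q (π v) w = 0 ∨ q (π v) w = c) (h3 : ∀ v w, q (π v) (w + π w) = 0)
    (h4 : ∀ v w, q (v + π v) (w + π w) ≠ c)
    (h5 : ∀ y, (∀ v, q y v = 0 ∨ q y v = c) → π y = y) (hι : Function.Injective ι)
    (h6 : ∀ w, π (ι w) = 0) (h7 : ∀ v, ∃ w, ι w = v + π v)
    (h8 : ∀ v w, q' v w = 0 ↔ q (ι v) (ι w) = 0) (h9 : HasOS q') : HasOS q := by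
  obtain ⟨ρ, hρ⟩ := exists_rho hι h7
  obtain ⟨k, C, hC⟩ := h9
  have hρι : ∀ w, ρ (ι w) = w := by
    intro w
    apply hι
    rw [hρ, h6, add_zero]
  have hρπ : ∀ v, ρ (π v) = 0 := by
    intro v
    apply hι
    rw [hρ, h1, aa, map_zero]
  have cross : ∀ u w, q (ι u) (π w) = 0 := by
    intro u w
    have := h3 w (ι u)
    rw [h6, add_zero] at this
    rw [hl.symm]
    exact this
  have dec : ∀ w, w = π w + ι (ρ w) := by
    intro w
    rw [hρ, add_comm, add_assoc, aa, add_zero]
  have qι : ∀ u w, q (ι u) w = q (ι u) (ι (ρ w)) := by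
    intro u w
    conv_lhs => rw [dec w]
    rw [map_add, cross, zero_add]
  have split : ∀ v w, q v w = 0 → q (π v) (π w) = 0 ∧ q (ι (ρ v)) (ι (ρ w)) = 0 := by
    intro v w hvw
    have e1 : q v w = q (π v) (π w) + q (ι (ρ v)) (ι (ρ w)) := by
      conv_lhs => rw [dec v, dec w]
      have e0 : q (π v) (ι (ρ w)) = 0 := by
        rw [hl.symm]
        exact cross _ _
      simp only [map_add, LinearMap.add_apply, cross, e0, add_zero, zero_add]
    rw [hvw] at e1
    rcases h2 v (π w) with h | h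
    · rw [h, zero_add] at e1
      exact ⟨h, e1.symm⟩
    · exfalso
      apply h4 v w
      rw [← hρ v, ← hρ w]
      have e2 := eq_of_add_eq_zero' e1.symm
      rw [← e2, h]
  refine ⟨k + 1, ⟨Fin.cons π (fun j => ι ∘ₗ C.p j ∘ₗ ρ), ?_, ?_, ?_, ?_, ?_, ?_, ?_⟩, ?_⟩
  · intro j
    refine Fin.cases ?_ (fun j => ?_) j
    · intro v
      exact h1 v
    · intro v
      show ι (C.p j (ρ (ι (C.p j (ρ v))))) = ι (C.p j (ρ v))
      rw [hρι, C.idem]
  · intro i
    refine Fin.cases ?_ (fun i => ?_) i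
    · intro j
      refine Fin.cases ?_ (fun j => ?_) j
      · intro h
        exact absurd rfl h
      · intro _ v
        exact h6 _
    · intro j
      refine Fin.cases ?_ (fun j => ?_) j
      · intro _ v
        show ι (C.p i (ρ (π v))) = 0
        rw [hρπ, map_zero, map_zero]
      · intro hij v
        show ι (C.p i (ρ (ι (C.p j (ρ v))))) = 0
        rw [hρι, C.orth i j (fun h => hij (by rw [h])), map_zero]
  · intro j
    refine Fin.cases ?_ (fun j => ?_) j
    · intro v w
      exact h3 v w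
    · intro v w
      show q (ι (C.p j (ρ v))) (w + ι (C.p j (ρ w))) = 0
      rw [qι, map_add, hρι, ← h8]
      exact C.perp j _ _
  · intro v w
    show q (v + ∑ j, (Fin.cons π (fun j => ι ∘ₗ C.p j ∘ₗ ρ) : Fin (k + 1) → V →ₗ[ZMod 2] V) j v) w = 0
    rw [Fin.sum_univ_succ]
    have e1 : v + (π v + ∑ j : Fin k, ι (C.p j (ρ v))) = ι (ρ v + ∑ j, C.p j (ρ v)) := by
      rw [map_add, map_sum, hρ, add_assoc]
    show q (v + (π v + ∑ j : Fin k, ι (C.p j (ρ v)))) w = 0
    rw [e1, qι, ← h8]
    exact C.rad _ _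
  · intro v w hvw j
    obtain ⟨e1, e2⟩ := split v w hvw
    refine Fin.cases ?_ (fun j => ?_) j
    · exact e1
    · show q (ι (C.p j (ρ v))) (ι (C.p j (ρ w))) = 0
      rw [← h8] at e2 ⊢
      exact C.ind _ _ e2 j
  · intro j
    refine Fin.cases ?_ (fun j => ?_) j
    · intro v hv
      apply hnd
      intro w
      have e1 := h3 v w
      rw [map_add] at e1
      show q (π v) w = 0
      rw [eq_of_add_eq_zero' e1]
      exact hv w
    · intro v hv
      show ι (C.p j (ρ v)) = 0
      have e1 : C.p j (ρ v) = 0 := by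
        apply C.nd j
        intro w'
        have e2 := hv (ι w')
        change q (ι (C.p j (ρ v))) (ι (C.p j (ρ (ι w')))) = 0 at e2
        rw [hρι, ← h8] at e2
        exact e2
      rw [e1, map_zero]
  · intro j
    refine Fin.cases ?_ (fun j => ?_) j
    · obtain ⟨hc, p, p', hp, -, hpp⟩ := hHP
      refine ⟨p, ?_⟩
      show π p ≠ 0
      rw [h5 p hp]
      intro h
      apply hc
      rw [← hpp, h, map_zero, LinearMap.zero_apply]
    · obtain ⟨w', hw'⟩ := C.ne j
      refine ⟨ι w', ?_⟩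
      show ι (C.p j (ρ (ι w'))) ≠ 0
      rw [hρι]
      intro h
      apply hw'
      apply hι
      rw [h, map_zero]
  · intro j
    refine Fin.cases ?_ (fun j => ?_) j
    · left
      intro v w w'
      show q (π v) w = 0 ∨ q (π v) w' = 0 ∨ q (π v) (w + w') = 0
      rcases h2 v w with h | h
      · exact Or.inl h
      · rcases h2 v w' with h' | h'
        · exact Or.inr (Or.inl h')
        · right; right
          rw [map_add, h, h', aa]
    · rcases hC j with h | ⟨t, ht1, ht2, ht3⟩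
      · left
        intro v w w'
        show q (ι (C.p j (ρ v))) w = 0 ∨ q (ι (C.p j (ρ v))) w' = 0 ∨
          q (ι (C.p j (ρ v))) (w + w') = 0
        rw [qι _ w, qι _ w', qι _ (w + w'), ← h8, ← h8, ← h8, map_add ρ]
        exact h _ _ _
      · right
        refine ⟨ι t, ?_, ?_, ?_⟩
        · show ι (C.p j (ρ (ι t))) = ι t
          rw [hρι, ht1]
        · intro h
          apply ht2
          apply hι
          rw [h, map_zero]
        · intro v hv
          change q (ι t) (ι (C.p j (ρ v))) = 0 at hv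
          show ι (C.p j (ρ v)) = 0 ∨ ι (C.p j (ρ v)) = ι t
          rw [← h8] at hv
          rcases ht3 _ hv with h | h
          · left; rw [h, map_zero]
          · right; rw [h]

end

end CMB_

open CMB_ in
theorem cmb_proof : Stmt_CMB := by
  intro V B _ _ _ _ q c π hl hnd hHP h1 h2 h3 h4 h5 W B' _ _ _ _ q' ι hι h6 h7 h8 h9
  exact main hl hnd hHP h1 h2 h3 h4 h5 hι h6 h7 h8 h9

end Pool.Agent.GTW
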