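import Pool.Agent.GTW.Stmts

/-!
GTW CMP: values inside one component.
-/

set_option autoImplicit false

namespace Pool.Agent.GTW

open Module CommonSlot Pool.Agent.ETG
open scoped BigOperators

namespace CMP_

variable {V B : Type} [AddCommGroup V] [Module (ZMod 2) V] [AddCommGroup B] [Module (ZMod 2) B]
  {q : V →ₗ[ZMod 2] V →ₗ[ZMod 2] B} {x : V} {k : ℕ}

/-- `q u v = Σ χ_i(u) τ(P_i v)` for `u ∈ V_x` -/
theorem q_u (hiso : Iso q x) (C : CD q x k) {u : V} (hu : q x u = 0) (v : V) :
    q u v = ∑ i, C.χ i u • q x (C.P i v) := by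
  have h1 : q u (v + ∑ i, C.P i v) = 0 := hiso _ _ hu (C.sumU v)
  rw [map_add, map_sum] at h1
  have h2 := eq_of_add_eq_zero' h1
  rw [h2]
  exact Finset.sum_congr rfl fun i _ => C.eig i u v hu

/-- `τ v = Σ τ(P_i v)` -/
theorem tau_sum (C : CD q x k) (v : V) : q x v = ∑ i, q x (C.P i v) := by
  have h1 := C.sumU v
  rw [map_add, map_sum] at h1
  exact eq_of_add_eq_zero' h1

/-- if `τ v = Σ c_i τ(P_i z)` then `τ(P_j v) = c_j τ(P_j z)` -/
theorem tau_indep (C : CD q x k) (c : Fin k → ZMod 2) (v z : V)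
    (h : q x v = ∑ i, c i • q x (C.P i z)) (j : Fin k) :
    q x (C.P j v) = c j • q x (C.P j z) := by
  have h1 : q x (v + ∑ i, c i • C.P i z) = 0 := by
    rw [map_add, map_sum, h]
    have : ∑ i, q x (c i • C.P i z) = ∑ i, c i • q x (C.P i z) :=
      Finset.sum_congr rfl fun i _ => by rw [map_smul]
    rw [this, ZModModule.add_self]
  have h2 := C.PU j _ h1
  rw [map_add, map_sum] at h2
  have h3 : ∑ i, C.P j (c i • C.P i z) = c j • C.P j z := by
    rw [Finset.sum_eq_single j]
    · rw [map_smul, C.PP]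
    · intro i _ hij
      rw [map_smul, C.orth j i (Ne.symm hij), smul_zero]
    · intro hj
      exact absurd (Finset.mem_univ j) hj
  rw [h3] at h2
  rw [eq_of_add_eq_zero' h2, map_smul]

theorem q_tau (hq : IsLinked q 0) : q x x = 0 := by
  rw [hq.diag, map_zero]

theorem P_x (hq : IsLinked q 0) (C : CD q x k) (i : Fin k) : C.P i x = 0 :=
  C.PU i x (q_tau hq)

/-- `χ_i x = 1` when the component is nonzero: in the form `χ_i(x) τ(P_i v) = τ(P_i v)` -/
theorem chi_x (hq : IsLinked q 0) (C : CD q x k) (i : Fin k) (v : V) :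
    C.χ i x • q x (C.P i v) = q x (C.P i v) := (C.eig i x v (q_tau hq)).symm

end CMP_

open CMP_ in
theorem cmp_proof : Stmt_CMP := by
  intro V B _ _ _ _ _ q x k hq hrg hiso C i y y' z hz
  -- `u` with `q (P y) u = c = q x u`
  obtain ⟨u, hu1, hu2⟩ := hq.link (C.P i y) (C.P i y') x z hz.symm
  -- `τ (P_j u) = 0` for `j ≠ i`
  have key : ∀ j, j ≠ i → q x (C.P j u) = 0 := by
    intro j hji
    obtain ⟨w, hw, hwi, hwj⟩ := C.sep i j (Ne.symm hji)
    have h1 : q (C.P i y + x + w) (C.P i y') = q x z := by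
      rw [map_add, map_add, LinearMap.add_apply, LinearMap.add_apply, C.eig i w y' hw, hwi,
        one_smul, add_assoc, ZModModule.add_self, add_zero, hz]
    obtain ⟨u', hu1', hu2'⟩ := hq.link _ _ _ _ h1
    rw [h1] at hu1' hu2'
    -- `u0 := u + u' ∈ U`
    have hu0 : q x (u + u') = 0 := by
      rw [map_add, hu2', hu2, hz, ZModModule.add_self]
    -- `q (x + w) u = q (P y) (u + u')`
    have e1 : q (x + w) u = q (C.P i y) (u + u') := by
      have e2 : q (x + w) (u + u') = 0 := by
        rw [map_add q, LinearMap.add_apply, hu0, hiso w _ hw hu0, add_zero]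
      have e3 : q (C.P i y + (x + w)) u' = q x z := by rw [← add_assoc]; exact hu1'
      rw [map_add q, LinearMap.add_apply] at e3
      rw [(q (x + w)).map_add] at e2
      have e4 : q (x + w) u = q (x + w) u' := eq_of_add_eq_zero' e2
      rw [(q (C.P i y)).map_add, hu1, ← hz, ← e3, e4]
      rw [add_comm (q (C.P i y) u'), add_assoc, ZModModule.add_self, add_zero]
    have e5 : q (C.P i y) (u + u') = C.χ i (u + u') • q x (C.P i y) := by
      rw [hq.symm, C.eig i _ y hu0]
    have e6 : q (x + w) u = ∑ l, (C.χ l x + C.χ l w) • q x (C.P l u) := by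
      have hxw : q x (x + w) = 0 := by rw [map_add, q_tau hq, hw, add_zero]
      rw [q_u hiso C hxw]
      exact Finset.sum_congr rfl fun l _ => by rw [map_add]
    -- apply `P_j`: compare components
    have e7 : q x (∑ l, (C.χ l x + C.χ l w) • C.P l u + C.χ i (u + u') • C.P i y) = 0 := by
      rw [map_add, map_sum, map_smul, ← e5, ← e1, e6]
      have : ∑ l, q x ((C.χ l x + C.χ l w) • C.P l u) =
          ∑ l, (C.χ l x + C.χ l w) • q x (C.P l u) :=
        Finset.sum_congr rfl fun l _ => by rw [map_smul]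
      rw [this, ZModModule.add_self]
    have e8 := C.PU j _ e7
    rw [map_add, map_sum, map_smul, C.orth j i hji, smul_zero, add_zero,
      Finset.sum_eq_single j] at e8
    · rw [map_smul, C.PP, hwj, add_zero] at e8
      have e9 := congrArg (q x) e8
      rw [map_smul, map_zero, chi_x hq] at e9
      exact e9
    · intro l _ hlj
      rw [map_smul, C.orth j l (Ne.symm hlj), smul_zero]
    · intro hj
      exact absurd (Finset.mem_univ j) hj
  refine ⟨u, ?_⟩
  rw [← hu2, tau_sum C u, Finset.sum_eq_single i]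
  · intro l _ hli
    exact key l hli
  · intro hi
    exact absurd (Finset.mem_univ i) hi

end Pool.Agent.GTW
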