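import Pool.Agent.GTW.Stmts

set_option autoImplicit false

namespace Pool.Agent.GTW

open Module CommonSlot Pool.Agent.ETG
open scoped BigOperators

namespace CNT_

theorem finrank_range_le {M N : Type} [AddCommGroup M] [Module (ZMod 2) M] [Finite M]
    [AddCommGroup N] [Module (ZMod 2) N] (f : M →ₗ[ZMod 2] N) (S : Submodule (ZMod 2) M) :
    finrank (ZMod 2) (LinearMap.range f) + finrank (ZMod 2) S ≤
      finrank (ZMod 2) M + finrank (ZMod 2) (S.map f) := by
  have h1 := LinearMap.finrank_range_add_finrank_ker f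
  have h2 := LinearMap.finrank_range_add_finrank_ker (f.domRestrict S)
  rw [LinearMap.range_domRestrict] at h2
  have h3 : finrank (ZMod 2) (LinearMap.ker (f.domRestrict S)) ≤
      finrank (ZMod 2) (LinearMap.ker f) := by
    let g : LinearMap.ker (f.domRestrict S) →ₗ[ZMod 2] LinearMap.ker f :=
      ((S.subtype).comp (LinearMap.ker (f.domRestrict S)).subtype).codRestrict _ (by
        rintro ⟨⟨v, hv⟩, h⟩
        exact h)
    refine LinearMap.finrank_le_finrank_of_injective (f := g) ?_
    rintro ⟨⟨a, ha⟩, ha'⟩ ⟨⟨b, hb⟩, hb'⟩ hab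
    have : a = b := congrArg (fun t => (t : LinearMap.ker f).1) hab
    subst this
    rfl
  omega

end CNT_

open CNT_ in
theorem cnt_proof : Stmt_CNT := by
  intro V B _ _ _ _ _ q x D e P hsymm hRg hrk he hPx hPe hfrk
  classical
  set Q := LinearMap.range (q x) with hQ
  set E := Submodule.span (ZMod 2) {e} with hE
  -- preimages of a basis of `Q`
  have hbas : ∀ i, ∃ v : V, q x v = (Module.finBasis (ZMod 2) Q i : B) := by
    intro i
    exact (Module.finBasis (ZMod 2) Q i).2
  choose b hb using hbas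
  have hdec : ∀ v : V, ∃ c : Fin (finrank (ZMod 2) Q) → ZMod 2, q x (v + ∑ i, c i • b i) = 0 := by
    intro v
    let w : Q := ⟨q x v, ⟨v, rfl⟩⟩
    refine ⟨fun i => (Module.finBasis (ZMod 2) Q).repr w i, ?_⟩
    rw [map_add, map_sum]
    have h1 := (Module.finBasis (ZMod 2) Q).sum_repr w
    have h2 := congrArg Subtype.val h1
    rw [AddSubmonoidClass.coe_finsetSum] at h2
    have h3 : ∑ i, q x ((Module.finBasis (ZMod 2) Q).repr w i • b i) = q x v := by
      rw [← show (w : B) = q x v from rfl, ← h2]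
      apply Finset.sum_congr rfl
      intro i _
      rw [map_smul, hb]
      rfl
    rw [h3, ZModModule.add_self]
  have memE : ∀ c : B, E.mkQ c = 0 → c = 0 ∨ c = e := by
    intro c hc
    rw [Submodule.mkQ_apply, Submodule.Quotient.mk_eq_zero, hE, Submodule.mem_span_singleton] at hc
    obtain ⟨a, rfl⟩ := hc
    rcases zm a with h | h
    · left; rw [h, zero_smul]
    · right; rw [h, one_smul]
  have memE' : ∀ c : B, (c = 0 ∨ c = e) → E.mkQ c = 0 := by
    intro c hc
    rw [Submodule.mkQ_apply, Submodule.Quotient.mk_eq_zero, hE, Submodule.mem_span_singleton]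
    rcases hc with h | h
    · exact ⟨0, by rw [h, zero_smul]⟩
    · exact ⟨1, by rw [h, one_smul]⟩
  -- the map
  let Φ : P →ₗ[ZMod 2] (Fin (finrank (ZMod 2) Q) → Q.map E.mkQ) :=
    LinearMap.pi fun i => ((E.mkQ.comp (q.flip (b i))).comp P.subtype).codRestrict _ (by
      rintro ⟨y, hy⟩
      obtain ⟨z, hz⟩ := hRg y (b i) (hPx y hy)
      exact ⟨q y (b i), ⟨z, hz⟩, rfl⟩)
  have hΦ : ∀ y : P, Φ y = 0 → ∀ v, q y v = 0 ∨ q y v = e := by
    intro y hy v
    obtain ⟨c, hc⟩ := hdec v
    have h1 : ∀ i, E.mkQ (q y (b i)) = 0 := by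
      intro i
      exact congrArg Subtype.val (congrFun hy i)
    have h2 := memE' _ (hPe y y.2 _ hc)
    rw [map_add, map_sum, map_add, map_sum] at h2
    have h3 : ∑ i, E.mkQ (q y (c i • b i)) = 0 := by
      apply Finset.sum_eq_zero
      intro i _
      rw [map_smul, map_smul, h1, smul_zero]
    rw [h3, add_zero] at h2
    exact memE _ h2
  set S := LinearMap.ker Φ with hS
  have hrange : finrank (ZMod 2) (LinearMap.range Φ) ≤ D ^ 2 := by
    have h1 : finrank (ZMod 2) (LinearMap.range Φ) ≤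
        finrank (ZMod 2) (Fin (finrank (ZMod 2) Q) → Q.map E.mkQ) := Submodule.finrank_le _
    have h2 : finrank (ZMod 2) (Fin (finrank (ZMod 2) Q) → Q.map E.mkQ) =
        finrank (ZMod 2) Q * finrank (ZMod 2) (Q.map E.mkQ) := by
      rw [Module.finrank_pi_fintype, Finset.sum_const, Finset.card_univ, Fintype.card_fin,
        smul_eq_mul]
    have h3 : finrank (ZMod 2) (Q.map E.mkQ) ≤ finrank (ZMod 2) Q := Submodule.finrank_map_le _ _
    have h4 : finrank (ZMod 2) Q ≤ D := hrk
    calc _ ≤ _ := h1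
      _ = _ := h2
      _ ≤ D * D := Nat.mul_le_mul h4 (h3.trans h4)
      _ = D ^ 2 := by ring
  have hcodim := LinearMap.finrank_range_add_finrank_ker Φ
  rw [← hS] at hcodim
  -- if `q` vanishes on `S × S`
  by_contra hHP
  have hvan : ∀ y ∈ S, ∀ y' ∈ S, q (y : V) (y' : V) = 0 := by
    intro y hy y' hy'
    rcases hΦ y hy y' with h | h
    · exact h
    · exact absurd ⟨he, y, y', hΦ y hy, hΦ y' hy', h⟩ hHP
  -- a functional with `κ e = 1`
  obtain ⟨κ, hκ⟩ : ∃ κ : B →ₗ[ZMod 2] ZMod 2, κ e ≠ 0 := by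
    by_contra hc
    push Not at hc
    exact he ((Module.forall_dual_apply_eq_zero_iff (ZMod 2) e).1 hc)
  let h : P →ₗ[ZMod 2] (P →ₗ[ZMod 2] B) := q.domRestrict₁₂ P P
  have hh : ∀ y y' : P, h y y' = q y y' := fun _ _ => rfl
  have hle := finrank_range_le h S
  have hS2 : finrank (ZMod 2) (S.map h) ≤ finrank (ZMod 2) S.dualAnnihilator := by
    let g : S.map h →ₗ[ZMod 2] S.dualAnnihilator :=
      ((LinearMap.compRight (ZMod 2) κ).comp (S.map h).subtype).codRestrict _ (by
        rintro ⟨f, y, hy, rfl⟩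
        rw [Submodule.mem_dualAnnihilator]
        intro y' hy'
        change κ (q y y') = 0
        rw [hvan y hy y' hy', map_zero])
    refine LinearMap.finrank_le_finrank_of_injective (f := g) ?_
    rw [← LinearMap.ker_eq_bot, LinearMap.ker_eq_bot']
    rintro ⟨f, y, hy, rfl⟩ h0
    apply Subtype.ext
    change h y = 0
    ext y'
    have h1 : κ (q y y') = 0 := by
      have h2 : (g ⟨h y, y, hy, rfl⟩).1 = 0 := congrArg Subtype.val h0
      exact LinearMap.congr_fun h2 y'
    rcases hΦ y hy y' with h2 | h2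
    · rw [hh, h2]; rfl
    · rw [h2] at h1
      exact absurd h1 hκ
  have hann := Subspace.finrank_add_finrank_dualAnnihilator_eq S
  have hfr : frk q P = finrank (ZMod 2) (LinearMap.range h) := rfl
  omega

end Pool.Agent.GTW
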