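import Pool.Agent.GTW.Stmts

/-!
GTW, module DBL: the ranks double.
-/

set_option autoImplicit false

namespace Pool.Agent.GTW

open Module CommonSlot Pool.Agent.ETG

namespace DBL_

theorem dbl_lin {U U' : Type} [AddCommGroup U] [Module (ZMod 2) U] [AddCommGroup U']
    [Module (ZMod 2) U'] [Finite U] [Finite U'] (h0 : U →ₗ[ZMod 2] U →ₗ[ZMod 2] ZMod 2)
    (h' : U' →ₗ[ZMod 2] U' →ₗ[ZMod 2] ZMod 2) (I : U →ₗ[ZMod 2] U') (N : U' →ₗ[ZMod 2] U)
    (hN : Function.Surjective N) (hs : ∀ a b, h' a b = h' b a) (hs0 : ∀ a b, h0 a b = h0 b a)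
    (h1 : ∀ a b, h' (I a) (I b) = 0) (h2 : ∀ a w, h' (I a) w = h0 a (N w)) :
    2 * finrank (ZMod 2) (LinearMap.range h0) ≤ finrank (ZMod 2) (LinearMap.range h') := by
  let ρ : (U' →ₗ[ZMod 2] ZMod 2) →ₗ[ZMod 2] (U →ₗ[ZMod 2] ZMod 2) :=
    LinearMap.lcomp (ZMod 2) (ZMod 2) I
  let ν : (U →ₗ[ZMod 2] ZMod 2) →ₗ[ZMod 2] (U' →ₗ[ZMod 2] ZMod 2) :=
    LinearMap.lcomp (ZMod 2) (ZMod 2) N
  have hρ : ∀ φ a, ρ φ a = φ (I a) := fun _ _ => rfl
  have hν : ∀ φ w, ν φ w = φ (N w) := fun _ _ => rfl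
  let f : LinearMap.range h' →ₗ[ZMod 2] (U →ₗ[ZMod 2] ZMod 2) := ρ.domRestrict (LinearMap.range h')
  have hf : ∀ w, f ⟨h' w, w, rfl⟩ = h0 (N w) := by
    intro w
    refine LinearMap.ext fun a => ?_
    show h' w (I a) = h0 (N w) a
    rw [hs, h2, hs0]
  have e1 := LinearMap.finrank_range_add_finrank_ker f
  have e2 : LinearMap.range h0 ≤ LinearMap.range f := by
    rintro _ ⟨a, rfl⟩
    obtain ⟨w, rfl⟩ := hN a
    exact ⟨_, hf w⟩
  have e3 : finrank (ZMod 2) (LinearMap.range h0) ≤ finrank (ZMod 2) (LinearMap.range f) :=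
    Submodule.finrank_mono e2
  have e4 : finrank (ZMod 2) (LinearMap.range h0) ≤ finrank (ZMod 2) (LinearMap.ker f) := by
    have key : ∀ ψ : LinearMap.range h0, ν ψ.1 ∈ LinearMap.range h' := by
      rintro ⟨_, a, rfl⟩
      refine ⟨I a, ?_⟩
      refine LinearMap.ext fun w => ?_
      show h' (I a) w = h0 a (N w)
      exact h2 a w
    let g1 : LinearMap.range h0 →ₗ[ZMod 2] LinearMap.range h' :=
      (ν.comp (LinearMap.range h0).subtype).codRestrict (LinearMap.range h') key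
    have key2 : ∀ ψ : LinearMap.range h0, g1 ψ ∈ LinearMap.ker f := by
      rintro ⟨_, a, rfl⟩
      rw [LinearMap.mem_ker]
      refine LinearMap.ext fun b => ?_
      show h0 a (N (I b)) = 0
      rw [← h2, h1]
    let g : LinearMap.range h0 →ₗ[ZMod 2] LinearMap.ker f := g1.codRestrict (LinearMap.ker f) key2
    have hg : Function.Injective g := by
      intro ψ ψ' h
      apply Subtype.ext
      refine LinearMap.ext fun a => ?_
      obtain ⟨w, rfl⟩ := hN a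
      have h3 : (ν ψ.1) = ν ψ'.1 := congrArg (fun z : LinearMap.ker f =>
        ((z : LinearMap.range h') : U' →ₗ[ZMod 2] ZMod 2)) h
      exact LinearMap.congr_fun h3 w
    exact LinearMap.finrank_le_finrank_of_injective hg
  omega

end DBL_

open DBL_ in
theorem dbl_proof : Stmt_DBL := by
  intro T n hL κ
  have fU : Finite (T.U n) := by
    have := T.fin n
    infer_instance
  have fU' : Finite (T.U (n + 1)) := by
    have := T.fin (n + 1)
    infer_instance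
  have hNU : ∀ w, T.N n w ∈ T.U n := by
    intro w
    show _ ∈ LinearMap.ker _
    rw [LinearMap.mem_ker]
    exact (T.rN n _).2 ⟨w, rfl⟩
  have hmem : ∀ m (u : T.V m), u ∈ T.U m ↔ T.q m (T.x m) u = 0 := by
    intro m u
    exact LinearMap.mem_ker
  let I : T.U n →ₗ[ZMod 2] T.U (n + 1) :=
    ((T.res n).comp (T.U n).subtype).codRestrict (T.U (n + 1)) (by
      intro u
      rw [hmem]
      exact hL.resU _ ((hmem n u.1).1 u.2))
  let N : T.U (n + 1) →ₗ[ZMod 2] T.U n :=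
    ((T.N n).comp (T.U (n + 1)).subtype).codRestrict (T.U n) (fun w => hNU _)
  refine dbl_lin (((T.q n).compr₂ κ).domRestrict₁₂ (T.U n) (T.U n))
    (((T.q (n + 1)).compr₂ (κ.comp (T.cor n))).domRestrict₁₂ (T.U (n + 1)) (T.U (n + 1))) I N
    ?_ ?_ ?_ ?_ ?_
  · rintro ⟨u, hu⟩
    obtain ⟨w, hw, hwu⟩ := hL.lift u ((hmem n u).1 hu)
    exact ⟨⟨w, (hmem _ w).2 hw⟩, Subtype.ext hwu⟩
  · intro a b
    show κ (T.cor n (T.q (n + 1) a.1 b.1)) = κ (T.cor n (T.q (n + 1) b.1 a.1))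
    rw [(T.link (n + 1)).symm]
  · intro a b
    show κ (T.q n a.1 b.1) = κ (T.q n b.1 a.1)
    rw [(T.link n).symm]
  · intro a b
    show κ (T.cor n (T.q (n + 1) (T.res n a.1) (T.res n b.1))) = 0
    rw [hL.q0 _ _ ((hmem n a.1).1 a.2), map_zero, map_zero]
  · intro a w
    show κ (T.cor n (T.q (n + 1) (T.res n a.1) w.1)) = κ (T.q n a.1 (T.N n w.1))
    rw [hL.cq]

end Pool.Agent.GTW
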