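import Pool.Agent.GTW.Stmts

/-!
GTW DCM: consequences of the stability of the ranks.
-/

set_option autoImplicit false

namespace Pool.Agent.GTW

open Module CommonSlot Pool.Agent.ETG

theorem dcm_proof : Stmt_DCM := by
  intro T n h
  have hres : ∀ w v, T.cor n (T.q (n + 1) w (T.res n v)) = T.q n (T.N n w) v := T.proj n
  have htau : ∀ v, T.cor n (T.q (n + 1) (T.x (n + 1)) (T.res n v)) = T.q n (T.x n) v := by
    intro v
    rw [hres, T.Nx]
  have resU : ∀ u, T.q n (T.x n) u = 0 → T.q (n + 1) (T.x (n + 1)) (T.res n u) = 0 := by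
    intro u hu
    apply h.inj
    rw [htau, hu]
  refine ⟨h.inj, h.onto, ?_, ?_, resU, ?_, ?_⟩
  · intro w
    obtain ⟨v, hv⟩ := h.onto w
    refine ⟨v, w + T.res n v, ?_, ?_⟩
    · rw [map_add, hv, ZModModule.add_self]
    · rw [add_comm w, ← add_assoc, ZModModule.add_self, zero_add]
  · intro u hu
    obtain ⟨w0, hw0⟩ := (T.rN n u).1 hu
    obtain ⟨v, hv⟩ := h.onto w0
    refine ⟨w0 + T.res n v, ?_, ?_⟩
    · rw [map_add, hv, ZModModule.add_self]
    · rw [map_add, hw0, T.Nres, add_zero]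
  · intro a b z hz
    rw [hz]
    apply h.inj
    rw [← hz, hres, T.Nres, map_zero, LinearMap.zero_apply]
  · intro w
    obtain ⟨v, hv⟩ := h.onto w
    exact ⟨v, by rw [hv, htau]⟩

end Pool.Agent.GTW
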