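import Pool.Agent.GTW.Stmts

/-!
GTW FUL: existence of a full element by counting.
-/

set_option autoImplicit false

namespace Pool.Agent.GTW

open Module CommonSlot Pool.Agent.ETG
open scoped BigOperators

namespace FUL_

theorem card_pow (V : Type) [AddCommGroup V] [Module (ZMod 2) V] [Finite V] :
    Nat.card V = 2 ^ finrank (ZMod 2) V := by
  rw [Module.natCard_eq_pow_finrank (K := ZMod 2), Nat.card_zmod]

end FUL_

open FUL_ in
theorem ful_proof : Stmt_FUL := by
  intro U B _ _ _ _ _ _ h hr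
  by_contra hno
  have hno' : ∀ y, ¬ Full h y := fun y hy => hno ⟨y, hy⟩
  -- for every `y` a functional
  have h1 : ∀ y, ∃ κ : B →ₗ[ZMod 2] ZMod 2, κ ≠ 0 ∧ (h.compr₂ κ) y = 0 := by
    intro y
    have h2 : LinearMap.range (h y) ≠ ⊤ := fun h3 => hno' y (LinearMap.range_eq_top.1 h3)
    obtain ⟨b, hb⟩ : ∃ b, b ∉ LinearMap.range (h y) := by
      by_contra h4
      apply h2
      rw [eq_top_iff]
      intro b _
      by_contra h5
      exact h4 ⟨b, h5⟩
    obtain ⟨f, hf, hf0⟩ := exists_functional (p := LinearMap.range (h y)) hb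
    refine ⟨f, ?_, ?_⟩
    · rintro rfl
      exact hf (LinearMap.zero_apply b)
    · ext v
      rw [LinearMap.compr₂_apply, LinearMap.zero_apply]
      exact hf0 _ ⟨v, rfl⟩
  choose κ hκ0 hκ using h1
  have : Finite (B →ₗ[ZMod 2] ZMod 2) := Module.finite_of_finite (ZMod 2)
  let S := {μ : B →ₗ[ZMod 2] ZMod 2 // μ ≠ 0}
  have hfS : Fintype S := Fintype.ofFinite S
  let φ : U → (Σ μ : S, LinearMap.ker (h.compr₂ μ.1)) := fun y =>
    ⟨⟨κ y, hκ0 y⟩, ⟨y, LinearMap.mem_ker.2 (hκ y)⟩⟩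
  have hφ : Function.Injective φ := by
    intro y z hyz
    have h3 := congrArg (fun t : (Σ μ : S, LinearMap.ker (h.compr₂ μ.1)) => (t.2 : U)) hyz
    exact h3
  have h5 : Nat.card U ≤ ∑ μ : S, Nat.card (LinearMap.ker (h.compr₂ μ.1)) := by
    rw [← Nat.card_sigma]
    exact Nat.card_le_card_of_injective φ hφ
  have h6 : ∀ μ : S, Nat.card (LinearMap.ker (h.compr₂ μ.1)) * 2 ^ finrank (ZMod 2) B ≤
      Nat.card U := by
    intro μ
    rw [card_pow, card_pow, ← pow_add]
    apply Nat.pow_le_pow_right (by norm_num)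
    have h7 := hr μ.1 μ.2
    have h8 := (h.compr₂ μ.1).finrank_range_add_finrank_ker
    omega
  have h9 : Nat.card U * 2 ^ finrank (ZMod 2) B ≤ Nat.card S * Nat.card U := by
    calc Nat.card U * 2 ^ finrank (ZMod 2) B
        ≤ (∑ μ : S, Nat.card (LinearMap.ker (h.compr₂ μ.1))) * 2 ^ finrank (ZMod 2) B :=
          Nat.mul_le_mul_right _ h5
      _ = ∑ μ : S, Nat.card (LinearMap.ker (h.compr₂ μ.1)) * 2 ^ finrank (ZMod 2) B :=
          Finset.sum_mul _ _ _
      _ ≤ ∑ _μ : S, Nat.card U := Finset.sum_le_sum fun μ _ => h6 μ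
      _ = Nat.card S * Nat.card U := by
          rw [Finset.sum_const, smul_eq_mul, Finset.card_univ, Nat.card_eq_fintype_card (α := S)]
  have h10 : Nat.card S < Nat.card (B →ₗ[ZMod 2] ZMod 2) := by
    have hle : Nat.card S ≤ Nat.card (B →ₗ[ZMod 2] ZMod 2) :=
      Nat.card_le_card_of_injective Subtype.val Subtype.val_injective
    refine lt_of_le_of_ne hle fun he => ?_
    have hbij := (Nat.bijective_iff_injective_and_card (Subtype.val : S → _)).2
      ⟨Subtype.val_injective, he⟩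
    obtain ⟨μ, hμ⟩ := hbij.2 0
    exact μ.2 hμ
  rw [card_pow (B →ₗ[ZMod 2] ZMod 2), Subspace.dual_finrank_eq] at h10
  have hU : 0 < Nat.card U := Nat.card_pos
  have h11 : Nat.card S * Nat.card U < 2 ^ finrank (ZMod 2) B * Nat.card U :=
    Nat.mul_lt_mul_of_pos_right h10 hU
  rw [mul_comm (2 ^ _)] at h11
  exact absurd (lt_of_le_of_lt h9 h11) (lt_irrefl _)

end Pool.Agent.GTW
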