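import Pool.Agent.GTW.Stmts

/-!
# GTW, GEN: a linked structure with large ranks is a product of local components
-/

set_option autoImplicit false

namespace Pool.Agent.GTW

open Module CommonSlot Pool.Agent.ETG
open scoped BigOperators

namespace GEN_

section
variable {U B : Type} [AddCommGroup U] [Module (ZMod 2) U] [AddCommGroup B] [Module (ZMod 2) B]

/-- the quotient of a bilinear map by its radical -/
structure Quo (h : U →ₗ[ZMod 2] U →ₗ[ZMod 2] B) where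
  W : Type
  [wA : AddCommGroup W]
  [wM : Module (ZMod 2) W]
  pr : U →ₗ[ZMod 2] W
  σ : W →ₗ[ZMod 2] U
  g : W →ₗ[ZMod 2] W →ₗ[ZMod 2] B
  mkσ : ∀ w, pr (σ w) = w
  gmk : ∀ u v, g (pr u) (pr v) = h u v
  nd : ∀ w, (∀ w', g w w' = 0) → w = 0

attribute [instance] Quo.wA Quo.wM

theorem quo (h : U →ₗ[ZMod 2] U →ₗ[ZMod 2] B) (hs : ∀ a b, h a b = h b a) :
    Nonempty (Quo h) := by
  obtain ⟨σ, hσ⟩ := (LinearMap.ker h).mkQ.exists_rightInverse_of_surjective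
    (Submodule.range_mkQ _)
  have hσ' : ∀ w, (LinearMap.ker h).mkQ (σ w) = w := fun w => LinearMap.congr_fun hσ w
  have key : ∀ u, h (σ ((LinearMap.ker h).mkQ u)) = h u := by
    intro u
    have h1 : (LinearMap.ker h).mkQ (σ ((LinearMap.ker h).mkQ u) - u) = 0 := by
      rw [map_sub, hσ', sub_self]
    rw [Submodule.mkQ_apply, Submodule.Quotient.mk_eq_zero, LinearMap.mem_ker, map_sub,
      sub_eq_zero] at h1
    exact h1
  refine ⟨{ W := U ⧸ LinearMap.ker h, pr := (LinearMap.ker h).mkQ, σ := σ,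
            g := h.compl₁₂ σ σ, mkσ := hσ', gmk := fun u v => ?_, nd := fun w hw => ?_ }⟩
  · rw [LinearMap.compl₁₂_apply, key, hs, key, hs]
  · have h1 : h (σ w) = 0 := by
      ext v
      have h2 := hw ((LinearMap.ker h).mkQ v)
      rw [LinearMap.compl₁₂_apply, hs, key, hs] at h2
      exact h2
    rw [← hσ' w, Submodule.mkQ_apply, Submodule.Quotient.mk_eq_zero, LinearMap.mem_ker]
    exact h1

variable {h : U →ₗ[ZMod 2] U →ₗ[ZMod 2] B}

theorem Quo.link (Q : Quo h) (hl : IsLinked h 0) : IsLinked Q.g 0 := by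
  refine ⟨fun a b => ?_, fun a => ?_, fun a b c d habcd => ?_⟩
  · rw [← Q.mkσ a, ← Q.mkσ b, Q.gmk, Q.gmk, hl.symm]
  · rw [← Q.mkσ a, Q.gmk, hl.diag, map_zero, map_zero]
  · rw [← Q.mkσ a, ← Q.mkσ b, ← Q.mkσ c, ← Q.mkσ d, Q.gmk, Q.gmk] at habcd
    obtain ⟨x, h1, h2⟩ := hl.link _ _ _ _ habcd
    refine ⟨Q.pr x, ?_, ?_⟩
    · rw [← Q.mkσ a, ← Q.mkσ b, Q.gmk, Q.gmk, h1]
    · rw [← Q.mkσ a, ← Q.mkσ b, ← Q.mkσ c, Q.gmk, Q.gmk, h2]

theorem piidem {W : Type} [AddCommGroup W] [Module (ZMod 2) W]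
    {g : W →ₗ[ZMod 2] W →ₗ[ZMod 2] B} {k : ℕ} (C : DSC.Dec g k) (j : Fin k) (b : B) :
    C.π j (C.π j b) = C.π j b := by
  have h1 := C.sum_π (C.π j b)
  rw [Finset.sum_eq_single_of_mem j (Finset.mem_univ j)] at h1
  · exact h1
  · intro i _ hi
    exact C.orth i j hi b

theorem no_fan [Finite U] (Q : Quo h) (hl : IsLinked h 0) {k : ℕ} (C : DSC.Dec Q.g k)
    (hM : ∀ κ : B →ₗ[ZMod 2] ZMod 2, κ ≠ 0 →
      3 ≤ finrank (ZMod 2) (LinearMap.range (h.compr₂ κ))) (j : Fin k) :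
    ¬ DSC.IsFan Q.g (C.p j) (C.π j) := by
  rintro ⟨τ, t, ht1, ht2, ht3, ht4, -, d₁, d₂, -, -, hd3, -, hd5, -, -⟩
  have hl' := Q.link hl
  -- `π j ≠ 0`
  have h0 : ∃ w, Q.g d₁ w ≠ 0 := by
    by_contra hc
    push Not at hc
    exact hd5 (Q.nd d₁ hc)
  obtain ⟨w, hw⟩ := h0
  have hw2 : C.π j (Q.g d₁ w) ≠ 0 := by
    rw [← C.cen, hd3]
    exact hw
  obtain ⟨f, hf⟩ : ∃ f : B →ₗ[ZMod 2] ZMod 2, f (C.π j (Q.g d₁ w)) ≠ 0 := by
    by_contra hc
    push Not at hc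
    exact hw2 ((Module.forall_dual_apply_eq_zero_iff (ZMod 2) _).1 hc)
  have hκ : f.comp (C.π j) ≠ 0 := fun hc => hf (LinearMap.congr_fun hc (Q.g d₁ w))
  let β : U →ₗ[ZMod 2] ZMod 2 := f.comp ((Q.g t).comp ((C.p j).comp Q.pr))
  let τ' : U →ₗ[ZMod 2] ZMod 2 := τ.comp Q.pr
  have hle : LinearMap.range (h.compr₂ (f.comp (C.π j))) ≤
      Submodule.span (ZMod 2) (({τ', β} : Set (U →ₗ[ZMod 2] ZMod 2))) := by
    rintro _ ⟨v, rfl⟩
    have heq : h.compr₂ (f.comp (C.π j)) v = f (Q.g (C.p j (Q.pr v)) t) • τ' + τ' v • β := by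
      ext w
      rw [LinearMap.compr₂_apply, LinearMap.comp_apply, ← piidem C j (h v w), ← Q.gmk v w,
        ← C.cen, hl'.symm, ← C.cen, hl'.symm]
      have hd : ∀ u, τ (C.p j (Q.pr u) + τ (Q.pr u) • t) = 0 := by
        intro u
        rw [map_add, map_smul, ht3, ht1, smul_eq_mul, mul_one]
        exact CharTwo.add_self_eq_zero _
      have hp : ∀ u, C.p j (C.p j (Q.pr u) + τ (Q.pr u) • t) =
          C.p j (Q.pr u) + τ (Q.pr u) • t := by
        intro u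
        have hpp : C.p j (C.p j (Q.pr u)) = C.p j (Q.pr u) := by
          have h1 : ∀ w', Q.g (C.p j (C.p j (Q.pr u)) - C.p j (Q.pr u)) w' = 0 := by
            intro w'
            rw [map_sub, LinearMap.sub_apply, C.cen, C.cen, piidem, sub_self]
          exact sub_eq_zero.1 (Q.nd _ h1)
        rw [map_add, map_smul, hpp, ht2]
      have h5 := ht4 _ _ (hd v) (hd w)
      rw [hp, hp] at h5
      have htt : Q.g t t = 0 := by rw [hl'.diag, map_zero]
      simp only [map_add, map_smul, LinearMap.add_apply, LinearMap.smul_apply, htt, smul_zero,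
        add_zero] at h5
      have h6 : Q.g (C.p j (Q.pr v)) (C.p j (Q.pr w)) =
          τ (Q.pr w) • Q.g (C.p j (Q.pr v)) t + τ (Q.pr v) • Q.g t (C.p j (Q.pr w)) := by
        have h7 := eq_of_add_eq_zero' (M := B) (x := Q.g (C.p j (Q.pr v)) (C.p j (Q.pr w)))
          (y := τ (Q.pr w) • Q.g (C.p j (Q.pr v)) t + τ (Q.pr v) • Q.g t (C.p j (Q.pr w)))
        apply h7
        rw [← h5]
        abel
      rw [h6]
      simp only [map_add, map_smul, LinearMap.add_apply, LinearMap.smul_apply, smul_eq_mul, β,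
        τ', LinearMap.comp_apply]
      ring
    rw [heq]
    refine add_mem (Submodule.smul_mem _ _ (Submodule.subset_span ?_))
      (Submodule.smul_mem _ _ (Submodule.subset_span ?_))
    · exact Set.mem_insert _ _
    · exact Set.mem_insert_of_mem _ rfl
  have h1 := hM _ hκ
  have h2 : finrank (ZMod 2) (Submodule.span (ZMod 2) (({τ', β} : Set (U →ₗ[ZMod 2] ZMod 2)))) ≤ 2 := by
    classical
    have h3 := finrank_span_finset_le_card (R := ZMod 2) ({τ', β} : Finset (U →ₗ[ZMod 2] ZMod 2))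
    rw [Finset.coe_insert, Finset.coe_singleton] at h3
    exact h3.trans Finset.card_le_two
  have h3 := Submodule.finrank_mono hle
  omega

theorem rank_le [Finite U] [Finite B] (Q : Quo h) (hl : IsLinked h 0) {k : ℕ}
    (C : DSC.Dec Q.g k) (j : Fin k) (ψ : B →ₗ[ZMod 2] ZMod 2) :
    finrank (ZMod 2) (LinearMap.range (h.compr₂ (ψ.comp (C.π j)))) ≤
      frk h ((LinearMap.range (C.p j)).comap Q.pr) := by
  have hl' := Q.link hl
  let P : Submodule (ZMod 2) U := (LinearMap.range (C.p j)).comap Q.pr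
  let G : U →ₗ[ZMod 2] P := LinearMap.codRestrict P (Q.σ.comp ((C.p j).comp Q.pr)) (by
    intro u
    show Q.pr (Q.σ (C.p j (Q.pr u))) ∈ LinearMap.range (C.p j)
    rw [Q.mkσ]
    exact ⟨_, rfl⟩)
  let F : (P →ₗ[ZMod 2] B) →ₗ[ZMod 2] (U →ₗ[ZMod 2] ZMod 2) :=
    { toFun := fun φ => ψ.comp (φ.comp G)
      map_add' := fun φ φ' => by ext v; simp
      map_smul' := fun c φ => by ext v; simp }
  have hA : h.compr₂ (ψ.comp (C.π j)) = F.comp ((h.domRestrict₁₂ P P).comp G) := by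
    ext u v
    have e1 : h (Q.σ (C.p j (Q.pr u))) (Q.σ (C.p j (Q.pr v))) = C.π j (h u v) := by
      rw [← Q.gmk, Q.mkσ, Q.mkσ, C.cen, hl'.symm, C.cen, piidem, hl'.symm, Q.gmk]
    show ψ (C.π j (h u v)) = ψ (h (Q.σ (C.p j (Q.pr u))) (Q.σ (C.p j (Q.pr v))))
    rw [e1]
  rw [hA, LinearMap.range_comp]
  refine (Submodule.finrank_map_le _ _).trans ?_
  apply Submodule.finrank_mono
  rintro _ ⟨u, rfl⟩
  exact ⟨G u, rfl⟩

end

end GEN_

open GEN_ in
theorem gen_proof (hFUL : Stmt_FUL) (hDEC : DSC.Stmt_DEC) : Stmt_GEN := by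
  intro U B _ _ _ _ _ _ h M hl hM3 hMB hM
  obtain ⟨y, hy⟩ := hFUL U B h fun κ hκ => hMB.trans (hM κ hκ)
  obtain ⟨Q⟩ := quo h hl.symm
  have : Finite Q.W := Finite.of_surjective Q.pr fun w => ⟨Q.σ w, Q.mkσ w⟩
  have hl' := Q.link hl
  obtain ⟨k, ⟨C⟩⟩ := hDEC Q.W B Q.g hl' Q.nd ⟨Q.pr y, fun b => by
    obtain ⟨v, hv⟩ := hy b
    exact ⟨Q.pr v, by rw [Q.gmk, hv]⟩⟩
  have hloc : ∀ j, ∃ c, c ≠ 0 ∧ C.π j c = c ∧ ∀ b, C.π j b = 0 ∨ C.π j b = c := by
    intro j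
    rcases C.typ j with h1 | h1
    · exact h1
    · exact absurd h1 (no_fan Q hl C (fun κ hκ => hM3.trans (hM κ hκ)) j)
  choose c hc0 hc1 hc2 using hloc
  refine ⟨k, c, fun j => (LinearMap.range (C.p j)).comap Q.pr, fun b => ?_, fun j => ⟨hc0 j, ?_, ?_⟩⟩
  · rw [← C.sum_π b]
    refine Submodule.sum_mem _ fun j _ => ?_
    rcases hc2 j b with h1 | h1
    · rw [h1]; exact zero_mem _
    · rw [h1]; exact Submodule.subset_span ⟨j, rfl⟩
  · rintro z ⟨w, hw⟩ v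
    have h1 : h z v = C.π j (Q.g w (Q.pr v)) := by
      rw [← C.cen, hw, Q.gmk]
    rw [h1]
    exact hc2 j _
  · obtain ⟨ψ, hψ⟩ : ∃ ψ : B →ₗ[ZMod 2] ZMod 2, ψ (c j) ≠ 0 := by
      by_contra hc
      push Not at hc
      exact hc0 j ((Module.forall_dual_apply_eq_zero_iff (ZMod 2) _).1 hc)
    have hκ : ψ.comp (C.π j) ≠ 0 := by
      intro hc
      apply hψ
      have h1 := LinearMap.congr_fun hc (c j)
      rw [LinearMap.comp_apply, hc1] at h1
      exact h1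
    exact (hM _ hκ).trans (rank_le Q hl C j ψ)

end Pool.Agent.GTW
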