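import Pool.Agent.GTW.Stmts

/-!
GTW, module GRW: the ranks are arbitrarily large.
-/

set_option autoImplicit false

namespace Pool.Agent.GTW

open Module CommonSlot Pool.Agent.ETG

namespace GRW_

theorem ur_pos (T : Tow) (n : ℕ) (κ : T.B n →ₗ[ZMod 2] ZMod 2) (h : ∃ b ∈ T.Om n, κ b ≠ 0) :
    1 ≤ T.ur n κ := by
  have := T.fin n
  obtain ⟨b, hb, hκ⟩ := h
  have h1 : ∃ a c, T.q n (T.x n) a = 0 ∧ T.q n (T.x n) c = 0 ∧ κ (T.q n a c) ≠ 0 := by
    by_contra hno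
    push Not at hno
    have h2 : T.Om n ≤ LinearMap.ker κ := by
      unfold Tow.Om
      rw [Submodule.span_le]
      rintro _ ⟨a, c, ha, hc, rfl⟩
      exact LinearMap.mem_ker.2 (hno a c ha hc)
    exact hκ (LinearMap.mem_ker.1 (h2 hb))
  obtain ⟨a, c, ha, hc, hac⟩ := h1
  unfold Tow.ur frk
  rw [Nat.one_le_iff_ne_zero]
  intro h0
  rw [Submodule.finrank_eq_zero] at h0
  apply hac
  have h3 : ((T.q n).compr₂ κ).domRestrict₁₂ (T.U n) (T.U n) ⟨a, LinearMap.mem_ker.2 ha⟩ = 0 := by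
    have : ((T.q n).compr₂ κ).domRestrict₁₂ (T.U n) (T.U n) ⟨a, LinearMap.mem_ker.2 ha⟩ ∈
        LinearMap.range (((T.q n).compr₂ κ).domRestrict₁₂ (T.U n) (T.U n)) := ⟨_, rfl⟩
    rw [h0] at this
    exact (Submodule.mem_bot _).1 this
  exact LinearMap.congr_fun h3 ⟨c, LinearMap.mem_ker.2 hc⟩

theorem ur_congr (T : Tow) (n : ℕ) (κ κ' : T.B n →ₗ[ZMod 2] ZMod 2)
    (h : ∀ b ∈ T.Om n, κ b = κ' b) : T.ur n κ = T.ur n κ' := by
  unfold Tow.ur frk
  have : ((T.q n).compr₂ κ).domRestrict₁₂ (T.U n) (T.U n) =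
      ((T.q n).compr₂ κ').domRestrict₁₂ (T.U n) (T.U n) := by
    refine LinearMap.ext fun a => LinearMap.ext fun c => ?_
    show κ (T.q n a.1 c.1) = κ' (T.q n a.1 c.1)
    exact h _ (Submodule.subset_span ⟨a.1, c.1, LinearMap.mem_ker.1 a.2, LinearMap.mem_ker.1 c.2,
      rfl⟩)
  rw [this]

end GRW_

open GRW_ in
theorem grw_proof (hDBL : Stmt_DBL) : Stmt_GRW := by
  intro T n1 hr ho M
  have key : ∀ k : ℕ, ∀ κ : T.B (n1 + k) →ₗ[ZMod 2] ZMod 2, (∃ b ∈ T.Om (n1 + k), κ b ≠ 0) →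
      2 ^ k ≤ T.ur (n1 + k) κ := by
    intro k
    induction k with
    | zero =>
      intro κ h
      exact ur_pos T _ κ h
    | succ k ih =>
      intro κ h
      have hL := hr (n1 + k) (Nat.le_add_right _ _)
      have hO := ho (n1 + k) (Nat.le_add_right _ _)
      let f : T.Om (n1 + k + 1) →ₗ[ZMod 2] T.B (n1 + k) :=
        (T.cor (n1 + k)).domRestrict (T.Om (n1 + k + 1))
      have hf : LinearMap.ker f = ⊥ := by
        rw [eq_bot_iff]
        rintro ⟨b, hb⟩ hb0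
        rw [LinearMap.mem_ker] at hb0
        exact (Submodule.mem_bot _).2 (Subtype.ext (hO.ki b hb hb0))
      obtain ⟨g, hg⟩ := f.exists_leftInverse_of_injective hf
      let κ' : T.B (n1 + k) →ₗ[ZMod 2] ZMod 2 := (κ.comp (T.Om (n1 + k + 1)).subtype).comp g
      have hκ' : ∀ b ∈ T.Om (n1 + k + 1), κ b = κ' (T.cor (n1 + k) b) := by
        intro b hb
        have h1 : g (f ⟨b, hb⟩) = ⟨b, hb⟩ := LinearMap.congr_fun hg ⟨b, hb⟩
        have h2 : κ' (T.cor (n1 + k) b) = κ ((g (f ⟨b, hb⟩) : T.Om (n1 + k + 1)) : T.B (n1 + k + 1)) :=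
          rfl
        rw [h2, h1]
      have h3 : T.ur (n1 + k + 1) κ = T.ur (n1 + k + 1) (κ'.comp (T.cor (n1 + k))) :=
        ur_congr T _ _ _ hκ'
      obtain ⟨b, hb, hb0⟩ := h
      have h4 : ∃ b ∈ T.Om (n1 + k), κ' b ≠ 0 := by
        refine ⟨T.cor (n1 + k) b, ?_, ?_⟩
        · rw [← hO.mp]
          exact Submodule.mem_map_of_mem hb
        · rw [← hκ' b hb]
          exact hb0
      have h5 := ih κ' h4
      have h6 := hDBL T (n1 + k) hL κ'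
      have h7 : 2 ^ (k + 1) ≤ T.ur (n1 + k + 1) κ := by
        rw [h3, pow_succ]
        omega
      exact h7
  refine ⟨n1 + M, Nat.le_add_right _ _, ?_⟩
  intro n hn κ hκ
  obtain ⟨j, rfl⟩ := Nat.exists_eq_add_of_le hn
  have h1 : M ≤ 2 ^ (M + j) := (Nat.le_add_right M j).trans (Nat.lt_two_pow_self).le
  have h2 : ∀ m, n1 + M + j = n1 + m → ∀ κ : T.B (n1 + M + j) →ₗ[ZMod 2] ZMod 2,
      (∃ b ∈ T.Om (n1 + M + j), κ b ≠ 0) → 2 ^ m ≤ T.ur (n1 + M + j) κ := by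
    intro m hm
    rw [hm]
    exact key m
  exact h1.trans (h2 (M + j) (by ring) κ hκ)

end Pool.Agent.GTW
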