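import Pool.Agent.GTW.Stmts

/-!
GTW IND: independence of the components.
-/

set_option autoImplicit false

namespace Pool.Agent.GTW

open Module CommonSlot Pool.Agent.ETG
open scoped BigOperators

namespace IND_

variable {V B : Type} [AddCommGroup V] [Module (ZMod 2) V] [AddCommGroup B] [Module (ZMod 2) B]
  {q : V →ₗ[ZMod 2] V →ₗ[ZMod 2] B} {x : V} {k : ℕ}

/-- `q u v = Σ χ_i(u) τ(P_i v)` for `u ∈ V_x` -/
theorem q_u (hiso : Iso q x) (C : CD q x k) {u : V} (hu : q x u = 0) (v : V) :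
    q u v = ∑ i, C.χ i u • q x (C.P i v) := by
  have h1 : q u (v + ∑ i, C.P i v) = 0 := hiso _ _ hu (C.sumU v)
  rw [map_add, map_sum] at h1
  have h2 := eq_of_add_eq_zero' h1
  rw [h2]
  exact Finset.sum_congr rfl fun i _ => C.eig i u v hu

theorem P_sum (C : CD q x k) (c : Fin k → ZMod 2) (v : V) (j : Fin k) :
    C.P j (∑ l, c l • C.P l v) = c j • C.P j v := by
  rw [map_sum, Finset.sum_eq_single j]
  · rw [map_smul, C.PP]
  · intro i _ hij
    rw [map_smul, C.orth j i (Ne.symm hij), smul_zero]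
  · intro hj
    exact absurd (Finset.mem_univ j) hj

/-- half step -/
theorem half (hSTR : Stmt_STR) (hq : IsLinked q 0) (hiso : Iso q x) (C : CD q x k) {v z w : V}
    (h : q v z = 0) (hw : q x w = 0) : ∃ a g, q x a = 0 ∧ q x g = 0 ∧
      q (z + a) (∑ l, C.χ l w • C.P l v + g) = 0 := by
  apply hSTR V B q hq x (∑ l, C.χ l w • C.P l v) v w z _ h
  rw [hq.symm v w, q_u hiso C hw, map_sum]
  exact Finset.sum_congr rfl fun i _ => by rw [map_smul]

/-- full step -/
theorem step (hSTR : Stmt_STR) (hq : IsLinked q 0) (hiso : Iso q x) (C : CD q x k) {v z w : V}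
    (h : q v z = 0) (hw : q x w = 0) : ∃ v' z', q v' z' = 0 ∧
      (∀ l, C.P l v' = C.χ l w • C.P l v) ∧ ∀ l, C.P l z' = C.χ l w • C.P l z := by
  obtain ⟨a, g, ha, hg, h1⟩ := half hSTR hq hiso C h hw
  obtain ⟨a', g', ha', hg', h2⟩ := half hSTR hq hiso C h1 hw
  refine ⟨_, _, h2, ?_, ?_⟩
  · intro l
    rw [map_add, map_add, P_sum, C.PU l g hg, C.PU l a' ha', add_zero, add_zero]
  · intro l
    rw [map_add, P_sum, map_add, C.PU l a ha, add_zero, C.PU l g' hg', add_zero]

/-- iteration -/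
theorem iter (hSTR : Stmt_STR) (hq : IsLinked q 0) (hiso : Iso q x) (C : CD q x k) {v z : V}
    (h : q v z = 0) (i : Fin k) (s : Finset (Fin k)) (hs : i ∉ s) :
    ∃ v' z', q v' z' = 0 ∧ C.P i v' = C.P i v ∧ C.P i z' = C.P i z ∧
      ∀ j ∈ s, C.P j v' = 0 ∧ C.P j z' = 0 := by
  classical
  induction s using Finset.induction_on with
  | empty => exact ⟨v, z, h, rfl, rfl, fun j hj => absurd hj (Finset.notMem_empty j)⟩
  | insert j s hj ih =>
    obtain ⟨v', z', h1, h2, h3, h4⟩ := ih fun h5 => hs (Finset.mem_insert_of_mem h5)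
    have hij : i ≠ j := fun e => hs (e ▸ Finset.mem_insert_self j s)
    obtain ⟨w, hw, hwi, hwj⟩ := C.sep i j hij
    obtain ⟨v'', z'', h5, h6, h7⟩ := step hSTR hq hiso C h1 hw
    refine ⟨v'', z'', h5, ?_, ?_, ?_⟩
    · rw [h6, hwi, one_smul, h2]
    · rw [h7, hwi, one_smul, h3]
    · intro l hl
      rcases Finset.mem_insert.1 hl with rfl | hl
      · rw [h6, h7, hwj, zero_smul, zero_smul]
        exact ⟨rfl, rfl⟩
      · rw [h6, h7, (h4 l hl).1, (h4 l hl).2, smul_zero]
        exact ⟨rfl, rfl⟩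

/-- the case `q v z = 0` -/
theorem zero_case (hSTR : Stmt_STR) (hq : IsLinked q 0) (hiso : Iso q x) (C : CD q x k) {v z : V}
    (h : q v z = 0) (i : Fin k) : ∃ w', q x w' = q (C.P i v) (C.P i z) := by
  classical
  obtain ⟨v', z', h1, h2, h3, h4⟩ := iter hSTR hq hiso C h i (Finset.univ.erase i)
    (Finset.notMem_erase i _)
  have hv : q x (v' + C.P i v) = 0 := by
    have := C.sumU v'
    rw [Finset.sum_eq_single i, h2] at this
    · exact this
    · intro j _ hji
      exact (h4 j (Finset.mem_erase.2 ⟨hji, Finset.mem_univ j⟩)).1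
    · intro hi
      exact absurd (Finset.mem_univ i) hi
  have hz : q x (z' + C.P i z) = 0 := by
    have := C.sumU z'
    rw [Finset.sum_eq_single i, h3] at this
    · exact this
    · intro j _ hji
      exact (h4 j (Finset.mem_erase.2 ⟨hji, Finset.mem_univ j⟩)).2
    · intro hi
      exact absurd (Finset.mem_univ i) hi
  have ev : v' = C.P i v + (v' + C.P i v) := by
    rw [add_comm v', ← add_assoc, ZModModule.add_self, zero_add]
  have ez : z' = C.P i z + (z' + C.P i z) := by
    rw [add_comm z', ← add_assoc, ZModModule.add_self, zero_add]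
  rw [ev, ez] at h1
  have e1 : q (C.P i v + (v' + C.P i v)) (C.P i z + (z' + C.P i z)) =
      q (C.P i v) (C.P i z) + (C.χ i (z' + C.P i z) • q x (C.P i v) +
        C.χ i (v' + C.P i v) • q x (C.P i z)) := by
    generalize hA : v' + C.P i v = A at hv
    generalize hD : z' + C.P i z = D at hz
    rw [map_add q, LinearMap.add_apply, map_add, map_add, hiso _ _ hv hz, add_zero,
      hq.symm (C.P i v) D, C.eig i D v hz, C.eig i A z hv]
    abel
  rw [e1] at h1
  refine ⟨C.χ i (z' + C.P i z) • C.P i v + C.χ i (v' + C.P i v) • C.P i z, ?_⟩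
  rw [map_add (q x), map_smul, map_smul]
  exact (eq_of_add_eq_zero' h1).symm

end IND_

open IND_ in
theorem ind_proof (hSTR : Stmt_STR) : Stmt_IND := by
  intro V B _ _ _ _ _ q x k hq hrg hiso C v z w h i
  obtain ⟨u, hu1, hu2⟩ := hq.link v z x w h.symm
  have hxx : q x x = 0 := by rw [hq.diag, map_zero]
  have h1 : q v (z + u) = 0 := by rw [map_add, hu1, ZModModule.add_self]
  have h2 : q (x + v) u = 0 := by
    rw [map_add, LinearMap.add_apply, hu1, hu2, ZModModule.add_self]
  obtain ⟨w1, hw1⟩ := zero_case hSTR hq hiso C h1 i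
  obtain ⟨w2, hw2⟩ := zero_case hSTR hq hiso C h2 i
  refine ⟨w1 + w2, ?_⟩
  rw [map_add, hw1, hw2, map_add (C.P i), map_add (C.P i), C.PU i x hxx, zero_add,
    map_add (q (C.P i v)), add_assoc, ZModModule.add_self, add_zero]

end Pool.Agent.GTW
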