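import Pool.Agent.GTW.Stmts

/-! Squad GTW: module LNK. -/

set_option autoImplicit false

namespace Pool.Agent.GTW

open Module CommonSlot Pool.Agent.ETG
open scoped BigOperators

theorem lnk_proof : Stmt_LNK := by
  intro T n h a b c d ha hb hc hd he
  obtain ⟨b', rfl⟩ := (T.rN n b).1 hb
  obtain ⟨d', rfl⟩ := (T.rN n d).1 hd
  obtain ⟨z, hz⟩ := h.uq a b' ha
  obtain ⟨z2, hz2⟩ := h.uq c d' hc
  have e1 := h.cq a b'
  have e2 := h.cq c d'
  have h0 : T.cor n (T.q (n + 1) (T.x (n + 1)) (z - z2)) = 0 := by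
    rw [map_sub, map_sub, hz, hz2, e1, e2, he, sub_self]
  have h1 := h.inj _ h0
  rw [map_sub, sub_eq_zero, hz, hz2] at h1
  obtain ⟨s, hs1, hs2⟩ := (T.link (n + 1)).link _ _ _ _ h1
  refine ⟨T.N n s, ?_, ?_, ?_⟩
  · exact (T.rN n _).2 ⟨s, rfl⟩
  · rw [← h.cq, hs1, e1]
  · rw [← h.cq, hs2, e1]

end Pool.Agent.GTW
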