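import Pool.Agent.GTW.Stmts
import Pool.Agent.LBD.Pi

/-!
GTW LOC: a noncommuting rank one pair splits off a local component (note 1602).
-/

set_option autoImplicit false

namespace Pool.Agent.GTW

theorem loc_proof : Stmt_LOC := by
  intro V B _ _ _ _ _ q hq hnd c hc
  obtain ⟨hc0, p, p', hp, hp', hpp⟩ := hc
  exact Pool.Agent.LBD.loc_pi q hq hnd c p p' hc0 hp hp' hpp

end Pool.Agent.GTW
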