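import Pool.Agent.GTW.Stmts

set_option autoImplicit false

namespace Pool.Agent.GTW

open Module CommonSlot Pool.Agent.ETG
open scoped BigOperators

namespace OMS_

theorem stab (f : ℕ → ℕ) (n0 D : ℕ) (hm : ∀ n, n0 ≤ n → f n ≤ f (n + 1))
    (hD : ∀ n, n0 ≤ n → f n ≤ D) : ∃ n1, n0 ≤ n1 ∧ ∀ n, n1 ≤ n → f n = f n1 := by
  let S : Set ℕ := {m | ∃ n, n0 ≤ n ∧ f n = m}
  have hS : S.Nonempty := ⟨f n0, n0, le_refl _, rfl⟩
  have hb : BddAbove S := ⟨D, by rintro m ⟨n, hn, rfl⟩; exact hD n hn⟩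
  obtain ⟨n1, hn1, h1⟩ := Nat.sSup_mem hS hb
  refine ⟨n1, hn1, fun n hn => ?_⟩
  apply le_antisymm
  · rw [h1]
    exact le_csSup hb ⟨n, hn1.trans hn, rfl⟩
  · induction n, hn using Nat.le_induction with
    | base => exact le_refl _
    | succ n hn ih => exact ih.trans (hm n (hn1.trans hn))

theorem Om_le (T : Tow) (n : ℕ) (h : T.Lvr n) : T.Om n ≤ LinearMap.range (T.q n (T.x n)) := by
  unfold Tow.Om
  rw [Submodule.span_le]
  rintro b ⟨a, c, ha, hc, rfl⟩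
  obtain ⟨z, hz⟩ := h.rg a c ha
  exact ⟨z, hz⟩

theorem ki (T : Tow) (n : ℕ) (h : T.Lvr n) (h' : T.Lvr (n + 1)) :
    ∀ b ∈ T.Om (n + 1), T.cor n b = 0 → b = 0 := by
  intro b hb hc
  obtain ⟨w, rfl⟩ := Om_le T (n + 1) h' hb
  exact h.inj w hc

theorem le_map (T : Tow) (n : ℕ) (h : T.Lvr n) : T.Om n ≤ (T.Om (n + 1)).map (T.cor n) := by
  conv_lhs => unfold Tow.Om
  rw [Submodule.span_le]
  rintro b ⟨a, c, ha, hc, rfl⟩
  obtain ⟨c', hc', rfl⟩ := h.lift c hc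
  refine ⟨T.q (n + 1) (T.res n a) c', ?_, h.cq a c'⟩
  exact Submodule.subset_span ⟨T.res n a, c', h.resU a ha, hc', rfl⟩

end OMS_

open OMS_ in
theorem oms_proof : Stmt_OMS := by
  intro T n0 hL
  have hfin : ∀ n, n0 ≤ n → Module.Finite (ZMod 2) (T.Om n) := by
    intro n hn
    have := T.fin n
    exact Submodule.finiteDimensional_of_le (Om_le T n (hL n hn))
  have hle : ∀ n, n0 ≤ n → finrank (ZMod 2) (T.Om n) ≤ T.D := by
    intro n hn
    have := T.fin n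
    exact (Submodule.finrank_mono (Om_le T n (hL n hn))).trans (T.bd n (T.x n))
  have hmap : ∀ n, n0 ≤ n → finrank (ZMod 2) ((T.Om (n + 1)).map (T.cor n)) ≤
      finrank (ZMod 2) (T.Om (n + 1)) := by
    intro n hn
    have := hfin (n + 1) (by omega)
    exact Submodule.finrank_map_le _ _
  have hmono1 : ∀ n, n0 ≤ n → finrank (ZMod 2) (T.Om n) ≤
      finrank (ZMod 2) ((T.Om (n + 1)).map (T.cor n)) := by
    intro n hn
    have := hfin (n + 1) (by omega)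
    exact Submodule.finrank_mono (le_map T n (hL n hn))
  obtain ⟨n1, hn1, h1⟩ := stab (fun n => finrank (ZMod 2) (T.Om n)) n0 T.D
    (fun n hn => (hmono1 n hn).trans (hmap n hn)) hle
  refine ⟨n1, hn1, fun n hn => ⟨?_, ki T n (hL n (hn1.trans hn)) (hL (n + 1) (by omega))⟩⟩
  have hfn := hfin (n + 1) (by omega)
  have e1 := h1 n hn
  have e2 := h1 (n + 1) (by omega)
  have e3 := hmap n (hn1.trans hn)
  refine (Submodule.eq_of_le_of_finrank_le (le_map T n (hL n (hn1.trans hn))) ?_).symm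
  omega

end Pool.Agent.GTW
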