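import Pool.Agent.GTW.Stmts

/-! Squad GTW: module OSL. -/

set_option autoImplicit false

namespace Pool.Agent.GTW

open Module CommonSlot Pool.Agent.ETG
open scoped BigOperators

theorem osl_proof (hLOC : Stmt_LOC) (hRFT : Stmt_RFT) (hZQT : Stmt_ZQT) (hCMB : Stmt_CMB) :
    Stmt_OSL := by
  have key : ∀ (N : ℕ) (V B : Type) [AddCommGroup V] [Module (ZMod 2) V] [Finite V]
      [AddCommGroup B] [Module (ZMod 2) B] (q : V →ₗ[ZMod 2] V →ₗ[ZMod 2] B) (x : V),
      Nat.card V = N → IsLinked q 0 → Nd q → Rg q x → SPAN q x → HasOS q := by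
    intro N
    induction N using Nat.strong_induction_on with
    | _ N ih =>
      intro V B _ _ _ _ _ q x hN hl hn hr hs
      by_cases he : ∃ e, HP q e
      · obtain ⟨c, hc⟩ := he
        obtain ⟨π, h1, h2, h3, h4, h5, h6⟩ := hLOC V B q hl hn c hc
        obtain ⟨W, B', i1, i2, i3, i4, i5, q', x', ι, k1, k2, k3, k4, k5, k6, k7, k8, k9⟩ :=
          hZQT V B q x c π hl hn hr hs hc h1 h2 h3 h4 h5 h6
        exact hCMB V B q c π hl hn hc h1 h2 h3 h4 h5 W B' q' ι k2 k3 k4 k5
          (ih (Nat.card W) (hN ▸ k1) W B' q' x' rfl k6 k7 k8 k9)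
      · refine hRFT V B q x hl hn hr ?_
        intro u w hu hw
        have h1 := hs u w hu hw
        have h2 : {e | HP q e} = ∅ := by
          ext e
          simp only [Set.mem_setOf_eq, Set.mem_empty_iff_false, iff_false]
          exact fun h => he ⟨e, h⟩
        rw [h2, Submodule.span_empty] at h1
        exact (Submodule.mem_bot _).1 h1
  intro V B _ _ _ _ _ q x hl hn hr hs
  exact key _ V B q x rfl hl hn hr hs

end Pool.Agent.GTW
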