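import Pool.Agent.GTW.Stmts

/-!
Module OSX of the squad GTW: the abstract theorem, reduction to the nondegenerate case.
-/

set_option autoImplicit false

namespace Pool.Agent.GTW

open Module CommonSlot Pool.Agent.ETG
open scoped BigOperators

namespace OSX_

variable {V B W : Type} [AddCommGroup V] [Module (ZMod 2) V] [AddCommGroup B] [Module (ZMod 2) B]
  [AddCommGroup W] [Module (ZMod 2) W]

/-- lifting a decomposition along a surjection with a section -/
theorem lift {q : V →ₗ[ZMod 2] V →ₗ[ZMod 2] B} {q' : W →ₗ[ZMod 2] W →ₗ[ZMod 2] B}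
    (m : V →ₗ[ZMod 2] W) (s : W →ₗ[ZMod 2] V) (hs : ∀ w, m (s w) = w)
    (hq : ∀ v w, q v w = q' (m v) (m w)) (h : HasOS q') : HasOS q := by
  obtain ⟨k, C, hC⟩ := h
  have hs0 : ∀ w, s w = 0 → w = 0 := by
    intro w hw
    rw [← hs w, hw, map_zero]
  refine ⟨k,
    { p := fun j => s ∘ₗ C.p j ∘ₗ m
      idem := ?_
      orth := ?_
      perp := ?_
      rad := ?_
      ind := ?_
      nd := ?_
      ne := ?_ }, ?_⟩
  · intro j v
    show s (C.p j (m (s (C.p j (m v))))) = s (C.p j (m v))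
    rw [hs, C.idem]
  · intro i j hij v
    show s (C.p i (m (s (C.p j (m v))))) = 0
    rw [hs, C.orth i j hij, map_zero]
  · intro j v w
    show q (s (C.p j (m v))) (w + s (C.p j (m w))) = 0
    rw [hq, map_add, hs, hs]
    exact C.perp j (m v) (m w)
  · intro v w
    show q (v + ∑ j, s (C.p j (m v))) w = 0
    rw [hq, map_add, map_sum]
    simp only [hs]
    exact C.rad (m v) (m w)
  · intro v w h j
    show q (s (C.p j (m v))) (s (C.p j (m w))) = 0
    rw [hq, hs, hs]
    refine C.ind (m v) (m w) ?_ j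
    show q' (m v) (m w) = 0
    rw [← hq]
    exact h
  · intro j v h
    show s (C.p j (m v)) = 0
    have h1 : C.p j (m v) = 0 := by
      apply C.nd j (m v)
      intro w
      have h2 : q (s (C.p j (m v))) (s (C.p j (m (s w)))) = 0 := h (s w)
      rw [hq, hs, hs, hs] at h2
      exact h2
    rw [h1, map_zero]
  · intro j
    obtain ⟨w, hw⟩ := C.ne j
    refine ⟨s w, fun h => hw ?_⟩
    have h1 : s (C.p j (m (s w))) = 0 := h
    rw [hs] at h1
    exact hs0 _ h1
  · intro j
    rcases hC j with h | ⟨t, ht, ht0, h⟩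
    · left
      intro v w w'
      have h1 : q' (C.p j (m v)) (m w) = 0 ∨ q' (C.p j (m v)) (m w') = 0 ∨
        q' (C.p j (m v)) (m w + m w') = 0 := h (m v) (m w) (m w')
      show q (s (C.p j (m v))) w = 0 ∨ q (s (C.p j (m v))) w' = 0 ∨
        q (s (C.p j (m v))) (w + w') = 0
      rw [hq, hq, hq, hs, map_add]
      exact h1
    · right
      refine ⟨s t, ?_, fun h0 => ht0 (hs0 _ h0), ?_⟩
      · show s (C.p j (m (s t))) = s t
        rw [hs, ht]
      · intro v hv
        have h1 : q (s t) (s (C.p j (m v))) = 0 := hv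
        rw [hq, hs, hs] at h1
        show s (C.p j (m v)) = 0 ∨ s (C.p j (m v)) = s t
        rcases h (m v) h1 with h2 | h2
        · left
          rw [h2, map_zero]
        · right
          rw [h2]

end OSX_

theorem osx_proof (hOSL : Stmt_OSL) : Stmt_OSX := by
  intro V B _ _ _ _ _ q x hL hR hS
  obtain ⟨R, hRdef⟩ : ∃ R : Submodule (ZMod 2) V, ∀ v, v ∈ R ↔ q v = 0 :=
    ⟨LinearMap.ker q, fun v => LinearMap.mem_ker⟩
  obtain ⟨s, hs'⟩ := R.mkQ.exists_rightInverse_of_surjective (Submodule.range_mkQ R)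
  have hs : ∀ w, R.mkQ (s w) = w := fun w => LinearMap.congr_fun hs' w
  have hr : ∀ v, q v = q (s (R.mkQ v)) := by
    intro v
    have h1 : v - s (R.mkQ v) ∈ R := by
      rw [← Submodule.Quotient.mk_eq_zero, ← Submodule.mkQ_apply, map_sub, hs, sub_self]
    rw [hRdef, map_sub] at h1
    exact sub_eq_zero.1 h1
  let q' : (V ⧸ R) →ₗ[ZMod 2] (V ⧸ R) →ₗ[ZMod 2] B := q.compl₁₂ s s
  have hq' : ∀ a b, q' a b = q (s a) (s b) := fun a b => rfl
  have hq : ∀ v w, q v w = q' (R.mkQ v) (R.mkQ w) := by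
    intro v w
    rw [hq', ← hr v, hL.symm v w, hr w, hL.symm]
  apply OSX_.lift (q' := q') R.mkQ s hs hq
  have hfin : Finite (V ⧸ R) := Finite.of_surjective _ (Submodule.mkQ_surjective R)
  have hHP : ∀ e, HP q e → HP q' e := by
    rintro e ⟨he, p, p', h1, h2, h3⟩
    refine ⟨he, R.mkQ p, R.mkQ p', ?_, ?_, ?_⟩
    · intro v
      have := h1 (s v)
      rwa [hq, hs] at this
    · intro v
      have := h2 (s v)
      rwa [hq, hs] at this
    · rw [← hq]
      exact h3
  apply hOSL (V ⧸ R) B q' (R.mkQ x)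
  · refine ⟨fun a b => hL.symm _ _, fun a => ?_, fun a b c d h => ?_⟩
    · rw [hq', hq', hL.diag, map_zero s]
    · obtain ⟨z, h1, h2⟩ := hL.link (s a) (s b) (s c) (s d) h
      refine ⟨R.mkQ z, ?_, ?_⟩
      · rw [hq', hq', ← h1, hL.symm _ (s (R.mkQ z)), ← hr, hL.symm]
      · rw [hq', hq', ← h2, hL.symm _ (s (R.mkQ z)), ← hr, hL.symm]
  · intro v hv
    have h1 : s v ∈ R := by
      rw [hRdef]
      ext w
      rw [hq, hs]
      exact hv _
    rw [← hs v, Submodule.mkQ_apply, Submodule.Quotient.mk_eq_zero]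
    exact h1
  · intro w v h
    obtain ⟨z, hz⟩ := hR (s w) (s v) (by rw [hq, hs]; exact h)
    exact ⟨R.mkQ z, by rw [← hq, hz, hq']⟩
  · intro u w h1 h2
    have h3 : q (s u) (s w) ∈ Submodule.span (ZMod 2) {e | HP q e} :=
      hS (s u) (s w) (by rw [hq, hs]; exact h1) (by rw [hq, hs]; exact h2)
    exact Submodule.span_mono (fun e he => hHP e he) h3

end Pool.Agent.GTW
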