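import Pool.Agent.GTW.Stmts

/-! PRJ. -/

set_option autoImplicit false

namespace Pool.Agent.GTW

open Module CommonSlot Pool.Agent.ETG

theorem prj_proof : Stmt_PRJ := by
  intro T n h hR hR'
  have huq : ∀ u w, T.q n (T.x n) u = 0 →
      ∃ z, T.q (n + 1) (T.x (n + 1)) z = T.q (n + 1) (T.res n u) w := fun u w hu =>
    hR' (T.res n u) w (h.resU u hu)
  refine { h with
    rg := hR
    rg' := hR'
    uq := huq
    cq := ?_
    q0 := ?_ }
  · intro u w
    rw [(T.link (n + 1)).symm, T.proj, (T.link n).symm]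
  · intro u v hu
    obtain ⟨z, hz⟩ := huq u (T.res n v) hu
    exact h.r1 u v z hz.symm

end Pool.Agent.GTW
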