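import Pool.Agent.GTW.Stmts

set_option autoImplicit false

namespace Pool.Agent.GTW

open Module CommonSlot Pool.Agent.ETG

namespace REG_

/-- the data at level `m` -/
def Good (T : Tow) (m k : ℕ) : Prop :=
  ∃ (v w : T.V m) (S : Submodule (ZMod 2) (T.V m)), T.q m (T.x m) w = 0 ∧ w ∈ S ∧ w ≠ 0 ∧
    (∀ W ∈ S, (∃ z, T.q m (T.x m) z = T.q m W v) → W = 0) ∧ k + 1 ≤ finrank (ZMod 2) S

theorem good_zero (T : Tow) (m : ℕ) (w v : T.V m) (hw : T.q m (T.x m) w = 0)
    (hz : ¬ ∃ z, T.q m (T.x m) z = T.q m w v) : Good T m 0 := by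
  have hw0 : w ≠ 0 := by
    rintro rfl
    exact hz ⟨0, by simp⟩
  refine ⟨v, w, Submodule.span (ZMod 2) {w}, hw, Submodule.mem_span_singleton_self w, hw0, ?_, ?_⟩
  · intro W hW hW'
    rw [Submodule.mem_span_singleton] at hW
    obtain ⟨a, rfl⟩ := hW
    rcases zm a with ha | ha
    · rw [ha, zero_smul]
    · rw [ha, one_smul] at hW'
      exact absurd hW' hz
  · rw [finrank_span_singleton hw0]

theorem good_succ (T : Tow) (m k : ℕ) (hL : T.Lvl m) (h : Good T m k) : Good T (m + 1) (k + 1) := by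
  obtain ⟨v, w, S, hw, hwS, hw0, hS, hk⟩ := h
  obtain ⟨w', hw', hN⟩ := hL.lift w hw
  have hfin := T.fin m
  have hfin' := T.fin (m + 1)
  -- the key implication
  have key : ∀ W ∈ S, (∃ z, T.q (m + 1) (T.x (m + 1)) z = T.q (m + 1) (T.res m W) (T.res m v)) →
      W = 0 := by
    rintro W hW ⟨z, hz⟩
    have h0 := hL.r1 W v z hz.symm
    exact hS W hW ((T.ker3 m W v).1 h0)
  have hinj : ∀ W ∈ S, T.res m W = 0 → W = 0 := by
    intro W hW h0
    apply key W hW
    exact ⟨0, by rw [h0]; simp⟩
  have hw'0 : w' ≠ 0 := by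
    rintro rfl
    rw [map_zero] at hN
    exact hw0 hN.symm
  refine ⟨T.res m v, w', S.map (T.res m) ⊔ Submodule.span (ZMod 2) {w'}, hw',
    Submodule.mem_sup_right (Submodule.mem_span_singleton_self w'), hw'0, ?_, ?_⟩
  · rintro W hW ⟨z, hz⟩
    rw [Submodule.mem_sup] at hW
    obtain ⟨y, ⟨W', hW', rfl⟩, u, hu, rfl⟩ := hW
    rw [Submodule.mem_span_singleton] at hu
    obtain ⟨a, rfl⟩ := hu
    obtain ⟨z', hz'⟩ := hL.corx z
    have hc : T.q m (T.x m) z' = a • T.q m w v := by
      rw [← hz', hz, T.proj, map_add, T.Nres, zero_add, map_smul, hN, map_smul]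
      rfl
    rcases zm a with ha | ha
    · subst ha
      rw [zero_smul, add_zero] at hz ⊢
      rw [key W' hW' ⟨z, hz⟩, map_zero]
    · subst ha
      rw [one_smul] at hc
      exact absurd (hS w hwS ⟨z', hc⟩) hw0
  · have h1 : finrank (ZMod 2) (S.map (T.res m)) = finrank (ZMod 2) S := by
      have hi : Function.Injective ((T.res m).domRestrict S) := by
        rw [← LinearMap.ker_eq_bot, LinearMap.ker_eq_bot']
        rintro ⟨W, hW⟩ h0
        have : T.res m W = 0 := h0
        exact Subtype.ext (hinj W hW this)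
      have h2 := LinearMap.finrank_range_of_inj hi
      rw [← h2, LinearMap.range_domRestrict]
    have hdisj : Disjoint (S.map (T.res m)) (Submodule.span (ZMod 2) {w'}) := by
      rw [Submodule.disjoint_def]
      rintro y ⟨W, hW, rfl⟩ hy
      rw [Submodule.mem_span_singleton] at hy
      obtain ⟨a, ha⟩ := hy
      rcases zm a with h0 | h0
      · rw [← ha, h0, zero_smul]
      · rw [h0, one_smul] at ha
        exfalso
        apply hw0
        rw [← hN, ha, T.Nres]
    have h3 := Submodule.finrank_sup_add_finrank_inf_eq (S.map (T.res m))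
      (Submodule.span (ZMod 2) {w'})
    rw [hdisj.eq_bot, finrank_bot, finrank_span_singleton hw'0, h1] at h3
    omega

end REG_

open REG_ in
theorem reg_proof : Stmt_REG := by
  intro T n0 hL n hn w v hw
  by_contra hz
  have hg : ∀ k, Good T (n + k) k := by
    intro k
    induction k with
    | zero => exact good_zero T n w v hw hz
    | succ k ih => exact good_succ T (n + k) k (hL _ (by omega)) ih
  obtain ⟨v', w', S, hw', hwS, hw0, hS, hk⟩ := hg T.D
  have hfin := T.fin (n + T.D)
  have hb := T.bd (n + T.D) v'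
  let f : S →ₗ[ZMod 2] LinearMap.range (T.q (n + T.D) v') :=
    ((T.q (n + T.D) v').domRestrict S).codRestrict _ (fun W => ⟨W.1, rfl⟩)
  have hi : Function.Injective f := by
    rw [← LinearMap.ker_eq_bot, LinearMap.ker_eq_bot']
    rintro ⟨W, hW⟩ h0
    have h1 : T.q (n + T.D) v' W = 0 := congrArg Subtype.val h0
    apply Subtype.ext
    refine hS W hW ⟨0, ?_⟩
    rw [(T.link (n + T.D)).symm W v', h1, map_zero]
  have := LinearMap.finrank_le_finrank_of_injective hi
  unfold rk at hb
  omega

end Pool.Agent.GTW
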