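import Pool.Agent.GTW.Stmts

/-! RFT from CHD and RFF. -/

set_option autoImplicit false

namespace Pool.Agent.GTW

theorem rft_of (hCHD : Stmt_CHD) (hRFF : Stmt_RFF) : Stmt_RFT := by
  intro V B _ _ _ _ _ q x hL hN hR hI
  obtain ⟨k, ⟨C⟩⟩ := hCHD V B q x hL hR hI
  exact hRFF V B q x k hL hN hR hI C

end Pool.Agent.GTW
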