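import Pool.Agent.GTW.Stmts

/-!
Module SCA of the squad GTW: cross terms are scalar.
-/

set_option autoImplicit false

namespace Pool.Agent.GTW

open Module CommonSlot Pool.Agent.ETG
open scoped BigOperators

namespace SCA_

variable {V Z B : Type} [AddCommGroup V] [Module (ZMod 2) V] [AddCommGroup Z] [Module (ZMod 2) Z]
  [AddCommGroup B] [Module (ZMod 2) B]

theorem scal (t : V →ₗ[ZMod 2] B) (t' : Z →ₗ[ZMod 2] B) (f : V →ₗ[ZMod 2] Z →ₗ[ZMod 2] B)
    (hd : ∀ v z, t v + t' z = 0 → t v = 0)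
    (hf : ∀ v z, ∃ c d : ZMod 2, f v z = c • t v + d • t' z) (v0 : V) (hv0 : t v0 ≠ 0) :
    ∃ α : Z →ₗ[ZMod 2] ZMod 2, ∀ v z (c d : ZMod 2), f v z = c • t v + d • t' z →
      c • t v = α z • t v := by
  have hT : ∀ v, t v ∈ LinearMap.range t' → t v = 0 := by
    rintro v ⟨z, hz⟩
    apply hd v z
    rw [hz, ZModModule.add_self]
  obtain ⟨m, hm⟩ : ∃ m : B →ₗ[ZMod 2] (B ⧸ LinearMap.range t'), ∀ b,
      m b = 0 ↔ b ∈ LinearMap.range t' :=
    ⟨(LinearMap.range t').mkQ, fun b => by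
      rw [Submodule.mkQ_apply, Submodule.Quotient.mk_eq_zero]⟩
  have hmt' : ∀ z, m (t' z) = 0 := fun z => (hm _).2 ⟨z, rfl⟩
  have hm0 : m (t v0) ≠ 0 := fun h => hv0 (hT v0 ((hm _).1 h))
  obtain ⟨l, hl⟩ : ∃ l : (B ⧸ LinearMap.range t') →ₗ[ZMod 2] ZMod 2, l (m (t v0)) ≠ 0 := by
    by_contra hcon
    push Not at hcon
    exact hm0 ((Module.forall_dual_apply_eq_zero_iff (ZMod 2) (m (t v0))).1 hcon)
  have hl1 : l (m (t v0)) = 1 := zm_ne_zero hl
  refine ⟨l ∘ₗ m ∘ₗ f v0, ?_⟩
  intro v z c d h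
  obtain ⟨c0, d0, h0⟩ := hf v0 z
  have hα : (l ∘ₗ m ∘ₗ f v0) z = c0 := by
    show l (m (f v0 z)) = c0
    rw [h0, map_add, map_smul, map_smul, hmt', smul_zero, add_zero, map_smul, hl1]
    simp
  rw [hα]
  obtain ⟨c1, d1, h1⟩ := hf (v + v0) z
  rw [map_add, LinearMap.add_apply, h, h0, map_add] at h1
  have h2 : m (t ((c + c1) • v + (c0 + c1) • v0)) = 0 := by
    have h3 := congrArg m h1
    simp only [map_add, map_smul, hmt', smul_zero, add_zero, smul_add] at h3
    rw [map_add, map_smul, map_smul, add_smul, add_smul, map_add, map_add, map_add, map_smul,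
      map_smul, map_smul, map_smul]
    have h4 : c • m (t v) + c1 • m (t v) + (c0 • m (t v0) + c1 • m (t v0)) =
        (c • m (t v) + c0 • m (t v0)) + (c1 • m (t v) + c1 • m (t v0)) := by abel
    rw [h4, h3, ZModModule.add_self]
  have h5 : t ((c + c1) • v + (c0 + c1) • v0) = 0 := hT _ ((hm _).1 h2)
  rw [map_add, map_smul, map_smul] at h5
  rcases zm c with rfl | rfl <;> rcases zm c0 with rfl | rfl
  · rfl
  · rcases zm c1 with rfl | rfl
    · exfalso
      apply hv0
      simpa using h5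
    · have h6 : t v = 0 := by
        have e : (1 : ZMod 2) + 1 = 0 := by decide
        rw [e] at h5
        simpa using h5
      rw [h6, smul_zero, smul_zero]
  · rcases zm c1 with rfl | rfl
    · have h6 : t v = 0 := by
        simpa using h5
      rw [h6, smul_zero, smul_zero]
    · exfalso
      apply hv0
      have e : (1 : ZMod 2) + 1 = 0 := by decide
      rw [e] at h5
      simpa using h5
  · rfl

end SCA_

theorem sca_proof (hSTR : Stmt_STR) : Stmt_SCA := by
  intro V B _ _ _ _ _ q x k hL _ hI C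
  have key : ∀ i j, i ≠ j → ∀ v z, ∃ c d : ZMod 2,
      q (C.P i v) (C.P j z) = c • q x (C.P i v) + d • q x (C.P j z) := by
    intro i j hij v z
    obtain ⟨w, hw, hi, hj⟩ := C.sep i j hij
    have h1 : q x (C.P i v) = q w (C.P i v) := by
      rw [C.eig i w v hw, hi, one_smul]
    have h2 : q w (C.P j z) = 0 := by
      rw [C.eig j w z hw, hj, zero_smul]
    obtain ⟨a, g, ha, hg, h3⟩ := hSTR V B q hL x (C.P i v) w (C.P i v) (C.P j z) h1 h2
    refine ⟨C.χ i a, C.χ j g, ?_⟩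
    rw [map_add, map_add, LinearMap.add_apply, LinearMap.add_apply, hI a g ha hg, add_zero,
      C.eig i a v ha, hL.symm (C.P j z) g, C.eig j g z hg, hL.symm (C.P j z) (C.P i v)] at h3
    have h4 := eq_of_add_eq_zero' h3
    rw [add_assoc] at h3
    have h5 := eq_of_add_eq_zero' h3
    rw [h5]
  have hd : ∀ i j, i ≠ j → ∀ v z, q x (C.P i v) + q x (C.P j z) = 0 → q x (C.P i v) = 0 := by
    intro i j hij v z h
    rw [← map_add] at h
    have h1 := C.PU i _ h
    rw [map_add, C.PP, C.orth i j hij, add_zero] at h1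
    rw [h1, map_zero]
  have main : ∀ i j, ∃ α : V →ₗ[ZMod 2] ZMod 2, i ≠ j → ∀ v z (c d : ZMod 2),
      q (C.P i v) (C.P j z) = c • q x (C.P i v) + d • q x (C.P j z) →
      c • q x (C.P i v) = α z • q x (C.P i v) := by
    intro i j
    by_cases hij : i = j
    · exact ⟨0, fun h => absurd hij h⟩
    · obtain ⟨v0, hv0⟩ := C.ne i
      have hv0' : q x (C.P i v0) ≠ 0 := by
        intro h
        apply hv0
        have h1 := C.PU i _ h
        rwa [C.PP] at h1
      obtain ⟨α, hα⟩ := SCA_.scal (q x ∘ₗ C.P i) (q x ∘ₗ C.P j) (q.compl₁₂ (C.P i) (C.P j))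
        (hd i j hij) (key i j hij) v0 hv0'
      exact ⟨α, fun _ => hα⟩
  choose α hα using main
  refine ⟨fun i j => α i j ∘ₗ C.P j, ?_, ?_⟩
  · intro i j v
    show α i j (C.P j (C.P j v)) = α i j (C.P j v)
    rw [C.PP]
  · intro i j v z hij
    show q (C.P i v) (C.P j z) = α i j (C.P j z) • q x (C.P i v) + α j i (C.P i v) • q x (C.P j z)
    obtain ⟨c, d, h⟩ := key i j hij v z
    have h1 := hα i j hij v (C.P j z) c d (by rw [C.PP]; exact h)
    have h2 := hα j i hij.symm z (C.P i v) d c (by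
      rw [C.PP, hL.symm, h, add_comm])
    rw [h, h1, h2]

end Pool.Agent.GTW
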