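import Pool.Agent.GTW.Stmts

/-! SPN: result of the tower. -/

set_option autoImplicit false

namespace Pool.Agent.GTW

open Module CommonSlot Pool.Agent.ETG
open scoped BigOperators

namespace SPN_

/-- rank and restriction -/
theorem frk_map {V B : Type} [AddCommGroup V] [Module (ZMod 2) V] [Finite V] [AddCommGroup B]
    [Module (ZMod 2) B] (q : V →ₗ[ZMod 2] V →ₗ[ZMod 2] B) (U : Submodule (ZMod 2) V)
    (O : Submodule (ZMod 2) B) (h : U →ₗ[ZMod 2] U →ₗ[ZMod 2] O)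
    (hh : ∀ u w : U, (h u w : B) = q u w) (P : Submodule (ZMod 2) U) :
    frk h P ≤ frk q (P.map U.subtype) := by
  unfold frk
  set P' := P.map U.subtype with hP'
  let e : P →ₗ[ZMod 2] P' := (U.subtype.comp P.subtype).codRestrict P' (by
    intro y
    exact ⟨y, y.2, rfl⟩)
  have he : Function.Surjective e := by
    rintro ⟨y, z, hz, rfl⟩
    exact ⟨⟨z, hz⟩, rfl⟩
  let Ψ : (P →ₗ[ZMod 2] O) →ₗ[ZMod 2] (P →ₗ[ZMod 2] B) := LinearMap.compRight (ZMod 2) O.subtype
  have hΨ : Function.Injective Ψ := by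
    intro f g hfg
    ext y
    exact congrArg (fun F => F y) hfg
  let Θ : (P' →ₗ[ZMod 2] B) →ₗ[ZMod 2] (P →ₗ[ZMod 2] B) := LinearMap.lcomp (ZMod 2) B e
  have key : (LinearMap.range (h.domRestrict₁₂ P P)).map Ψ =
      (LinearMap.range (q.domRestrict₁₂ P' P')).map Θ := by
    apply le_antisymm
    · rintro _ ⟨_, ⟨y, rfl⟩, rfl⟩
      refine ⟨_, ⟨e y, rfl⟩, ?_⟩
      ext w
      exact (hh y w).symm
    · rintro _ ⟨_, ⟨y, rfl⟩, rfl⟩
      obtain ⟨y, rfl⟩ := he y
      refine ⟨_, ⟨y, rfl⟩, ?_⟩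
      ext w
      exact hh y w
  have fP' : Finite P' := inferInstance
  have f1 : Finite (LinearMap.range (q.domRestrict₁₂ P' P')) :=
    (Set.finite_range (q.domRestrict₁₂ P' P')).to_subtype
  have f2 : FiniteDimensional (ZMod 2) (LinearMap.range (q.domRestrict₁₂ P' P')) := inferInstance
  rw [LinearEquiv.finrank_eq (Submodule.equivMapOfInjective Ψ hΨ _), key]
  exact Submodule.finrank_map_le _ _

end SPN_

open SPN_ in
theorem spn_proof (hSTB : Stmt_STB) (hDCM : Stmt_DCM) (hREG : Stmt_REG) (hPRJ : Stmt_PRJ)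
    (hLNK : Stmt_LNK) (hOMS : Stmt_OMS) (hGRW : Stmt_GRW) (hGEN : Stmt_GEN)
    (hCNT : Stmt_CNT) : Stmt_SPN := by
  intro T
  obtain ⟨n0, h0⟩ := hSTB T
  have h1 : ∀ n, n0 ≤ n → T.Lvl n := fun n hn => hDCM T n (h0 n hn)
  have h2 := hREG T n0 h1
  have h3 : ∀ n, n0 ≤ n → T.Lvr n := fun n hn =>
    hPRJ T n (h1 n hn) (h2 n hn) (h2 (n + 1) (hn.trans (Nat.le_succ n)))
  obtain ⟨n1, h01, h4⟩ := hOMS T n0 h3
  obtain ⟨n, h12, h5⟩ := hGRW T n1 (fun n hn => h3 n (h01.trans hn)) h4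
    (3 + (2 * T.D ^ 2 + 1) + T.D)
  have hL := hLNK T n (h3 n (h01.trans h12))
  have hR : Rg (T.q n) (T.x n) := h2 n (h01.trans h12)
  refine ⟨n, hR, ?_⟩
  have fV : Finite (T.V n) := T.fin n
  -- the form on `V_x`
  have hO : ∀ u w : T.U n, T.q n u w ∈ T.Om n := fun u w =>
    Submodule.subset_span ⟨u, w, u.2, w.2, rfl⟩
  let h : T.U n →ₗ[ZMod 2] T.U n →ₗ[ZMod 2] T.Om n :=
    LinearMap.mk₂ (ZMod 2) (fun u w => ⟨T.q n u w, hO u w⟩)
      (fun a b c => Subtype.ext (by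
        show T.q n ((a : T.V n) + b) c = _
        rw [map_add]; rfl))
      (fun r a b => Subtype.ext (by
        show T.q n (r • (a : T.V n)) b = _
        rw [map_smul]; rfl))
      (fun a b c => Subtype.ext (by
        show T.q n a ((b : T.V n) + c) = _
        rw [map_add]; rfl))
      (fun r a b => Subtype.ext (by
        show T.q n a (r • (b : T.V n)) = _
        rw [map_smul]; rfl))
  have hh : ∀ u w : T.U n, (h u w : T.B n) = T.q n u w := fun _ _ => rfl
  have hlink : IsLinked h 0 := by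
    refine ⟨fun a b => Subtype.ext ((T.link n).symm a b),
      fun a => Subtype.ext ((T.link n).diag a), ?_⟩
    intro a b c d habcd
    obtain ⟨s, hs1, hs2, hs3⟩ := hL a b c d a.2 b.2 c.2 d.2 (congrArg Subtype.val habcd)
    exact ⟨⟨s, hs1⟩, Subtype.ext hs2, Subtype.ext hs3⟩
  have hOle : T.Om n ≤ LinearMap.range (T.q n (T.x n)) := by
    unfold Tow.Om
    rw [Submodule.span_le]
    rintro _ ⟨a, c, ha, _, rfl⟩
    obtain ⟨z, hz⟩ := hR a c ha
    exact ⟨z, hz⟩
  have fR : Finite (LinearMap.range (T.q n (T.x n))) :=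
    (Set.finite_range (T.q n (T.x n))).to_subtype
  have fO : Finite (T.Om n) := Finite.of_injective _ (Submodule.inclusion_injective hOle)
  have hdim : finrank (ZMod 2) (T.Om n) ≤ T.D :=
    (Submodule.finrank_mono hOle).trans (T.bd n (T.x n))
  obtain ⟨k, c, P, hc, hP⟩ := hGEN (T.U n) (T.Om n) h (3 + (2 * T.D ^ 2 + 1) + T.D) hlink
    (by omega) (by omega) (by
      intro κ hκ
      obtain ⟨κ', hκ'⟩ := LinearMap.exists_extend κ
      have e1 : ∀ b : T.Om n, κ' b = κ b := fun b => congrArg (fun F => F b) hκ'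
      obtain ⟨b, hb⟩ : ∃ b, κ b ≠ 0 := by
        by_contra h'
        push Not at h'
        exact hκ (LinearMap.ext h')
      have h6 := h5 n le_rfl κ' ⟨b, b.2, by rw [e1]; exact hb⟩
      have e2 : h.compr₂ κ = ((T.q n).compr₂ κ').domRestrict₁₂ (T.U n) (T.U n) := by
        ext u w
        show κ (h u w) = κ' (T.q n u w)
        rw [← hh, e1]
      rw [e2]
      exact h6)
  have hHP : ∀ j, HP (T.q n) (c j : T.B n) := by
    intro j
    obtain ⟨p1, p2, p3⟩ := hP j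
    refine hCNT (T.V n) (T.B n) (T.q n) (T.x n) T.D (c j) ((P j).map (T.U n).subtype)
      (T.link n).symm hR (T.bd n _) (fun h' => p1 (Subtype.ext h')) ?_ ?_ ?_
    · rintro _ ⟨y, _, rfl⟩
      exact y.2
    · rintro _ ⟨y, hy, rfl⟩ u hu
      rcases p2 y hy ⟨u, hu⟩ with h' | h'
      · left; exact congrArg Subtype.val h'
      · right; exact congrArg Subtype.val h'
    · have := frk_map (T.q n) (T.U n) (T.Om n) h hh (P j)
      omega
  intro u w hu hw
  have h7 : (⟨T.q n u w, hO ⟨u, hu⟩ ⟨w, hw⟩⟩ : T.Om n) ∈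
      Submodule.span (ZMod 2) (Set.range c) := hc _
  have h8 : T.q n u w ∈ (Submodule.span (ZMod 2) (Set.range c)).map (T.Om n).subtype :=
    ⟨_, h7, rfl⟩
  rw [Submodule.map_span] at h8
  refine Submodule.span_mono ?_ h8
  rintro _ ⟨_, ⟨j, rfl⟩, rfl⟩
  exact hHP j

end Pool.Agent.GTW
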