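import Pool.Agent.GTW.Stmts

set_option autoImplicit false

/-!
# STB: the ranks `dim Q_{x_n}` are nondecreasing and bounded
-/

namespace Pool.Agent.GTW

open Module CommonSlot Pool.Agent.ETG
open scoped BigOperators

namespace STB_

theorem key {B' B : Type} [AddCommGroup B'] [Module (ZMod 2) B']
    [AddCommGroup B] [Module (ZMod 2) B] (R : Submodule (ZMod 2) B')
    [Module.Finite (ZMod 2) R] (c : B' →ₗ[ZMod 2] B)
    (S : Submodule (ZMod 2) B') (hS : S ≤ R) (Q : Submodule (ZMod 2) B) (hQ : Q ≤ S.map c) :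
    finrank (ZMod 2) Q ≤ finrank (ZMod 2) R ∧
      (finrank (ZMod 2) Q = finrank (ZMod 2) R → S = R ∧ ∀ b ∈ R, c b = 0 → b = 0) := by
  have hfS : Module.Finite (ZMod 2) S := Submodule.finiteDimensional_of_le hS
  have hfm : Module.Finite (ZMod 2) (S.map c) := inferInstance
  have h1 : finrank (ZMod 2) Q ≤ finrank (ZMod 2) (S.map c) := Submodule.finrank_mono hQ
  have h2 : finrank (ZMod 2) (S.map c) ≤ finrank (ZMod 2) S := Submodule.finrank_map_le c S
  have h3 : finrank (ZMod 2) S ≤ finrank (ZMod 2) R := Submodule.finrank_mono hS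
  refine ⟨by omega, fun h => ?_⟩
  have hSR : S = R := Submodule.eq_of_le_of_finrank_eq hS (by omega)
  refine ⟨hSR, fun b hb hcb => ?_⟩
  have h4 := LinearMap.finrank_range_add_finrank_ker (c.domRestrict R)
  have h5 : LinearMap.range (c.domRestrict R) = R.map c := by
    rw [LinearMap.range_domRestrict]
  rw [h5] at h4
  rw [hSR] at h1 h2
  have h6 : finrank (ZMod 2) (LinearMap.ker (c.domRestrict R)) = 0 := by omega
  have h7 : LinearMap.ker (c.domRestrict R) = ⊥ := Submodule.finrank_eq_zero.mp h6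
  have h8 : (⟨b, hb⟩ : R) ∈ LinearMap.ker (c.domRestrict R) := by
    rw [LinearMap.mem_ker]
    exact hcb
  rw [h7, Submodule.mem_bot] at h8
  exact congrArg Subtype.val h8

end STB_

theorem stb_proof : Stmt_STB := by
  intro T
  have step : ∀ n, rk (T.q n) (T.x n) ≤ rk (T.q (n + 1)) (T.x (n + 1)) ∧
      (rk (T.q n) (T.x n) = rk (T.q (n + 1)) (T.x (n + 1)) → T.Lvl0 n) := by
    intro n
    have hf : Finite (T.V (n + 1)) := T.fin (n + 1)
    have hmf : Module.Finite (ZMod 2) (T.V (n + 1)) := Module.Finite.of_finite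
    have hrf : Module.Finite (ZMod 2) (LinearMap.range (T.q (n + 1) (T.x (n + 1)))) :=
      inferInstance
    have hS : (LinearMap.range (T.res n)).map (T.q (n + 1) (T.x (n + 1))) ≤
        LinearMap.range (T.q (n + 1) (T.x (n + 1))) := by
      rintro _ ⟨w, -, rfl⟩
      exact ⟨w, rfl⟩
    have hQ : LinearMap.range (T.q n (T.x n)) ≤
        ((LinearMap.range (T.res n)).map (T.q (n + 1) (T.x (n + 1)))).map (T.cor n) := by
      rintro _ ⟨v, rfl⟩
      refine ⟨T.q (n + 1) (T.x (n + 1)) (T.res n v), ⟨T.res n v, ⟨v, rfl⟩, rfl⟩, ?_⟩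
      rw [T.proj, T.Nx]
    obtain ⟨h1, h2⟩ := STB_.key _ (T.cor n) _ hS _ hQ
    refine ⟨h1, fun h => ?_⟩
    obtain ⟨h3, h4⟩ := h2 h
    refine ⟨fun w hw => h4 _ ⟨w, rfl⟩ hw, fun w => ?_⟩
    have h5 : T.q (n + 1) (T.x (n + 1)) w ∈ LinearMap.range (T.q (n + 1) (T.x (n + 1))) :=
      ⟨w, rfl⟩
    rw [← h3] at h5
    obtain ⟨_, ⟨v, rfl⟩, hv⟩ := h5
    exact ⟨v, hv.symm⟩
  have hmono : Monotone fun n => rk (T.q n) (T.x n) := monotone_nat_of_le_succ fun n => (step n).1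
  have hbdd : BddAbove (Set.range fun n => rk (T.q n) (T.x n)) := by
    refine ⟨T.D, ?_⟩
    rintro _ ⟨n, rfl⟩
    exact T.bd n (T.x n)
  obtain ⟨n0, hn0⟩ := Nat.sSup_mem (Set.range_nonempty fun n => rk (T.q n) (T.x n)) hbdd
  refine ⟨n0, fun n hn => (step n).2 ?_⟩
  have h1 : rk (T.q n0) (T.x n0) ≤ rk (T.q n) (T.x n) := hmono hn
  have h2 : rk (T.q (n + 1)) (T.x (n + 1)) ≤ sSup (Set.range fun n => rk (T.q n) (T.x n)) :=
    le_csSup hbdd ⟨n + 1, rfl⟩
  rw [← hn0] at h2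
  have h3 := (step n).1
  change rk (T.q (n + 1)) (T.x (n + 1)) ≤ rk (T.q n0) (T.x n0) at h2
  omega

end Pool.Agent.GTW
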