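import Pool.Agent.GTW.Stmts

/-!
GTW STR: the fundamental consequence of linkage.
-/

set_option autoImplicit false

namespace Pool.Agent.GTW

open Module CommonSlot Pool.Agent.ETG

theorem str_proof : Stmt_STR := by
  intro V B _ _ _ _ q hq x v y s v' h h0
  -- link `x`, `y`
  obtain ⟨s0, h1, h2⟩ := hq.link _ _ _ _ h
  rw [h] at h1
  rw [h] at h2
  have hg1 : q x (s0 + v) = 0 := by rw [map_add, h1, h, ZModModule.add_self]
  -- `q (s0 + v') y = c = q x v`
  have h3 : q (s0 + v') y = q x v := by
    rw [map_add, LinearMap.add_apply, hq.symm s0 y, h2, hq.symm v' y, h0, add_zero, h]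
  obtain ⟨z, h4, h5⟩ := hq.link _ _ _ _ h3
  rw [h3] at h4 h5
  have hg : q x (z + v) = 0 := by rw [map_add, h5, ZModModule.add_self]
  have hxx : q x x = 0 := by rw [hq.diag, map_zero]
  have hzz : q z z = 0 := by rw [hq.diag, map_zero]
  refine ⟨s0 + x + z, z + v, ?_, hg, ?_⟩
  · rw [map_add, map_add, h1, hxx, add_zero, h5, h, ZModModule.add_self]
  · have e1 : v + (z + v) = z := by
      rw [add_comm z, ← add_assoc, ZModModule.add_self, zero_add]
    rw [e1]
    have e2 : v' + (s0 + x + z) = (s0 + v') + x + z := by abel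
    rw [e2, map_add, map_add, LinearMap.add_apply, LinearMap.add_apply, h4, h5,
      ZModModule.add_self, zero_add, hzz]

end Pool.Agent.GTW
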