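import Pool.Agent.GTW.Stmts

set_option autoImplicit false

namespace Pool.Agent.GTW

open Module CommonSlot Pool.Agent.ETG

theorem twr_proof (hSPN : Stmt_SPN) (hOSX : Stmt_OSX) : Stmt_TWR := by
  intro T
  obtain ⟨n, h1, h2⟩ := hSPN T
  have := T.fin n
  exact ⟨n, hOSX (T.V n) (T.B n) (T.q n) (T.x n) (T.link n) h1 h2⟩

end Pool.Agent.GTW
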