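import Pool.Agent.GTW.Stmts

/-!
# GTW, module ZQT: the complement of a local component, with values modulo `c`
-/

set_option autoImplicit false

namespace Pool.Agent.GTW

open Module CommonSlot Pool.Agent.ETG
open scoped BigOperators

namespace ZQT_

section
variable {V : Type} [AddCommGroup V] [Module (ZMod 2) V]

lemma dbl (v : V) : v + v = 0 := by
  have h := add_smul (1 : ZMod 2) 1 v
  rw [one_smul] at h
  rw [← h, show (1 : ZMod 2) + 1 = 0 by decide, zero_smul]

lemma eq_of_add {v w : V} (h : v + w = 0) : v = w := by
  have := dbl w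
  calc v = v + (w + w) := by rw [this, add_zero]
    _ = (v + w) + w := by rw [add_assoc]
    _ = w := by rw [h, zero_add]

lemma mem_span1 (c b : V) : b ∈ Submodule.span (ZMod 2) {c} ↔ b = 0 ∨ b = c := by
  rw [Submodule.mem_span_singleton]
  constructor
  · rintro ⟨a, rfl⟩
    have ha : a = 0 ∨ a = 1 := by
      revert a; decide
    rcases ha with rfl | rfl
    · left; rw [zero_smul]
    · right; rw [one_smul]
  · rintro (rfl | rfl)
    · exact ⟨0, zero_smul _ _⟩
    · exact ⟨1, one_smul _ _⟩

lemma mk_zero (c b : V) : (Submodule.span (ZMod 2) {c}).mkQ b = 0 ↔ b = 0 ∨ b = c := by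
  rw [Submodule.mkQ_apply, Submodule.Quotient.mk_eq_zero, mem_span1]

lemma mk_eq (c b b' : V) : (Submodule.span (ZMod 2) {c}).mkQ b =
    (Submodule.span (ZMod 2) {c}).mkQ b' ↔ b = b' ∨ b = b' + c := by
  rw [← sub_eq_zero, ← map_sub, mk_zero]
  constructor
  · rintro (h | h)
    · left; exact sub_eq_zero.1 h
    · right; rw [← h]; abel
  · rintro (h | h)
    · left; rw [h, sub_self]
    · right; rw [h]; abel

end

end ZQT_

open ZQT_

theorem zqt_proof : Stmt_ZQT := by
  intro V B _ _ _ _ _ q x c π hL hN hR hS hc h1 h2 h3 h4 h5 h6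
  have hc0 : c ≠ 0 := hc.1
  let W : Submodule (ZMod 2) V := LinearMap.ker π
  let mk : B →ₗ[ZMod 2] (B ⧸ Submodule.span (ZMod 2) {c}) := (Submodule.span (ZMod 2) {c}).mkQ
  let q' : W →ₗ[ZMod 2] W →ₗ[ZMod 2] (B ⧸ Submodule.span (ZMod 2) {c}) :=
    LinearMap.mk₂ (ZMod 2) (fun v w => mk (q v w)) (by
      intro a b c; simp) (by
      intro a b c; simp) (by
      intro a b c; simp) (by
      intro a b c; simp)
  have hq' : ∀ v w : W, q' v w = mk (q v w) := fun v w => rfl
  have hW : ∀ v : V, v + π v ∈ W := by
    intro v
    change π (v + π v) = 0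
    rw [map_add, h1]
    exact dbl _
  have hWz : ∀ w : W, π (w : V) = 0 := fun w => w.2
  have hWa : ∀ w : W, (w : V) + π w = w := fun w => by rw [hWz, add_zero]
  -- the local part is orthogonal to `W`
  have o1 : ∀ (v : V) (w : W), q (π v) w = 0 := by
    intro v w
    rw [← hWa w]; exact h3 v w
  have o2 : ∀ (v : V) (w : W), q w (π v) = 0 := by
    intro v w
    rw [hL.symm]; exact o1 v w
  have hnc : ∀ v w : W, q v w ≠ c := by
    intro v w
    have := h4 v w
    rwa [hWa, hWa] at this
  have hz : ∀ v w : W, q' v w = 0 ↔ q v w = 0 := by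
    intro v w
    rw [hq', mk_zero]
    exact ⟨fun h => h.resolve_right (hnc v w), Or.inl⟩
  have hdec : ∀ v : V, v = (v + π v) + π v := by
    intro v
    rw [add_assoc, dbl, add_zero]
  let x' : W := ⟨x + π x, hW x⟩
  have hx' : ∀ w : W, q x' w = q x w := by
    intro w
    change q (x + π x) w = q x w
    rw [map_add, LinearMap.add_apply, o1, add_zero]
  -- rank one elements with value different from `c` lie in `W`
  have hrk : ∀ (e : B) (p : V), e ≠ c → (∀ v, q p v = 0 ∨ q p v = e) → π p = 0 := by
    intro e p hec hp
    apply hN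
    intro v
    have e1 : q (π p) v = q p (π v) := by
      have a1 : q (π p) v = q (π p) (π v) := by
        conv_lhs => rw [hdec v]
        rw [map_add, h3, zero_add]
      have a2 : q p (π v) = q (π p) (π v) := by
        conv_lhs => rw [hdec p]
        rw [map_add, LinearMap.add_apply, o2 v ⟨_, hW p⟩, zero_add]
      rw [a1, a2]
    rcases h2 p v with h | h
    · exact h
    · rcases hp (π v) with h' | h'
      · rw [e1, h']
      · exfalso
        apply hec
        rw [← h', ← e1, h]
  refine ⟨W, B ⧸ Submodule.span (ZMod 2) {c}, inferInstance, inferInstance, inferInstance,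
    inferInstance, inferInstance, q', x', W.subtype, ?_, Subtype.val_injective, hWz,
    fun v => ⟨⟨_, hW v⟩, rfl⟩, hz, ?_, ?_, ?_, ?_⟩
  · obtain ⟨_, p, p', hp, hp', hpp⟩ := hc
    have hp1 : π p = p := h5 p hp
    have hpW : ¬ (p ∈ W) := by
      intro h
      have h' : π p = 0 := h
      rw [hp1] at h'
      rw [h', map_zero, LinearMap.zero_apply] at hpp
      exact hc0 hpp.symm
    exact Finite.card_subtype_lt hpW
  · refine ⟨fun a b => ?_, fun a => ?_, fun a b a' b' h => ?_⟩
    · rw [hq', hq', hL.symm]
    · rw [map_zero, hz, hL.diag, map_zero]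
    · rw [hq', hq', mk_eq] at h
      obtain ⟨s, hs1, hs2⟩ := h6 a b a' b' h
      refine ⟨⟨s + π s, hW s⟩, ?_, ?_⟩
      · rw [hq', hq', mk_eq]
        change q a (s + π s) = _ ∨ q a (s + π s) = _
        rw [map_add, o2, add_zero]
        exact hs1
      · rw [hq', hq', mk_eq]
        change q a' (s + π s) = _ ∨ q a' (s + π s) = _
        rw [map_add, o2, add_zero]
        exact hs2
  · intro v hv
    have : (v : V) = 0 := by
      apply hN
      intro u
      rw [hdec u, map_add, o2, add_zero]
      exact (hz v ⟨_, hW u⟩).1 (hv _)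
    exact Subtype.ext this
  · intro w v hw
    rw [hz, hx'] at hw
    obtain ⟨z, hz'⟩ := hR w v hw
    refine ⟨⟨z + π z, hW z⟩, ?_⟩
    rw [hq', hq', mk_eq]
    have e1 : q x z = q x' (⟨z + π z, hW z⟩ : W) + q (π x) (π z) := by
      change q x z = q (x + π x) (z + π z) + q (π x) (π z)
      have a1 : q (π x) (z + π z) = 0 := h3 x z
      have a2 : q (x + π x) (π z) = 0 := o2 z ⟨_, hW x⟩
      have a3 : q x (π z) = q (π x) (π z) := by
        rw [map_add, LinearMap.add_apply] at a2
        exact eq_of_add a2
      rw [map_add q, LinearMap.add_apply, a1, add_zero, map_add (q x), a3, add_assoc, dbl, add_zero]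
    rw [hz'] at e1
    rcases h2 x (π z) with h | h
    · left; rw [e1, h, add_zero]
    · right; rw [e1, h, add_assoc, dbl, add_zero]
  · intro u w hu hw
    rw [hz, hx'] at hu hw
    have hs := hS u w hu hw
    rw [hq']
    have key : ∀ b ∈ Submodule.span (ZMod 2) {e | HP q e},
        mk b ∈ Submodule.span (ZMod 2) {e | HP q' e} := by
      intro b hb
      induction hb using Submodule.span_induction with
      | mem e he =>
        by_cases hec : e = c
        · have : mk e = 0 := by rw [hec]; exact (mk_zero c c).2 (Or.inr rfl)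
          rw [this]; exact zero_mem _
        · obtain ⟨he0, p, p', hp, hp', hpp⟩ := he
          refine Submodule.subset_span ⟨?_, ⟨p, hrk e p hec hp⟩, ⟨p', hrk e p' hec hp'⟩, ?_, ?_, ?_⟩
          · intro h
            rcases (mk_zero c e).1 h with h | h
            · exact he0 h
            · exact hec h
          · intro v
            rcases hp v with h | h
            · left; rw [hq']; change mk (q p v) = 0; rw [h, map_zero]
            · right; rw [hq']; change mk (q p v) = _; rw [h]
          · intro v
            rcases hp' v with h | h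
            · left; rw [hq']; change mk (q p' v) = 0; rw [h, map_zero]
            · right; rw [hq']; change mk (q p' v) = _; rw [h]
          · rw [hq']; change mk (q p p') = _; rw [hpp]
      | zero => rw [map_zero]; exact zero_mem _
      | add a b _ _ ha hb => rw [map_add]; exact add_mem ha hb
      | smul r a _ ha => rw [map_smul]; exact Submodule.smul_mem _ _ ha
    exact key _ hs

end Pool.Agent.GTW
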