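import Pool.Agent.DSC.DEC
import Pool.Agent.GTW.ALL
import Pool.Agent.GTW.CHD
import Pool.Agent.GTW.CLO
import Pool.Agent.GTW.CMB
import Pool.Agent.GTW.CMP
import Pool.Agent.GTW.CNT
import Pool.Agent.GTW.DBL
import Pool.Agent.GTW.DCM
import Pool.Agent.GTW.FUL
import Pool.Agent.GTW.GEN
import Pool.Agent.GTW.GRW
import Pool.Agent.GTW.IND
import Pool.Agent.GTW.LNK
import Pool.Agent.GTW.LOC
import Pool.Agent.GTW.OMS
import Pool.Agent.GTW.OSL
import Pool.Agent.GTW.OSX
import Pool.Agent.GTW.PRJ
import Pool.Agent.GTW.REG
import Pool.Agent.GTW.RFF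
import Pool.Agent.GTW.RFTa
import Pool.Agent.GTW.SCA
import Pool.Agent.GTW.SPN
import Pool.Agent.GTW.STB
import Pool.Agent.GTW.STR
import Pool.Agent.GTW.TWR
import Pool.Agent.GTW.ZQT

/-!
Assembly of the squad GTW: the abstract tower theorem (all `Iⁿ`, `-1` a square).
-/

set_option autoImplicit false

namespace Pool.Agent.GTW

theorem rft : Stmt_RFT :=
  rft_of chd_proof (rff_proof (sca_proof str_proof) cmp_proof (ind_proof str_proof)
    (all_proof (clo_proof (sca_proof str_proof))))

/-- **The abstract theorem**: a finite linked structure with a regular element and the property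
`SPAN` decomposes into local components and components with a rigid element. -/
theorem osx : Stmt_OSX := osx_proof (osl_proof loc_proof rft zqt_proof cmb_proof)

theorem spn : Stmt_SPN :=
  spn_proof stb_proof dcm_proof reg_proof prj_proof lnk_proof oms_proof (grw_proof dbl_proof)
    (gen_proof ful_proof DSC.dec_proof) cnt_proof

/-- **The tower theorem.** -/
theorem twr : Stmt_TWR := twr_proof spn osx

end Pool.Agent.GTW
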