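import Pool.Agent.GTW.Stmts

/-! RFF: the decomposition of a structure with a regular element `x`, `V_x` totally isotropic. -/

set_option autoImplicit false

namespace Pool.Agent.GTW

open Module CommonSlot Pool.Agent.ETG
open scoped BigOperators

namespace RFF_

section
variable {V B : Type} [AddCommGroup V] [Module (ZMod 2) V] [AddCommGroup B] [Module (ZMod 2) B]
  {q : V →ₗ[ZMod 2] V →ₗ[ZMod 2] B} {x : V} {k : ℕ} (C : CD q x k)
  (xs : Fin k → V) (β : Fin k → Fin k → (V →ₗ[ZMod 2] ZMod 2))

/-- the coefficient `m_i` -/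
noncomputable def m (i : Fin k) : V →ₗ[ZMod 2] ZMod 2 := C.χ i + ∑ j, β i j

theorem m_apply (i : Fin k) (v : V) : m C β i v = C.χ i v + ∑ j, β i j v := by
  simp [m]

/-- the part of `p_i` in `V_x` -/
noncomputable def Ax (i : Fin k) : V →ₗ[ZMod 2] V :=
  (m C β i).smulRight (xs i) + ∑ j, (β j i).smulRight (xs j)

theorem Ax_apply (i : Fin k) (v : V) :
    Ax C xs β i v = m C β i v • xs i + ∑ j, β j i v • xs j := by
  simp [Ax]

/-- the projections -/
noncomputable def p (i : Fin k) : V →ₗ[ZMod 2] V := C.P i + Ax C xs β i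

theorem p_apply (i : Fin k) (v : V) : p C xs β i v = C.P i v + Ax C xs β i v := by
  simp [p]

variable {C xs β}
variable (hx : ∀ i, q x (xs i) = 0) (hχ : ∀ i j, C.χ i (xs j) = if i = j then 1 else 0)
  (hβP : ∀ i j v, β i j (C.P j v) = β i j v) (hβ0 : ∀ i, β i i = 0)

include hx in
theorem Ax_U (i : Fin k) (v : V) : q x (Ax C xs β i v) = 0 := by
  rw [Ax_apply, map_add, map_smul, hx, smul_zero, zero_add, map_sum]
  exact Finset.sum_eq_zero fun j _ => by rw [map_smul, hx, smul_zero]

include hχ in
theorem χ_Ax (i j : Fin k) (v : V) :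
    C.χ i (Ax C xs β j v) = (if i = j then m C β j v else 0) + β i j v := by
  rw [Ax_apply, map_add, map_smul, hχ, map_sum]
  have h1 : ∑ l, C.χ i (β l j v • xs l) = β i j v := by
    rw [Finset.sum_eq_single i]
    · rw [map_smul, hχ, if_pos rfl, smul_eq_mul, mul_one]
    · intro l _ hl
      rw [map_smul, hχ, if_neg (Ne.symm hl), smul_zero]
    · intro h
      exact absurd (Finset.mem_univ i) h
  rw [h1]
  split_ifs with h
  · rw [smul_eq_mul, mul_one]
  · rw [smul_zero]

include hx in
theorem P_p (i j : Fin k) (v : V) : C.P i (p C xs β j v) = if i = j then C.P j v else 0 := by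
  rw [p_apply, map_add, C.PU i _ (Ax_U hx j v), add_zero]
  split_ifs with h
  · rw [h, C.PP]
  · exact C.orth i j h v

include hχ in
theorem χ_p (i j : Fin k) (v : V) :
    C.χ i (p C xs β j v) = (if i = j then m C β j v else 0) + β i j v := by
  rw [p_apply, map_add, C.χP, zero_add, χ_Ax hχ]

include hx hβP in
theorem β_p (i l j : Fin k) (v : V) :
    β i l (p C xs β j v) = if l = j then β i j v else 0 := by
  rw [← hβP i l, P_p hx]
  split_ifs with h
  · rw [h, hβP]
  · rw [map_zero]

theorem zz (a : ZMod 2) : a + a = 0 := by revert a; decide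

include hx hχ hβP hβ0 in
theorem m_p (i j : Fin k) (v : V) :
    m C β i (p C xs β j v) = if i = j then m C β j v else 0 := by
  rw [m_apply, χ_p hχ]
  have h1 : ∑ l, β i l (p C xs β j v) = β i j v := by
    rw [Finset.sum_eq_single j]
    · rw [β_p hx hβP, if_pos rfl]
    · intro l _ hl
      rw [β_p hx hβP, if_neg hl]
    · intro h
      exact absurd (Finset.mem_univ j) h
  rw [h1, add_assoc, zz, add_zero]

include hx hχ hβP hβ0 in
theorem Ax_p (i j : Fin k) (v : V) :
    Ax C xs β i (p C xs β j v) = if i = j then Ax C xs β j v else 0 := by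
  rw [Ax_apply, m_p hx hχ hβP hβ0]
  split_ifs with h
  · rw [Ax_apply, h]
    congr 1
    refine Finset.sum_congr rfl fun l _ => ?_
    rw [β_p hx hβP, if_pos rfl]
  · rw [zero_smul, zero_add]
    refine Finset.sum_eq_zero fun l _ => ?_
    rw [β_p hx hβP, if_neg h, zero_smul]

include hx hχ hβP hβ0 in
theorem p_p (i j : Fin k) (v : V) :
    p C xs β i (p C xs β j v) = if i = j then p C xs β j v else 0 := by
  rw [p_apply C xs β i, P_p hx, Ax_p hx hχ hβP hβ0]
  split_ifs with h
  · rw [p_apply]
  · rw [add_zero]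

variable (hL : IsLinked q 0) (hI : Iso q x)

include hx hL hI in
theorem q_pp (i j : Fin k) (v w : V) : q (p C xs β j v) (p C xs β i w) =
    q (C.P j v) (C.P i w) + (C.χ i (Ax C xs β j v) • q x (C.P i w) +
      C.χ j (Ax C xs β i w) • q x (C.P j v)) := by
  rw [p_apply, p_apply, map_add, map_add, LinearMap.add_apply, LinearMap.add_apply,
    hI _ _ (Ax_U hx j v) (Ax_U hx i w), C.eig i _ _ (Ax_U hx j v),
    hL.symm (C.P j v) (Ax C xs β i w), C.eig j _ _ (Ax_U hx i w)]
  abel

variable (hα : ∀ i j v z, i ≠ j →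
  q (C.P i v) (C.P j z) = β i j z • q x (C.P i v) + β j i v • q x (C.P j z))

include hx hχ hL hI hα in
theorem q_ne (i j : Fin k) (h : i ≠ j) (v w : V) :
    q (p C xs β j v) (p C xs β i w) = 0 := by
  rw [q_pp hx hL hI, χ_Ax hχ, χ_Ax hχ, if_neg h, if_neg (Ne.symm h), zero_add, zero_add,
    hα j i v w (Ne.symm h)]
  have h1 : ∀ a b : B, a + b + (b + a) = 0 := by
    intro a b
    rw [add_comm b a, ZModModule.add_self]
  exact h1 _ _

include hx hχ hL hI in
theorem rad (v w : V) : q (v + ∑ j, p C xs β j v) w = 0 := by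
  set r := v + ∑ j, p C xs β j v with hr
  have e1 : r = (v + ∑ j, C.P j v) + ∑ j, Ax C xs β j v := by
    rw [hr, add_assoc, ← Finset.sum_add_distrib]
    rfl
  have hrU : q x r = 0 := by
    rw [e1, map_add, C.sumU, zero_add, map_sum]
    exact Finset.sum_eq_zero fun j _ => Ax_U hx j v
  have hrχ : ∀ i, C.χ i r = 0 := by
    intro i
    rw [hr, map_add, map_sum]
    have h1 : ∑ j, C.χ i (p C xs β j v) = m C β i v + ∑ j, β i j v := by
      rw [Finset.sum_congr rfl fun j _ => χ_p hχ i j v, Finset.sum_add_distrib]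
      congr 1
      rw [Finset.sum_ite_eq Finset.univ i (fun j => m C β j v), if_pos (Finset.mem_univ i)]
    rw [h1, m_apply]
    have h2 : ∀ a b : ZMod 2, a + (a + b + b) = 0 := by decide
    exact h2 _ _
  have e2 : w = (w + ∑ j, C.P j w) + ∑ j, C.P j w := by
    rw [add_assoc, ZModModule.add_self, add_zero]
  rw [e2, map_add, hI _ _ hrU (C.sumU w), zero_add, map_sum]
  refine Finset.sum_eq_zero fun j _ => ?_
  rw [C.eig j _ _ hrU, hrχ, zero_smul]

include hx hχ hL hI hα in
theorem q_right (j : Fin k) (v w : V) :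
    q (p C xs β j v) w = q (p C xs β j v) (p C xs β j w) := by
  have h1 : q (p C xs β j v) (w + ∑ i, p C xs β i w) = 0 := by
    rw [hL.symm]
    exact rad hx hχ hL hI w _
  rw [map_add, map_sum, Finset.sum_eq_single j] at h1
  · exact eq_of_add_eq_zero' h1
  · intro i _ hi
    exact q_ne hx hχ hL hI hα i j hi v w
  · intro h
    exact absurd (Finset.mem_univ j) h

include hx hχ hL hI hα in
theorem q_sum (v w : V) : q v w = ∑ i, q (p C xs β i v) (p C xs β i w) := by
  have h1 : q (v + ∑ i, p C xs β i v) w = 0 := rad hx hχ hL hI v w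
  rw [map_add, LinearMap.add_apply, map_sum, LinearMap.sum_apply] at h1
  rw [eq_of_add_eq_zero' h1]
  exact Finset.sum_congr rfl fun i _ => q_right hx hχ hL hI hα i v w

theorem indep (z : Fin k → V) (h : ∑ i, q x (C.P i (z i)) = 0) (j : Fin k) :
    q x (C.P j (z j)) = 0 := by
  rw [← map_sum] at h
  have h1 := C.PU j _ h
  rw [map_sum, Finset.sum_eq_single j] at h1
  · rw [C.PP] at h1
    rw [h1, map_zero]
  · intro i _ hi
    exact C.orth j i (Ne.symm hi) _
  · intro h
    exact absurd (Finset.mem_univ j) h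

end

end RFF_

open RFF_ in
theorem rff_proof (hSCA : Stmt_SCA) (hCMP : Stmt_CMP) (hIND : Stmt_IND) (hALL : Stmt_ALL) :
    Stmt_RFF := by
  intro V B _ _ _ _ _ q x k hL hN hR hI C
  classical
  obtain ⟨α, hαP, hα⟩ := hSCA V B q x k hL hR hI C
  have hxs : ∀ j, ∃ u, q x u = 0 ∧ ∀ i, C.χ i u = if i = j then 1 else 0 := fun j =>
    hALL V B q x k hL hR hI C fun i => if i = j then 1 else 0
  choose xs hx hχ' using hxs
  have hχ : ∀ i j, C.χ i (xs j) = if i = j then 1 else 0 := fun i j => hχ' j i
  set β : Fin k → Fin k → (V →ₗ[ZMod 2] ZMod 2) := fun i j => if i = j then 0 else α i j with hβ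
  have hβ0 : ∀ i, β i i = 0 := fun i => by simp [hβ]
  have hβne : ∀ i j, i ≠ j → β i j = α i j := fun i j h => by simp [hβ, h]
  have hβP : ∀ i j v, β i j (C.P j v) = β i j v := by
    intro i j v
    by_cases h : i = j
    · rw [h, hβ0]; rfl
    · rw [hβne i j h, hαP]
  have hβα : ∀ i j v z, i ≠ j →
      q (C.P i v) (C.P j z) = β i j z • q x (C.P i v) + β j i v • q x (C.P j z) := by
    intro i j v z h
    rw [hβne i j h, hβne j i (Ne.symm h)]
    exact hα i j v z h
  have hpp := p_p (C := C) (xs := xs) (β := β) hx hχ hβP hβ0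
  refine ⟨k, {
    p := p C xs β
    idem := fun j v => by rw [hpp, if_pos rfl]
    orth := fun i j h v => by rw [hpp, if_neg h]
    perp := ?_
    rad := ?_
    ind := ?_
    nd := ?_
    ne := ?_ }, ?_⟩
  · intro j v w
    show q (p C xs β j v) (w + p C xs β j w) = 0
    rw [map_add, ← q_right hx hχ hL hI hβα, ZModModule.add_self]
  · intro v w
    exact rad hx hχ hL hI v w
  · intro v w hvw j
    have hvw' : q v w = 0 := hvw
    have h1 : ∀ i, ∃ z, q x (C.P i z) = q (p C xs β i v) (p C xs β i w) := by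
      intro i
      obtain ⟨w', hw'⟩ := hIND V B q x k hL hR hI C v w 0 (by rw [map_zero, hvw']) i
      obtain ⟨z', hz'⟩ := hCMP V B q x k hL hR hI C i v w w' hw'
      rw [q_pp hx hL hI, ← hz']
      refine ⟨z' + (C.χ i (Ax C xs β i v) • w + C.χ i (Ax C xs β i w) • v), ?_⟩
      simp only [map_add, map_smul]
    choose z hz using h1
    have h2 : ∑ i, q x (C.P i (z i)) = 0 := by
      rw [Finset.sum_congr rfl fun i _ => hz i, ← q_sum hx hχ hL hI hβα, hvw']
    have h3 := indep z h2 j
    rw [hz] at h3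
    exact h3
  · intro j v h
    apply hN
    intro w
    rw [q_right hx hχ hL hI hβα]
    exact h w
  · intro j
    refine ⟨xs j, ?_⟩
    intro h
    have h1 := χ_p (C := C) (xs := xs) (β := β) hχ j j (xs j)
    rw [h, map_zero, if_pos rfl, m_apply, hχ, if_pos rfl] at h1
    have h2 : ∀ l, β j l (xs j) = 0 := by
      intro l
      rw [← hβP, C.PU l _ (hx j), map_zero]
    rw [Finset.sum_eq_zero fun l _ => h2 l, h2] at h1
    exact absurd h1 (by decide)
  · intro j
    right
    have h0 : ∀ l i, β i l (xs j) = 0 := by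
      intro l i
      rw [← hβP, C.PU l _ (hx j), map_zero]
    have hpx : p C xs β j (xs j) = xs j := by
      rw [p_apply, C.PU j _ (hx j), zero_add, Ax_apply, m_apply, hχ, if_pos rfl,
        Finset.sum_eq_zero fun l _ => h0 l j, add_zero, one_smul,
        Finset.sum_eq_zero fun l _ => by rw [h0 j l, zero_smul], add_zero]
    refine ⟨xs j, hpx, ?_, ?_⟩
    · intro h
      have h1 := hχ j j
      rw [h, map_zero, if_pos rfl] at h1
      exact absurd h1 (by decide)
    · intro v hv
      have hv' : q (xs j) (p C xs β j v) = 0 := hv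
      rw [p_apply, map_add, C.eig j _ _ (hx j), hχ, if_pos rfl, one_smul,
        hI _ _ (hx j) (Ax_U hx j v), add_zero] at hv'
      have h1 : C.P j v = 0 := by
        have := C.PU j _ hv'
        rwa [C.PP] at this
      have h2 : ∀ l, β l j v = 0 := by
        intro l
        rw [← hβP, h1, map_zero]
      show p C xs β j v = 0 ∨ p C xs β j v = xs j
      rw [p_apply, h1, zero_add, Ax_apply,
        Finset.sum_eq_zero fun l _ => by rw [h2 l, zero_smul], add_zero]
      rcases zm (m C β j v) with h3 | h3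
      · left; rw [h3, zero_smul]
      · right; rw [h3, one_smul]

end Pool.Agent.GTW
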