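import Pool.Agent.GTW.Stmts

/-!
GTW, module RFT: regular element `x` with `V_x` totally isotropic.
-/

set_option autoImplicit false

namespace Pool.Agent.GTW

open Module CommonSlot Pool.Agent.ETG
open scoped BigOperators

namespace RFT_

section lin
variable {M : Type} [AddCommGroup M] [Module (ZMod 2) M]

theorem self (a : M) : a + a = 0 := ZModModule.add_self a

theorem cancel (a b : M) : a + (a + b) = b := by rw [← add_assoc, self, zero_add]

theorem eq_of (a b : M) (h : a + b = 0) : a = b := by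
  rw [← add_zero a, ← self b, ← add_assoc, h, zero_add]

theorem add_eq {a b : M} (h : a = b) : a + b = 0 := by rw [h, self]

/-- idempotent operators commute -/
theorem comm (E : M →ₗ[ZMod 2] M →ₗ[ZMod 2] M) (U T : Submodule (ZMod 2) M)
    (_hT : ∀ u ∈ U, ∀ t ∈ T, E u t ∈ T) (hE : ∀ u ∈ U, ∀ t ∈ T, E u (E u t) = E u t)
    (a b : M) (ha : a ∈ U) (hb : b ∈ U) (t : M) (ht : t ∈ T) : E a (E b t) = E b (E a t) := by
  have h := hE (a + b) (U.add_mem ha hb) t ht
  simp only [map_add, LinearMap.add_apply] at h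
  rw [hE a ha t ht, hE b hb t ht] at h
  apply eq_of
  have h2 := add_eq h
  have h3 : E a (E b t) + E b (E a t) = E a t + E b (E a t) + (E a (E b t) + E b t) +
      (E a t + E b t) := by
    have e1 := self (E a t)
    have e2 := self (E b t)
    calc E a (E b t) + E b (E a t) = (E a t + E a t) + (E b t + E b t) + (E a (E b t) +
          E b (E a t)) := by rw [e1, e2, add_zero, zero_add]
      _ = _ := by abel
  rw [h3, h2]

variable [Finite M]

theorem full (E : M →ₗ[ZMod 2] M →ₗ[ZMod 2] M) (U T : Submodule (ZMod 2) M)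
    (hT : ∀ u ∈ U, ∀ t ∈ T, E u t ∈ T) (hE : ∀ u ∈ U, ∀ t ∈ T, E u (E u t) = E u t) :
    ∃ v ∈ T, ∀ u ∈ U, E u v = 0 → ∀ t ∈ T, E u t = 0 := by
  obtain ⟨⟨v, hv⟩, hmin⟩ := Finite.exists_min
    (fun v : T => Set.ncard {u : M | u ∈ U ∧ E u (v : M) = 0})
  refine ⟨v, hv, fun a ha hav t ht => ?_⟩
  by_contra hne
  set u0 := E a t with hu0
  have hu0T : u0 ∈ T := hT a ha t ht
  have hau : E a u0 = u0 := hE a ha t ht
  have hlt : Set.ncard {u : M | u ∈ U ∧ E u (v + u0) = 0} <
      Set.ncard {u : M | u ∈ U ∧ E u v = 0} := by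
    apply Set.ncard_lt_ncard
    · constructor
      · rintro b ⟨hb, hb0⟩
        refine ⟨hb, ?_⟩
        rw [map_add] at hb0
        have h1 : E b v = E b u0 := eq_of _ _ hb0
        have h2 : E a (E b v) = 0 := by
          rw [comm E U T hT hE a b ha hb v hv, hav, map_zero]
        have h3 : E a (E b u0) = E b u0 := by
          rw [comm E U T hT hE a b ha hb u0 hu0T, hau]
        rw [h1] at h2 ⊢
        rw [h3] at h2
        exact h2
      · intro hsub
        have : a ∈ {u : M | u ∈ U ∧ E u (v + u0) = 0} := hsub ⟨ha, hav⟩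
        have h4 := this.2
        rw [map_add, hav, hau, zero_add] at h4
        exact hne h4
    · exact Set.toFinite _
  exact absurd (hmin ⟨v + u0, T.add_mem hv hu0T⟩) (not_le.2 hlt)

theorem scal (E : M →ₗ[ZMod 2] M →ₗ[ZMod 2] M) (U T : Submodule (ZMod 2) M)
    (hT : ∀ u ∈ U, ∀ t ∈ T, E u t ∈ T) (hE : ∀ u ∈ U, ∀ t ∈ T, E u (E u t) = E u t)
    (φ : M →ₗ[ZMod 2] M) (hφ : ∀ t ∈ T, ∃ u ∈ U, φ t = E u t) :
    ∃ u ∈ U, ∀ t ∈ T, φ t = E u t := by
  have hcomm := comm E U T hT hE
  have hφT : ∀ t ∈ T, φ t ∈ T := by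
    intro t ht
    obtain ⟨u, hu, h⟩ := hφ t ht
    rw [h]
    exact hT u hu t ht
  -- `φ` commutes with the operators
  have hc : ∀ a ∈ U, ∀ t ∈ T, E a (φ t) = φ (E a t) := by
    intro a ha t ht
    have haT := hT a ha t ht
    obtain ⟨b, hb, h1⟩ := hφ _ haT
    have htT : t + E a t ∈ T := T.add_mem ht haT
    obtain ⟨b', hb', h2⟩ := hφ _ htT
    have e1 : E a (φ (E a t)) = φ (E a t) := by
      rw [h1, hcomm a b ha hb _ haT, hE a ha t ht]
    have e2 : E a (φ (t + E a t)) = 0 := by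
      rw [h2, hcomm a b' ha hb' _ htT, map_add, hE a ha t ht, self, map_zero]
    have e3 : φ t = φ (E a t) + φ (t + E a t) := by
      rw [← map_add]
      congr 1
      rw [add_comm t, cancel]
    rw [e3, map_add, e1, e2, add_zero]
  obtain ⟨v, hv, hfull⟩ := full E U T hT hE
  obtain ⟨g, hg, hgv⟩ := hφ v hv
  refine ⟨g, hg, ?_⟩
  by_contra hcon
  push Not at hcon
  obtain ⟨t, ht, hne⟩ := hcon
  -- `ψ = φ + E g`
  have hψ0 : φ t + E g t ≠ 0 := fun h => hne (eq_of _ _ h)
  obtain ⟨h', hh', he'⟩ := hφ t ht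
  obtain ⟨h, hhdef⟩ : ∃ h, h = h' + g := ⟨_, rfl⟩
  have hh : h ∈ U := by rw [hhdef]; exact U.add_mem hh' hg
  have hht : φ t + E g t = E h t := by
    rw [he', hhdef, map_add, LinearMap.add_apply]
  obtain ⟨u, hu⟩ : ∃ u, u = E h t := ⟨_, rfl⟩
  have huT : u ∈ T := by rw [hu]; exact hT h hh t ht
  have hune : u ≠ 0 := by rw [hu, ← hht]; exact hψ0
  have hψu : φ u + E g u = u := by
    rw [hu, ← hc h hh t ht, hcomm g h hg hh t ht, ← map_add, hht, hE h hh t ht]
  -- apply to `v + u`
  have hvuT : v + u ∈ T := T.add_mem hv huT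
  obtain ⟨k', hk', hek'⟩ := hφ _ hvuT
  obtain ⟨k, hkdef⟩ : ∃ k, k = k' + g := ⟨_, rfl⟩
  have hk : k ∈ U := by rw [hkdef]; exact U.add_mem hk' hg
  have hkv : E k (v + u) = u := by
    have h1 : E k (v + u) = φ (v + u) + E g (v + u) := by
      rw [hkdef, hek']
      simp only [map_add, LinearMap.add_apply]
      abel
    have h2 : φ (v + u) + E g (v + u) = (φ v + E g v) + (φ u + E g u) := by
      rw [map_add, map_add]; abel
    rw [h1, h2, hψu, hgv, self, zero_add]
  have hkv' : E k v = u + E k u := by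
    rw [map_add] at hkv
    apply eq_of
    have : E k v + (u + E k u) = (E k v + E k u) + u := by abel
    rw [this, hkv, self]
  have hkk : E k v = 0 := by
    have h1 : E k (E k v) = E k (u + E k u) := congrArg (E k) hkv'
    have h2 : E k (u + E k u) = 0 := by rw [map_add, hE k hk u huT, self]
    rw [h2, hE k hk v hv] at h1
    exact h1
  have hk0 := hfull k hk hkk u huT
  have : u = 0 := by
    rw [← hkv, map_add, hkk, hk0, add_zero]
  exact hune this

end lin

section str
variable {V B : Type} [AddCommGroup V] [Module (ZMod 2) V] [AddCommGroup B] [Module (ZMod 2) B]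

theorem al (q : V →ₗ[ZMod 2] V →ₗ[ZMod 2] B) (a b c : V) : q (a + b) c = q a c + q b c := by
  rw [map_add, LinearMap.add_apply]

/-- the hypotheses; `s` is a section of `q x` on its range -/
structure St (q : V →ₗ[ZMod 2] V →ₗ[ZMod 2] B) (x : V) (s : B →ₗ[ZMod 2] V) : Prop where
  lk : IsLinked q 0
  nd : Nd q
  rg : Rg q x
  iso : Iso q x
  hs : ∀ v, q x (s (q x v)) = q x v

theorem exists_sec (q : V →ₗ[ZMod 2] V →ₗ[ZMod 2] B) (x : V) :
    ∃ s : B →ₗ[ZMod 2] V, ∀ v, q x (s (q x v)) = q x v := by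
  obtain ⟨g, hg⟩ := ((q x).rangeRestrict).exists_rightInverse_of_surjective
    (LinearMap.range_rangeRestrict _)
  obtain ⟨s, hs⟩ := LinearMap.exists_extend g
  refine ⟨s, fun v => ?_⟩
  have h1 : s (q x v) = g ((q x).rangeRestrict v) := by
    rw [← hs]; rfl
  rw [h1]
  have h2 := LinearMap.congr_fun hg ((q x).rangeRestrict v)
  exact congrArg Subtype.val h2

variable {q : V →ₗ[ZMod 2] V →ₗ[ZMod 2] B} {x : V} {s : B →ₗ[ZMod 2] V}

theorem St.xx (h : St q x s) : q x x = 0 := by rw [h.lk.diag, map_zero]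

theorem St.dg (h : St q x s) (a : V) : q a a = 0 := by rw [h.lk.diag, map_zero]

/-- `q x (F u v) = q u v` -/
theorem St.qF (h : St q x s) {u : V} (hu : q x u = 0) (v : V) : q x (s (q u v)) = q u v := by
  obtain ⟨z, hz⟩ := h.rg u v hu
  rw [← hz, h.hs]

/-- idempotent in the form of values -/
theorem St.id0 (h : St q x s) {u v z : V} (hu : q x u = 0) (hz : q x z = q u v) :
    q u z = q u v := by
  obtain ⟨t, h1, h2⟩ := h.lk.link u v x z hz.symm
  have h3 : q x (t + z) = 0 := by rw [map_add, h2, hz, self]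
  have h4 := h.iso u (t + z) hu h3
  rw [map_add] at h4
  rw [← eq_of _ _ h4, h1]

theorem St.FF (h : St q x s) {u : V} (hu : q x u = 0) (v : V) : s (q u (s (q u v))) = s (q u v) := by
  rw [h.id0 hu (h.qF hu v)]

/-- only the class modulo `U` matters -/
theorem St.mod (h : St q x s) {u v w : V} (hu : q x u = 0) (hv : q x v = q x w) :
    q u v = q u w := by
  have h3 : q x (v + w) = 0 := by rw [map_add, hv, self]
  have h4 := h.iso u (v + w) hu h3
  rw [map_add] at h4
  exact eq_of _ _ h4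

theorem St.uu (h : St q x s) {u v : V} (hu : q x u = 0) (hv : q x v = 0) : q u v = 0 :=
  h.iso u v hu hv

theorem St.Fx (h : St q x s) {u : V} (hu : q x u = 0) (v : V) :
    s (q u (s (q x v))) = s (q u v) := by
  rw [h.mod hu (h.hs v)]

theorem St.xF (h : St q x s) {u : V} (hu : q x u = 0) (v : V) :
    s (q x (s (q u v))) = s (q u v) := by
  rw [h.qF hu]

theorem St.cm (h : St q x s) {a b : V} (ha : q x a = 0) (hb : q x b = 0) (v : V) :
    s (q a (s (q b v))) = s (q b (s (q a v))) := by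
  have := comm (q.compr₂ s) (LinearMap.ker (q x)) ⊤ (fun _ _ _ _ => trivial)
    (fun u hu t _ => by
      simp only [LinearMap.compr₂_apply]
      exact h.FF (LinearMap.mem_ker.1 hu) t) a b ha hb v trivial
  simpa only [LinearMap.compr₂_apply] using this

/-- the fundamental consequence of linkage -/
theorem star (lk : IsLinked q 0) {v y s0 v' : V} (h1 : q x v = q y s0) (h2 : q y v' = 0) :
    ∃ a g, q x a = 0 ∧ q x g = 0 ∧ q (v' + a) (v + g) = 0 := by
  have dg : ∀ a, q a a = 0 := fun a => by rw [lk.diag, map_zero]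
  obtain ⟨t, ht1, ht2⟩ := lk.link x v y s0 h1
  -- `q x t = q x v = q y t`
  have h3 : q (t + v') y = q x v := by
    rw [lk.symm, map_add, h2, add_zero, ht2]
  obtain ⟨z, hz1, hz2⟩ := lk.link (t + v') y x v h3
  rw [h3] at hz1 hz2
  have e1 : q (t + v' + x) z = 0 := by
    rw [map_add, LinearMap.add_apply, hz1, hz2, self]
  have e2 : q (t + v' + x + z) z = 0 := by
    rw [map_add, LinearMap.add_apply, e1, dg, add_zero]
  refine ⟨t + x + z, v + z, ?_, ?_, ?_⟩
  · rw [map_add, map_add, ht1, dg, add_zero, hz2, self]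
  · rw [map_add, hz2, self]
  · rw [cancel v z, show v' + (t + x + z) = t + v' + x + z by abel]
    exact e2

theorem St.s0 (h : St q x s) {u v : V} (hu : q x u = 0) (h0 : s (q u v) = 0) : q u v = 0 := by
  rw [← h.qF hu v, h0, map_zero]

theorem St.add (_h : St q x s) {u v : V} (hu : q x u = 0) (hv : q x v = 0) : q x (u + v) = 0 := by
  rw [map_add, hu, hv, add_zero]

/-- `q w (F u t) = 0` if `q w t = 0` -/
theorem St.st0 (h : St q x s) {w u t : V} (hw : q x w = 0) (hu : q x u = 0) (ht : q w t = 0) :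
    q w (s (q u t)) = 0 := by
  apply h.s0 hw
  rw [h.cm hw hu, ht, map_zero, map_zero, map_zero]

theorem St.cross (h : St q x s) {w a z : V} (_hw : q x w = 0) (ha : q w a = 0)
    (hz : q (x + w) z = 0) :
    ∃ g α, q x g = 0 ∧ q x α = 0 ∧ q a z = q g a + q α z := by
  have h1 : q x z = q w z := by
    rw [map_add, LinearMap.add_apply] at hz
    exact eq_of _ _ hz
  obtain ⟨α, g, hα, hg, he⟩ := star h.lk h1 ha
  refine ⟨g, α, hg, hα, ?_⟩
  have h2 : q α g = 0 := h.uu hα hg
  simp only [map_add, LinearMap.add_apply, h2, add_zero] at he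
  apply eq_of
  rw [h.lk.symm g a, ← he]
  abel

/-- the submodule `V_0^*` -/
def PP (q : V →ₗ[ZMod 2] V →ₗ[ZMod 2] B) (x : V) (s : B →ₗ[ZMod 2] V) (w : V) :
    Submodule (ZMod 2) V where
  carrier := {a | q w a = 0 ∧ ∀ z, q (x + w) z = 0 → s (q w (s (q a z))) = 0}
  zero_mem' := ⟨map_zero _, fun z _ => by simp⟩
  add_mem' := by
    rintro a b ⟨ha, ha'⟩ ⟨hb, hb'⟩
    refine ⟨by rw [map_add, ha, hb, add_zero], fun z hz => ?_⟩
    simp only [map_add, LinearMap.add_apply, ha' z hz, hb' z hz, add_zero]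
  smul_mem' := by
    rintro c a ⟨ha, ha'⟩
    refine ⟨by rw [map_smul, ha, smul_zero], fun z hz => ?_⟩
    simp only [map_smul, LinearMap.smul_apply, ha' z hz, smul_zero]

theorem mem_PP {w a : V} : a ∈ PP q x s w ↔
    q w a = 0 ∧ ∀ z, q (x + w) z = 0 → s (q w (s (q a z))) = 0 := Iff.rfl

theorem xxw (w : V) : x + (x + w) = w := cancel x w

/-- `T_0` -/
def TT (q : V →ₗ[ZMod 2] V →ₗ[ZMod 2] B) (x : V) (s : B →ₗ[ZMod 2] V) (w : V) :
    Submodule (ZMod 2) V where
  carrier := {t | s (q x t) = t ∧ q w t = 0}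
  zero_mem' := by simp
  add_mem' := by
    rintro a b ⟨ha, ha'⟩ ⟨hb, hb'⟩
    exact ⟨by rw [map_add, map_add, ha, hb], by rw [map_add, ha', hb', add_zero]⟩
  smul_mem' := by
    rintro c a ⟨ha, ha'⟩
    exact ⟨by rw [map_smul, map_smul, ha], by rw [map_smul, ha', smul_zero]⟩

theorem mem_TT {w a : V} : a ∈ TT q x s w ↔ s (q x a) = a ∧ q w a = 0 := Iff.rfl

theorem St.tT (h : St q x s) {w u t : V} (hw : q x w = 0) (hu : q x u = 0)
    (ht : t ∈ TT q x s w) : s (q u t) ∈ TT q x s w :=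
  ⟨h.xF hu t, h.st0 hw hu ht.2⟩

variable [Finite V]

theorem St.half (h : St q x s) {w z : V} (hw : q x w = 0) (hz : q (x + w) z = 0) :
    ∃ g, q x g = 0 ∧ z + g ∈ PP q x s (x + w) := by
  have hxw : q x (x + w) = 0 := h.add h.xx hw
  have key : ∀ α, q x α = 0 → q (x + w) (s (q α z)) = 0 := fun α hα => h.st0 hxw hα hz
  have key2 : ∀ g t, q x g = 0 → q w t = 0 → q (x + w) (s (q g t)) = q g t := by
    intro g t hg ht
    rw [map_add, LinearMap.add_apply, h.qF hg, h.st0 hw hg ht, add_zero]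
  obtain ⟨g, hg, hgt⟩ := scal (q.compr₂ s) (LinearMap.ker (q x)) (TT q x s w)
    (fun u hu t ht => by
      rw [LinearMap.compr₂_apply]; exact h.tT hw (LinearMap.mem_ker.1 hu) ht)
    (fun u hu t _ => by
      simp only [LinearMap.compr₂_apply]
      exact h.FF (LinearMap.mem_ker.1 hu) t)
    ((s.comp (q (x + w))).comp (s.comp (q.flip z))) (by
      intro t ht
      obtain ⟨g, α, hg, hα, he⟩ := h.cross hw ht.2 hz
      refine ⟨g, LinearMap.mem_ker.2 hg, ?_⟩
      simp only [LinearMap.comp_apply, LinearMap.flip_apply, LinearMap.compr₂_apply]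
      rw [he, map_add s, map_add (q (x + w)), key α hα, add_zero, key2 g t hg ht.2])
  have hg' : q x g = 0 := LinearMap.mem_ker.1 hg
  refine ⟨g, hg', ?_, ?_⟩
  · rw [map_add, hz, zero_add]
    exact h.uu hxw hg'
  · intro a ha
    rw [xxw] at ha
    set t := s (q x a) with ht
    have hxt : q x t = q x a := h.hs a
    have hwt : q w t = 0 := by rw [h.mod hw hxt, ha]
    have htT : t ∈ TT q x s w := ⟨by rw [hxt], hwt⟩
    have h1 := hgt t htT
    simp only [LinearMap.comp_apply, LinearMap.flip_apply, LinearMap.compr₂_apply] at h1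
    -- `a = t + u`
    have hu : q x (a + t) = 0 := by rw [map_add, hxt, self]
    have h2 : s (q (x + w) (s (q (a + t) z))) = 0 := by
      rw [key (a + t) hu, map_zero]
    have h3 : s (q (x + w) (s (q z a))) = s (q g t) := by
      rw [← h1]
      apply eq_of
      rw [← h2, h.lk.symm z a]
      simp only [map_add, LinearMap.add_apply]
    have h4 : q g a = q g t := h.mod hg' hxt.symm
    rw [al q z g a, map_add s, map_add (q (x + w)), map_add s, h3, h4, key2 g t hg' hwt, self]

theorem St.half' (h : St q x s) {w z : V} (hw : q x w = 0) (hz : q w z = 0) :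
    ∃ g, q x g = 0 ∧ z + g ∈ PP q x s w := by
  have hxw : q x (x + w) = 0 := h.add h.xx hw
  have := h.half (w := x + w) (z := z) hxw (by rw [xxw]; exact hz)
  rwa [xxw] at this

omit [Finite V] in
theorem St.perp (h : St q x s) {w a z : V} (hw : q x w = 0) (ha : a ∈ PP q x s w)
    (hz : z ∈ PP q x s (x + w)) : q a z = 0 := by
  have hxw : q x (x + w) = 0 := h.add h.xx hw
  obtain ⟨g, α, hg, hα, he⟩ := h.cross hw ha.1 hz.1
  have h1 : q x (s (q a z)) = q a z := by
    rw [he, map_add, map_add, h.qF hg, h.qF hα]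
  have h2 : q w (s (q a z)) = 0 := h.s0 hw (ha.2 z hz.1)
  have h3 : q (x + w) (s (q a z)) = 0 := by
    rw [h.lk.symm a z]
    exact h.s0 hxw (hz.2 a (by rw [xxw]; exact ha.1))
  rw [map_add, LinearMap.add_apply, h2, add_zero, h1] at h3
  exact h3

omit [Finite V] in
theorem St.mem0 (h : St q x s) {w u : V} (hw : q x w = 0) (hu : q x u = 0)
    (ht : ∀ t, q (x + w) t = 0 → q u t = 0) : u ∈ PP q x s w :=
  ⟨h.uu hw hu, fun z hz => by rw [ht z hz, map_zero, map_zero, map_zero]⟩

theorem St.split (h : St q x s) {w u : V} (hw : q x w = 0) (hu : q x u = 0) :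
    ∃ u0 u1, u = u0 + u1 ∧ u0 ∈ PP q x s w ∧ u1 ∈ PP q x s (x + w) := by
  have hxw : q x (x + w) = 0 := h.add h.xx hw
  have idem : ∀ u ∈ LinearMap.ker (q x), ∀ t : V, (q.compr₂ s) u ((q.compr₂ s) u t) =
      (q.compr₂ s) u t := fun u hu t => by
    simp only [LinearMap.compr₂_apply]
    exact h.FF (LinearMap.mem_ker.1 hu) t
  obtain ⟨v0, hv0, hf0⟩ := full (q.compr₂ s) (LinearMap.ker (q x)) (TT q x s w)
    (fun u hu t ht => by
      rw [LinearMap.compr₂_apply]; exact h.tT hw (LinearMap.mem_ker.1 hu) ht)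
    (fun u hu t _ => idem u hu t)
  obtain ⟨v1, hv1, hf1⟩ := full (q.compr₂ s) (LinearMap.ker (q x)) (TT q x s (x + w))
    (fun u hu t ht => by
      rw [LinearMap.compr₂_apply]; exact h.tT hxw (LinearMap.mem_ker.1 hu) ht)
    (fun u hu t _ => idem u hu t)
  obtain ⟨g0, hg0, ha0⟩ := h.half' hw hv0.2
  obtain ⟨g1, hg1, ha1⟩ := h.half hw hv1.2
  obtain ⟨a0, ha0e⟩ : ∃ a, a = v0 + g0 := ⟨_, rfl⟩
  obtain ⟨a1, ha1e⟩ : ∃ a, a = v1 + g1 := ⟨_, rfl⟩
  rw [← ha0e] at ha0
  rw [← ha1e] at ha1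
  have hxa0 : q x a0 = q x v0 := by rw [ha0e, map_add, hg0, add_zero]
  have hxa1 : q x a1 = q x v1 := by rw [ha1e, map_add, hg1, add_zero]
  have e0 : q a1 a0 = 0 := by rw [h.lk.symm]; exact h.perp hw ha0 ha1
  have e1 : q (a0 + a1 + u) (x + w) = q x a0 := by
    have i1 : q a0 (x + w) = q x a0 := by
      rw [map_add, h.lk.symm a0 x, h.lk.symm a0 w, ha0.1, add_zero]
    have i2 : q a1 (x + w) = 0 := by rw [h.lk.symm]; exact ha1.1
    have i3 : q u (x + w) = 0 := h.uu hu hxw
    rw [al, al, i1, i2, i3, add_zero, add_zero]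
  obtain ⟨z, hz1, hz2⟩ := h.lk.link _ _ _ _ e1
  rw [e1] at hz1 hz2
  obtain ⟨g, hg⟩ : ∃ g, g = z + a0 := ⟨_, rfl⟩
  have hgx : q x g = 0 := by rw [hg, map_add, hz2, self]
  have hze : z = a0 + g := by rw [hg, add_comm z, cancel]
  rw [hze] at hz1
  have e2 : q (g + u + x) a0 = q g a1 := by
    have j1 : q u g = 0 := h.uu hu hgx
    have j2 : q a0 a0 = 0 := h.dg a0
    simp only [map_add, LinearMap.add_apply, j1, j2, e0] at hz1
    rw [h.lk.symm a0 g, h.lk.symm a1 g] at hz1
    apply eq_of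
    have j3 := add_eq hz1
    simp only [map_add, LinearMap.add_apply]
    rw [← j3]
    abel
  obtain ⟨k, hk⟩ : ∃ k, k = g + u + x := ⟨_, rfl⟩
  have hkx : q x k = 0 := by rw [hk]; exact h.add (h.add hgx hu) h.xx
  rw [← hk, h.mod hkx hxa0, h.mod hgx hxa1] at e2
  have e3 : q g v1 = 0 := by
    apply h.s0 hgx
    have j1 : s (q w (s (q k v0))) = 0 := by rw [h.st0 hw hkx hv0.2, map_zero]
    have j2 : s (q w (s (q g v1))) = s (q g v1) := by
      rw [h.cm hw hgx]
      have : q w v1 = q x v1 := by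
        have := hv1.2
        rw [map_add, LinearMap.add_apply] at this
        exact (eq_of _ _ this).symm
      rw [this, h.Fx hgx]
    rw [← j2, ← e2, j1]
  have e4 : q k v0 = 0 := by rw [e2, e3]
  have f1 : ∀ t, q (x + w) t = 0 → q g t = 0 := by
    intro t ht
    have hxt : q x (s (q x t)) = q x t := h.hs t
    have hm : s (q x t) ∈ TT q x s (x + w) :=
      ⟨by rw [hxt], by rw [h.mod hxw hxt, ht]⟩
    have := hf1 g (LinearMap.mem_ker.2 hgx)
      (by rw [LinearMap.compr₂_apply, e3, map_zero]) _ hm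
    rw [LinearMap.compr₂_apply] at this
    rw [h.mod hgx hxt.symm]
    exact h.s0 hgx this
  have f0 : ∀ t, q w t = 0 → q k t = 0 := by
    intro t ht
    have hxt : q x (s (q x t)) = q x t := h.hs t
    have hm : s (q x t) ∈ TT q x s w :=
      ⟨by rw [hxt], by rw [h.mod hw hxt, ht]⟩
    have := hf0 k (LinearMap.mem_ker.2 hkx)
      (by rw [LinearMap.compr₂_apply, e4, map_zero]) _ hm
    rw [LinearMap.compr₂_apply] at this
    rw [h.mod hkx hxt.symm]
    exact h.s0 hkx this
  refine ⟨g + (x + w), k + w, ?_, ?_, ?_⟩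
  · rw [hk]
    have c1 := self g
    have c2 := self x
    have c3 := self w
    have : g + (x + w) + (g + u + x + w) = (g + g) + (x + x) + (w + w) + u := by abel
    rw [this, c1, c2, c3]
    simp
  · refine h.mem0 hw (h.add hgx hxw) fun t ht => ?_
    rw [map_add, LinearMap.add_apply, f1 t ht, ht, add_zero]
  · refine h.mem0 hxw (h.add hkx hw) fun t ht => ?_
    rw [xxw] at ht
    rw [map_add, LinearMap.add_apply, f0 t ht, ht, add_zero]

theorem St.compl (h : St q x s) {w : V} (hw : q x w = 0) :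
    IsCompl (PP q x s w) (PP q x s (x + w)) := by
  have hxw : q x (x + w) = 0 := h.add h.xx hw
  have htop : ∀ v, ∃ a0 ∈ PP q x s w, ∃ a1 ∈ PP q x s (x + w), a0 + a1 = v := by
    intro v
    obtain ⟨t1, ht1⟩ : ∃ t, t = s (q w v) := ⟨_, rfl⟩
    obtain ⟨t0, ht0⟩ : ∃ t, t = s (q (x + w) v) := ⟨_, rfl⟩
    have hx1 : q x t1 = q w v := by rw [ht1, h.qF hw]
    have hx0 : q x t0 = q (x + w) v := by rw [ht0, h.qF hxw]
    have h1 : q (x + w) t1 = 0 := by
      rw [map_add, LinearMap.add_apply, hx1, h.id0 hw hx1, self]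
    have h0 : q w t0 = 0 := by
      apply h.s0 hw
      rw [ht0, h.cm hw hxw, ← ht1, h1, map_zero]
    obtain ⟨g0, hg0, ha0⟩ := h.half' hw h0
    obtain ⟨g1, hg1, ha1⟩ := h.half hw h1
    have hu : q x (v + t0 + t1 + g0 + g1) = 0 := by
      simp only [map_add, hx0, hx1, hg0, hg1, add_zero, LinearMap.add_apply]
      have c1 := self (q x v)
      have c2 := self (q w v)
      have : q x v + (q x v + q w v) + q w v = (q x v + q x v) + (q w v + q w v) := by abel
      rw [this, c1, c2, add_zero]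
    obtain ⟨u0, u1, he, hu0, hu1⟩ := h.split hw hu
    refine ⟨t0 + g0 + u0, (PP q x s w).add_mem ha0 hu0, t1 + g1 + u1,
      (PP q x s (x + w)).add_mem ha1 hu1, ?_⟩
    have : t0 + g0 + u0 + (t1 + g1 + u1) = t0 + g0 + t1 + g1 + (u0 + u1) := by abel
    rw [this, ← he]
    have c0 := self t0
    have c1 := self t1
    have d0 := self g0
    have d1 := self g1
    have : t0 + g0 + t1 + g1 + (v + t0 + t1 + g0 + g1) =
      (t0 + t0) + (t1 + t1) + (g0 + g0) + (g1 + g1) + v := by abel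
    rw [this, c0, c1, d0, d1]
    simp
  constructor
  · rw [Submodule.disjoint_def]
    intro v hv0 hv1
    apply h.nd
    intro y
    obtain ⟨a0, ha0, a1, ha1, rfl⟩ := htop y
    rw [map_add, h.perp hw hv0 ha1, h.lk.symm v a0, h.perp hw ha0 hv1, add_zero]
  · rw [codisjoint_iff, eq_top_iff]
    intro v _
    obtain ⟨a0, ha0, a1, ha1, rfl⟩ := htop v
    exact Submodule.add_mem_sup ha0 ha1

omit [Finite V] in
/-- values of pairs of `V_w` inside `Q_x` -/
theorem St.iv (h : St q x s) {w a b z : V} (hw : q x w = 0) (ha : q w a = 0) (hb : q w b = 0)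
    (he : q a b = q x z) : q w z = 0 := by
  obtain ⟨s1, h1, h2⟩ := h.lk.link _ _ _ _ he
  have he' : q (a + w) b = q x z := by rw [map_add, LinearMap.add_apply, hb, add_zero, he]
  obtain ⟨s2, h3, h4⟩ := h.lk.link _ _ _ _ he'
  rw [he'] at h3 h4
  rw [he] at h1 h2
  obtain ⟨g, hg⟩ : ∃ g, g = s1 + s2 := ⟨_, rfl⟩
  have hgx : q x g = 0 := by rw [hg, map_add, h2, h4, self]
  have hs2 : s2 = s1 + g := by rw [hg, cancel]
  rw [hs2] at h3
  have e1 : q w s1 = q g a := by
    have j1 : q w g = 0 := h.uu hw hgx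
    simp only [map_add, LinearMap.add_apply, j1, h1] at h3
    apply eq_of
    rw [h.lk.symm g a]
    have j2 := add_eq h3
    have c := self (q x z)
    have : q w s1 + q a g = (q x z + q w s1 + (q a g + 0) + q x z) + (q x z + q x z) := by
      rw [c, add_zero]
      have : q x z + q w s1 + (q a g + 0) + q x z = (q x z + q x z) + (q w s1 + q a g) := by abel
      rw [this, c, zero_add]
    rw [this, c, add_zero]
    exact j2
  have e2 : q w s1 = 0 := by
    apply h.s0 hw
    have j1 : s (q w (s (q w s1))) = s (q w s1) := h.FF hw s1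
    have j2 : s (q w (s (q g a))) = 0 := by rw [h.st0 hw hgx ha, map_zero]
    rw [← j1, e1, j2]
  rw [h.mod hw h2.symm, e2]

omit [Finite V] in
theorem St.ind (h : St q x s) {w a0 b0 a1 b1 : V} (hw : q x w = 0) (ha0 : a0 ∈ PP q x s w)
    (hb0 : b0 ∈ PP q x s w) (ha1 : a1 ∈ PP q x s (x + w)) (hb1 : b1 ∈ PP q x s (x + w))
    (he : q a0 b0 = q a1 b1) : q a0 b0 = 0 := by
  have hxw : q x (x + w) = 0 := h.add h.xx hw
  have p1 : q a0 b1 = 0 := h.perp hw ha0 hb1
  have p2 : q b0 a1 = 0 := h.perp hw hb0 ha1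
  have e0 : q (a0 + a1) (b0 + b1) = 0 := by
    simp only [map_add, LinearMap.add_apply, p1, h.lk.symm a1 b0, p2, add_zero, zero_add]
    rw [he, self]
  have e1 : q x a1 = q (a0 + a1) w := by
    have j := ha1.1
    rw [map_add, LinearMap.add_apply] at j
    rw [map_add, LinearMap.add_apply, h.lk.symm a0 w, ha0.1, zero_add, h.lk.symm a1 w]
    exact eq_of _ _ j
  obtain ⟨α, g, hα, hg, e2⟩ := star h.lk e1 e0
  have e3 : q a1 b1 = q g (b0 + b1) + q α a1 := by
    have j1 : q α g = 0 := h.uu hα hg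
    simp only [map_add, LinearMap.add_apply, p2, j1, add_zero, zero_add] at e2
    apply eq_of
    rw [← e2, map_add, h.lk.symm g b0, h.lk.symm g b1, h.lk.symm b1 a1]
    abel
  have e4 : q x (s (q a1 b1)) = q a1 b1 := by
    rw [e3, map_add, map_add, h.qF hg, h.qF hα]
  have e5 : q w (s (q a1 b1)) = 0 := h.iv hw ha0.1 hb0.1 (by rw [he, e4])
  have e6 : q (x + w) (s (q a1 b1)) = 0 := h.iv hxw ha1.1 hb1.1 e4.symm
  rw [map_add, LinearMap.add_apply, e4, e5, add_zero] at e6
  rw [he, e6]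

end str

section comb
variable {V B : Type} [AddCommGroup V] [Module (ZMod 2) V] [AddCommGroup B] [Module (ZMod 2) B]

theorem exists_proj (P0 P1 : Submodule (ZMod 2) V) (hc : IsCompl P0 P1) :
    ∃ (π0 : V →ₗ[ZMod 2] P0) (π1 : V →ₗ[ZMod 2] P1), (∀ v, (π0 v : V) + π1 v = v) ∧
      (∀ a : P0, π0 a = a) ∧ (∀ a : P0, π1 a = 0) ∧ (∀ b : P1, π0 b = 0) ∧
      ∀ b : P1, π1 b = b := by
  refine ⟨P0.projectionOnto P1 hc, P1.projectionOnto P0 hc.symm, fun v => ?_,
    Submodule.projectionOnto_apply_left hc, Submodule.projectionOnto_apply_right hc.symm,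
    Submodule.projectionOnto_apply_right hc, Submodule.projectionOnto_apply_left hc.symm⟩
  exact Submodule.projection_add_projection_eq_self hc v

/-- the direct orthogonal sum of two decompositions -/
theorem comb (q : V →ₗ[ZMod 2] V →ₗ[ZMod 2] B) (P0 P1 : Submodule (ZMod 2) V)
    (hc : IsCompl P0 P1) (symm : ∀ a b, q a b = q b a)
    (hp : ∀ a ∈ P0, ∀ b ∈ P1, q a b = 0)
    (hi : ∀ a0 ∈ P0, ∀ b0 ∈ P0, ∀ a1 ∈ P1, ∀ b1 ∈ P1, q a0 b0 = q a1 b1 → q a0 b0 = 0)
    (h0 : HasOS (q.domRestrict₁₂ P0 P0)) (h1 : HasOS (q.domRestrict₁₂ P1 P1)) : HasOS q := by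
  obtain ⟨k0, C0, O0⟩ := h0
  obtain ⟨k1, C1, O1⟩ := h1
  obtain ⟨π0, π1, hv, e00, e10, e01, e11⟩ := exists_proj P0 P1 hc
  -- the projections
  let p : Fin (k0 + k1) → (V →ₗ[ZMod 2] V) := Fin.append
    (fun j => P0.subtype.comp ((C0.p j).comp π0)) (fun j => P1.subtype.comp ((C1.p j).comp π1))
  have pl : ∀ (j : Fin k0) v, p (Fin.castAdd k1 j) v = (C0.p j (π0 v) : V) := by
    intro j v
    simp only [p, Fin.append_left]
    rfl
  have pr : ∀ (j : Fin k1) v, p (Fin.natAdd k0 j) v = (C1.p j (π1 v) : V) := by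
    intro j v
    simp only [p, Fin.append_right]
    rfl
  have q0 : ∀ (a : P0) (v : V), q a v = q.domRestrict₁₂ P0 P0 a (π0 v) := by
    intro a v
    rw [LinearMap.domRestrict₁₂_apply]
    conv_lhs => rw [← hv v]
    rw [map_add, hp a a.2 _ (π1 v).2, add_zero]
  have q1 : ∀ (a : P1) (v : V), q a v = q.domRestrict₁₂ P1 P1 a (π1 v) := by
    intro a v
    rw [LinearMap.domRestrict₁₂_apply]
    conv_lhs => rw [← hv v]
    rw [map_add, symm _ (π0 v : V), hp _ (π0 v).2 a a.2, zero_add]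
  have psum : ∀ v, ∑ j, p j v = ((∑ j, C0.p j (π0 v) : P0) : V) + ((∑ j, C1.p j (π1 v) : P1) : V) := by
    intro v
    rw [Fin.sum_univ_add]
    simp only [pl, pr]
    rw [AddSubmonoidClass.coe_finsetSum, AddSubmonoidClass.coe_finsetSum]
  refine ⟨k0 + k1, ⟨p, ?_, ?_, ?_, ?_, ?_, ?_, ?_⟩, ?_⟩
  · intro j v
    refine Fin.addCases (fun j => ?_) (fun j => ?_) j
    · rw [pl, pl, e00, C0.idem]
    · rw [pr, pr, e11, C1.idem]
  · intro i j
    refine Fin.addCases (fun i => ?_) (fun i => ?_) i <;>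
      refine Fin.addCases (fun j => ?_) (fun j => ?_) j
    · intro hij v
      rw [pl, pl, e00, C0.orth i j (fun h => hij (by rw [h]))]
      rfl
    · intro _ v
      rw [pl, pr, e01, map_zero]
      rfl
    · intro _ v
      rw [pr, pl, e10, map_zero]
      rfl
    · intro hij v
      rw [pr, pr, e11, C1.orth i j (fun h => hij (by rw [h]))]
      rfl
  · intro j v w
    refine Fin.addCases (fun j => ?_) (fun j => ?_) j
    · show q (p _ v) (w + p _ w) = 0
      rw [pl, pl, q0, map_add, e00]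
      exact C0.perp j _ _
    · show q (p _ v) (w + p _ w) = 0
      rw [pr, pr, q1, map_add, e11]
      exact C1.perp j _ _
  · intro v w
    show q (v + ∑ j, p j v) w = 0
    have : v + ∑ j, p j v = ((π0 v + ∑ j, C0.p j (π0 v) : P0) : V) +
        ((π1 v + ∑ j, C1.p j (π1 v) : P1) : V) := by
      rw [psum, Submodule.coe_add, Submodule.coe_add]
      nth_rewrite 1 [← hv v]
      abel
    rw [this, map_add, LinearMap.add_apply, q0, q1]
    have r0 : q.domRestrict₁₂ P0 P0 (π0 v + ∑ j, C0.p j (π0 v)) (π0 w) = 0 :=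
      C0.rad (π0 v) (π0 w)
    have r1 : q.domRestrict₁₂ P1 P1 (π1 v + ∑ j, C1.p j (π1 v)) (π1 w) = 0 :=
      C1.rad (π1 v) (π1 w)
    rw [r0, r1, add_zero]
  · intro v w hvw
    have key : q.domRestrict₁₂ P0 P0 (π0 v) (π0 w) = 0 ∧
        q.domRestrict₁₂ P1 P1 (π1 v) (π1 w) = 0 := by
      have h1 : q v w = q.domRestrict₁₂ P0 P0 (π0 v) (π0 w) +
          q.domRestrict₁₂ P1 P1 (π1 v) (π1 w) := by
        conv_lhs => rw [← hv v]
        rw [map_add, LinearMap.add_apply, q0, q1]
      have h2 : q.domRestrict₁₂ P0 P0 (π0 v) (π0 w) = q.domRestrict₁₂ P1 P1 (π1 v) (π1 w) := by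
        rw [hvw] at h1
        have h3 := congrArg (· + q.domRestrict₁₂ P1 P1 (π1 v) (π1 w)) h1
        simp only [zero_add, add_assoc, self, add_zero] at h3
        exact h3.symm
      have h3 : q.domRestrict₁₂ P0 P0 (π0 v) (π0 w) = 0 :=
        hi _ (π0 v).2 _ (π0 w).2 _ (π1 v).2 _ (π1 w).2 h2
      exact ⟨h3, h2 ▸ h3⟩
    intro j
    refine Fin.addCases (fun j => ?_) (fun j => ?_) j
    · show q (p _ v) (p _ w) = 0
      rw [pl, pl]
      exact C0.ind _ _ key.1 j
    · show q (p _ v) (p _ w) = 0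
      rw [pr, pr]
      exact C1.ind _ _ key.2 j
  · intro j v
    refine Fin.addCases (fun j => ?_) (fun j => ?_) j
    · intro h
      rw [pl, C0.nd j (π0 v) (fun w => by
        have := h (w : V)
        rw [pl, pl, e00] at this
        exact this)]
      rfl
    · intro h
      rw [pr, C1.nd j (π1 v) (fun w => by
        have := h (w : V)
        rw [pr, pr, e11] at this
        exact this)]
      rfl
  · intro j
    refine Fin.addCases (fun j => ?_) (fun j => ?_) j
    · obtain ⟨v, hv'⟩ := C0.ne j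
      refine ⟨v, fun h => hv' ?_⟩
      rw [pl, e00] at h
      exact Subtype.ext h
    · obtain ⟨v, hv'⟩ := C1.ne j
      refine ⟨v, fun h => hv' ?_⟩
      rw [pr, e11] at h
      exact Subtype.ext h
  · intro j
    refine Fin.addCases (fun j => ?_) (fun j => ?_) j
    · rcases O0 j with h | ⟨t, ht, ht0, htv⟩
      · left
        intro v w w'
        show q (p _ v) w = 0 ∨ q (p _ v) w' = 0 ∨ q (p _ v) (w + w') = 0
        rw [pl, q0, q0, q0, map_add]
        exact h _ _ _
      · right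
        refine ⟨t, ?_, fun h => ht0 (Subtype.ext h), fun v hv' => ?_⟩
        · show p _ t = t
          rw [pl, e00, ht]
        · have hv'' : q t (p (Fin.castAdd k1 j) v) = 0 := hv'
          rw [pl] at hv''
          show p (Fin.castAdd k1 j) v = 0 ∨ p (Fin.castAdd k1 j) v = t
          rw [pl]
          rcases htv (π0 v) hv'' with h | h
          · left; rw [h]; rfl
          · right; rw [h]
    · rcases O1 j with h | ⟨t, ht, ht0, htv⟩
      · left
        intro v w w'
        show q (p _ v) w = 0 ∨ q (p _ v) w' = 0 ∨ q (p _ v) (w + w') = 0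
        rw [pr, q1, q1, q1, map_add]
        exact h _ _ _
      · right
        refine ⟨t, ?_, fun h => ht0 (Subtype.ext h), fun v hv' => ?_⟩
        · show p _ t = t
          rw [pr, e11, ht]
        · have hv'' : q t (p (Fin.natAdd k0 j) v) = 0 := hv'
          rw [pr] at hv''
          show p (Fin.natAdd k0 j) v = 0 ∨ p (Fin.natAdd k0 j) v = t
          rw [pr]
          rcases htv (π1 v) hv'' with h | h
          · left; rw [h]; rfl
          · right; rw [h]


/-- the restricted structure -/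
theorem restr (q : V →ₗ[ZMod 2] V →ₗ[ZMod 2] B) {x : V} {s : B →ₗ[ZMod 2] V} (h : St q x s)
    (P P' : Submodule (ZMod 2) V) (hc : IsCompl P P') (hp : ∀ a ∈ P, ∀ b ∈ P', q a b = 0)
    (y y' : V) (hy : y ∈ P) (hy' : y' ∈ P') (hxy : x = y + y')
    (hiv : ∀ a ∈ P, ∀ b ∈ P, ∀ z, q a b = q x z → q y' z = 0) :
    IsLinked (q.domRestrict₁₂ P P) 0 ∧ Nd (q.domRestrict₁₂ P P) ∧
      Rg (q.domRestrict₁₂ P P) ⟨y, hy⟩ ∧ Iso (q.domRestrict₁₂ P P) ⟨y, hy⟩ := by
  obtain ⟨π0, π1, hv, e00, e10, e01, e11⟩ := exists_proj P P' hc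
  have q0 : ∀ (a : P) (v : V), q a v = q a (π0 v) := by
    intro a v
    conv_lhs => rw [← hv v]
    rw [map_add, hp a a.2 _ (π1 v).2, add_zero]
  have hpy : ∀ w : P, q y' w = 0 := fun w => by rw [h.lk.symm]; exact hp w w.2 y' hy'
  have hU : ∀ w : P, q y w = q x w := by
    intro w
    rw [hxy, al, hpy w, add_zero]
  refine ⟨⟨?_, ?_, ?_⟩, ?_, ?_, ?_⟩
  · intro a b
    simp only [LinearMap.domRestrict₁₂_apply]
    exact h.lk.symm _ _
  · intro a
    simp only [LinearMap.domRestrict₁₂_apply, map_zero]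
    exact h.dg _
  · intro a b c d he
    simp only [LinearMap.domRestrict₁₂_apply] at he ⊢
    obtain ⟨t, h1, h2⟩ := h.lk.link _ _ _ _ he
    exact ⟨π0 t, by rw [← q0, h1], by rw [← q0, h2]⟩
  · intro a ha
    apply Subtype.ext
    apply h.nd
    intro w
    rw [q0]
    exact ha (π0 w)
  · intro w v hw
    simp only [LinearMap.domRestrict₁₂_apply] at hw ⊢
    rw [hU] at hw
    obtain ⟨z, hz⟩ := h.rg w v hw
    have h1 : q y' z = 0 := hiv w w.2 v v.2 z hz.symm
    refine ⟨π0 z, ?_⟩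
    rw [← q0 ⟨y, hy⟩ z, ← hz, hxy, al]
    show q y z = q y z + q y' z
    rw [h1, add_zero]
  · intro u w hu hw
    simp only [LinearMap.domRestrict₁₂_apply] at hu hw ⊢
    rw [hU] at hu hw
    exact h.iso _ _ hu hw

end comb

theorem rft : ∀ (n : ℕ) (V B : Type) [AddCommGroup V] [Module (ZMod 2) V] [Finite V]
    [AddCommGroup B] [Module (ZMod 2) B] (q : V →ₗ[ZMod 2] V →ₗ[ZMod 2] B) (x : V),
    Nat.card V ≤ n → IsLinked q 0 → Nd q → Rg q x → Iso q x → HasOS q := by
  intro n
  induction n with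
  | zero =>
    intro V B _ _ _ _ _ q x hn
    exact absurd hn (by have := Nat.card_pos (α := V); omega)
  | succ n ih =>
    intro V B _ _ _ _ _ q x hn hl hnd hr hi
    obtain ⟨s, hs⟩ := exists_sec q x
    have h : St q x s := ⟨hl, hnd, hr, hi, hs⟩
    by_cases hU : ∀ w, q x w = 0 → w = 0 ∨ w = x
    · by_cases hx : x = 0
      · have h0 : ∀ v : V, v = 0 := by
          intro v
          rcases hU v (by rw [hx, map_zero, LinearMap.zero_apply]) with h | h
          · exact h
          · rw [h, hx]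
        exact ⟨0, ⟨Fin.elim0, fun j => j.elim0, fun i => i.elim0, fun j => j.elim0,
          fun v w => by
            show q _ w = 0
            rw [h0 (v + _), map_zero, LinearMap.zero_apply],
          fun _ _ _ j => j.elim0, fun j => j.elim0, fun j => j.elim0⟩, fun j => j.elim0⟩
      · refine ⟨1, ⟨fun _ => LinearMap.id, fun _ _ => rfl, fun i j hij => ?_, fun _ v w => ?_,
          fun v w => ?_, fun v w hvw _ => hvw, fun _ v hv => hnd v hv, fun _ => ⟨x, hx⟩⟩,
          fun j => ?_⟩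
        · exact absurd (Subsingleton.elim i j) hij
        · show q v (w + w) = 0
          rw [self, map_zero]
        · show q (v + ∑ j : Fin 1, v) w = 0
          rw [Fin.sum_univ_one, self, map_zero, LinearMap.zero_apply]
        · right
          exact ⟨x, rfl, hx, fun v hv => hU v hv⟩
    · push Not at hU
      obtain ⟨w, hw, hw0, hwx⟩ := hU
      have hxw : q x (x + w) = 0 := h.add h.xx hw
      have hc := h.compl hw
      have hp : ∀ a ∈ PP q x s w, ∀ b ∈ PP q x s (x + w), q a b = 0 :=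
        fun a ha b hb => h.perp hw ha hb
      have m0 : x + w ∈ PP q x s w := h.mem0 hw hxw fun t ht => ht
      have m1 : w ∈ PP q x s (x + w) := h.mem0 hxw hw fun t ht => by rwa [xxw] at ht
      have hne : x + w ≠ 0 := fun h => hwx (eq_of _ _ h).symm
      have n0 : w ∉ PP q x s w := fun hm => hw0 (Submodule.disjoint_def.1 hc.disjoint w hm m1)
      have n1 : x + w ∉ PP q x s (x + w) :=
        fun hm => hne (Submodule.disjoint_def.1 hc.disjoint (x + w) m0 hm)
      obtain ⟨l0, d0, r0, i0⟩ := restr q h _ _ hc hp (x + w) w m0 m1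
        (by rw [add_assoc, self, add_zero])
        (fun a ha b hb z hz => h.iv hw ha.1 hb.1 hz)
      obtain ⟨l1, d1, r1, i1⟩ := restr q h _ _ hc.symm
        (fun a ha b hb => by rw [hl.symm]; exact hp b hb a ha) w (x + w) m1 m0
        (by rw [add_comm x w, ← add_assoc, self, zero_add])
        (fun a ha b hb z hz => h.iv hxw ha.1 hb.1 hz)
      refine comb q _ _ hc hl.symm hp
        (fun a0 ha0 b0 hb0 a1 ha1 b1 hb1 he => h.ind hw ha0 hb0 ha1 hb1 he)
        (ih _ _ _ _ ?_ l0 d0 r0 i0) (ih _ _ _ _ ?_ l1 d1 r1 i1)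
      · have := Finite.card_subtype_lt (p := fun v => v ∈ PP q x s w) n0
        have : Nat.card (PP q x s w) < Nat.card V := this
        omega
      · have := Finite.card_subtype_lt (p := fun v => v ∈ PP q x s (x + w)) n1
        have : Nat.card (PP q x s (x + w)) < Nat.card V := this
        omega

end RFT_

theorem rft_proof : Stmt_RFT := fun V B _ _ _ _ _ q x hl hn hr hi =>
  RFT_.rft (Nat.card V) V B q x le_rfl hl hn hr hi

end Pool.Agent.GTW
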